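import Pool.Agent.Run7.h148.Jid

set_option autoImplicit false

open Metric Set MeasureTheory Filter Topology Complex

namespace Run7.h148

lemma intable2 {F : ℝ → ℂ → ℂ → ℝ} (hF : Measurable (fun p : ℝ × ℂ × ℂ => F p.1 p.2.1 p.2.2))
    {C : ℝ} (hC : ∀ s x y, |F s x y| ≤ C) (t : ℝ) :
    IntervalIntegrable (fun s => ∫ x, (∫ y, F s x y ∂mu) ∂mu) volume 0 t := by
  have hG : Measurable (fun q : (ℝ × ℂ) × ℂ => F q.1.1 q.1.2 q.2) := by
    have : Measurable (fun q : (ℝ × ℂ) × ℂ => (q.1.1, q.1.2, q.2)) := by fun_prop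
    exact hF.comp this
  have h1 : StronglyMeasurable (fun p : ℝ × ℂ => ∫ y, F p.1 p.2 y ∂mu) :=
    hG.stronglyMeasurable.integral_prod_right'
  have h2 : StronglyMeasurable (fun s : ℝ => ∫ x, (∫ y, F s x y ∂mu) ∂mu) :=
    h1.integral_prod_right'
  have b1 : ∀ s x, ‖∫ y, F s x y ∂mu‖ ≤ C * Real.pi := by
    intro s x
    have := norm_integral_le_of_norm_le_const (μ := mu) (f := fun y => F s x y)
      (C := C) (Filter.Eventually.of_forall fun y => hC s x y)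
    rwa [mu_univ] at this
  have b2 : ∀ s, ‖∫ x, (∫ y, F s x y ∂mu) ∂mu‖ ≤ C * Real.pi * Real.pi := by
    intro s
    have := norm_integral_le_of_norm_le_const (μ := mu) (f := fun x => ∫ y, F s x y ∂mu)
      (C := C * Real.pi) (Filter.Eventually.of_forall fun x => b1 s x)
    rwa [mu_univ] at this
  have hC0 : 0 ≤ C := (abs_nonneg _).trans (hC 0 0 0)
  refine (intervalIntegrable_const (c := C * Real.pi * Real.pi)).mono_fun
    h2.aestronglyMeasurable ?_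
  refine Filter.Eventually.of_forall fun s => ?_
  refine (b2 s).trans (le_of_eq ?_)
  rw [Real.norm_eq_abs, abs_of_nonneg]
  positivity

variable {s1 s2 κ T : ℝ} {ψ : ℝ → ℂ → ℝ} {g : ℝ → ℂ → ℂ} {H : ℝ → ℂ → ℂ →L[ℝ] ℂ}
variable {φ : ℝ → ℝ → ℂ → ℂ}

theorem DSol.J_lower (h : DSol s1 s2 κ T ψ g H) (h1 : 0 < s1) (h2 : 0 < s2) (hκ : 0 < κ)
    (hF : Flw T (fun t z => (κ : ℂ) * I * g t z) φ) {t : ℝ} (ht : t ∈ Icc 0 T) :
    2 * Real.pi * κ * (√(En s1 s2 (g 0)) - |mean s1 s2 (H 0) / (s1 + s2)| * √(En s1 s2 (fun z => z))) ^ 2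
      * t ≤
    ∫ x, (vo s1 s2 (H 0) (pj x) - mean s1 s2 (H 0)) *
      VV T (fun t z => (κ : ℂ) * I * g t z) φ t x ∂mu := by
  set m := mean s1 s2 (H 0) with hm
  set D : ℝ := 2 * Real.pi * κ *
    (√(En s1 s2 (g 0)) - |m / (s1 + s2)| * √(En s1 s2 (fun z => z))) ^ 2 with hD
  have hfld := h.fld
  obtain ⟨K, hK0, hK⟩ := hfld.bound
  have h0 : (0:ℝ) ∈ Icc 0 T := ⟨le_rfl, h.T0⟩
  have cv : Continuous (fun x => vo s1 s2 (H 0) (pj x)) :=
    (h.cvo h0).comp_continuous continuous_pj pj_mem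
  obtain ⟨W, hW⟩ := (isCompact_closedBall (0:ℂ) 1).exists_bound_of_continuousOn (h.cvo h0)
  rw [h.J_eq hF ht m]
  have hlow : ∀ s ∈ Icc 0 T, D ≤ jr s1 s2 κ m (ψ s) (g s) (H s) := by
    intro s hs
    have a1 := (h.c2 s hs).jr_lower h1 h2 hκ (m := m) (h.int_vo_sub hs)
    have a2 := En_lower (h.c2 s hs).cg h1 h2 (m / (s1 + s2))
    rw [h.energy_const hs] at a2
    refine le_trans ?_ a1
    rw [hD]
    have : 0 < 2 * Real.pi * κ := by have := Real.pi_pos; positivity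
    exact mul_le_mul_of_nonneg_left a2 this.le
  have hint : IntervalIntegrable (fun s => jr s1 s2 κ m (ψ s) (g s) (H s)) volume 0 t := by
    have a1 := intable2 (F := fun s x y => (vo s1 s2 (H 0) (pj x) - m) *
      (kz T (fun t z => (κ : ℂ) * I * g t z) φ s x y).im) (C := (W + |m|) * K) ?_ ?_ t
    · refine a1.congr ?_
      intro s hs
      rw [uIoc_of_le ht.1] at hs
      exact h.rate hF ⟨hs.1.le, hs.2.trans ht.2⟩ m
    · have m1 : Measurable (fun p : ℝ × ℂ × ℂ => vo s1 s2 (H 0) (pj p.2.1) - m) := by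
        have : Continuous (fun p : ℝ × ℂ × ℂ => vo s1 s2 (H 0) (pj p.2.1) - m) :=
          (cv.comp (by fun_prop : Continuous (fun p : ℝ × ℂ × ℂ => p.2.1))).sub continuous_const
        exact this.measurable
      exact m1.mul (Complex.measurable_im.comp (hF.kz_meas hfld))
    · intro s x y
      rw [abs_mul]
      have a1 : |vo s1 s2 (H 0) (pj x) - m| ≤ W + |m| := by
        have := hW (pj x) (pj_mem x)
        rw [Real.norm_eq_abs] at this
        exact (abs_sub _ _).trans (by linarith)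
      have a2 := (Complex.abs_im_le_norm (kz T (fun t z => (κ : ℂ) * I * g t z) φ s x y)).trans
        (kz_bound hfld hK s x y)
      exact mul_le_mul a1 a2 (abs_nonneg _) ((abs_nonneg _).trans a1)
  have e1 : D * t = ∫ s in (0:ℝ)..t, D := by
    rw [intervalIntegral.integral_const, sub_zero, smul_eq_mul, mul_comm]
  rw [e1]
  exact intervalIntegral.integral_mono_on ht.1 intervalIntegrable_const hint
    (fun s hs => hlow s ⟨hs.1, hs.2.trans ht.2⟩)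

/-- Main dynamical estimate: if the flow map and its inverse are `L`-Lipschitz at time `t`, then `t`
is at most a constant times `L² + 1`. -/
theorem core : ∃ C₁ : ℝ, 0 < C₁ ∧ ∀ {s1 s2 κ T : ℝ} {ψ : ℝ → ℂ → ℝ} {g : ℝ → ℂ → ℂ}
    {H : ℝ → ℂ → ℂ →L[ℝ] ℂ} {φ : ℝ → ℝ → ℂ → ℂ} (_ : DSol s1 s2 κ T ψ g H) (_ : 0 < s1)
    (_ : 0 < s2) (_ : 0 < κ) (_ : Flw T (fun t z => (κ : ℂ) * I * g t z) φ)
    {t L : ℝ} (_ : t ∈ Icc 0 T) (_ : 0 < L)
    (_ : ∀ x ∈ DD, ∀ y ∈ DD, ‖φ 0 t x - φ 0 t y‖ ≤ L * ‖x - y‖)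
    (_ : ∀ x ∈ DD, ∀ y ∈ DD, ‖x - y‖ ≤ L * ‖φ 0 t x - φ 0 t y‖)
    {M : ℝ} (_ : ∀ x ∈ ball (0:ℂ) 1, |vo s1 s2 (H 0) x - mean s1 s2 (H 0)| ≤ M),
    2 * Real.pi * κ * (√(En s1 s2 (g 0)) - |mean s1 s2 (H 0) / (s1 + s2)| * √(En s1 s2 (fun z => z))) ^ 2
      * t ≤ M * ((L ^ 2 + 1) * C₁) := by
  obtain ⟨C₁, hC0, hC⟩ := J_bound
  refine ⟨C₁, hC0, ?_⟩
  intro s1 s2 κ T ψ g H φ h h1 h2 hκ hF t L ht hL hL1 hL2 M hM
  refine (h.J_lower h1 h2 hκ hF ht).trans ?_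
  have h0 : (0:ℝ) ∈ Icc 0 T := ⟨le_rfl, h.T0⟩
  have cv : Continuous (fun x => vo s1 s2 (H 0) (pj x)) :=
    (h.cvo h0).comp_continuous continuous_pj pj_mem
  refine hC hF h.fld ht.1 hL hL1 hL2 (f :=
    fun x => vo s1 s2 (H 0) (pj x) - mean s1 s2 (H 0)) ?_ (M := M) ?_ ?_
  · exact (cv.sub continuous_const).aestronglyMeasurable
  · intro x hx
    rw [pj_of_le (by simpa using (ball_subset_closedBall hx : x ∈ DD))]
    exact hM x hx
  · refine Eq.trans ?_ (h.int_vo_sub h0)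
    refine setIntegral_congr_fun measurableSet_ball fun x hx => ?_
    rw [pj_of_le (by simpa using (ball_subset_closedBall hx : x ∈ DD))]

end Run7.h148
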