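import Mathlib

set_option autoImplicit false

open Set Filter Topology

namespace Run7.h148

/-- The `C^α` norm on `M` of a function with values in a normed space (as an extended number):
supremum plus Hölder seminorm. -/
noncomputable def hNorm {E : Type*} [NormedAddCommGroup E] (α : ℝ) (M : Set ℂ) (f : ℂ → E) : ENNReal :=
  (⨆ x ∈ M, ‖f x‖ₑ) + ⨆ x ∈ M, ⨆ y ∈ M, ‖f x - f y‖ₑ / ‖x - y‖ₑ ^ α

open Classical in
/-- The `C^{1,α}` norm on `M` (as an extended number): supremum plus the `C^α` norm of the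
derivative, and `⊤` if the function is not differentiable on `M`. -/
noncomputable def h1Norm (α : ℝ) (M : Set ℂ) (f : ℂ → ℝ) : ENNReal :=
  if DifferentiableOn ℝ f M then (⨆ x ∈ M, ‖f x‖ₑ) + hNorm α M (fderivWithin ℝ f M) else ⊤

/-- The velocity field `∇^⊥ ψ = (-∂_y ψ, ∂_x ψ)` of the stream function `ψ` at the point `z ∈ M`. -/
noncomputable def vel (M : Set ℂ) (ψ : ℂ → ℝ) (z : ℂ) : ℂ :=
  ⟨-(fderivWithin ℝ ψ M z Complex.I), fderivWithin ℝ ψ M z 1⟩

/-- `ω` is a global classical solution on the closed domain `M` of the two-dimensional Euler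
equations in vorticity form, with stream function `ψ`: `ψ` is `C^k` up to the boundary with
derivatives of order at most `k` jointly continuous on `[0,∞) × M`, `ψ = 0` on the boundary,
`Δψ = ω` in the interior, `ω` is continuous up to the boundary, and the vorticity is transported by
the velocity `u = ∇^⊥ψ`, i.e. constant along particle trajectories. -/
structure EulerSol (k : ℕ) (M : Set ℂ) (ω ψ : ℝ → ℂ → ℝ) : Prop where
  smooth : ∀ t, 0 ≤ t → ContDiffOn ℝ k (ψ t) M
  cont : ∀ j : ℕ, j ≤ k →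
    ContinuousOn (fun p : ℝ × ℂ => iteratedFDerivWithin ℝ j (ψ p.1) M p.2) (Ici 0 ×ˢ M)
  bdry : ∀ t, 0 ≤ t → ∀ z ∈ frontier M, ψ t z = 0
  lap : ∀ t, 0 ≤ t → ∀ z ∈ interior M, Laplacian.laplacian (ψ t) z = ω t z
  contω : ∀ t, 0 ≤ t → ContinuousOn (ω t) M
  transport : ∀ T, 0 ≤ T → ∀ X : ℝ → ℂ, (∀ t ∈ Icc 0 T, X t ∈ M) →
    (∀ t ∈ Icc 0 T, HasDerivWithinAt X (vel M (ψ t) (X t)) (Icc 0 T) t) → ω T (X T) = ω 0 (X 0)

/-- The closed domain bounded by the ellipse with semi-axes `a` and `b`. -/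
def ell (a b : ℝ) : Set ℂ := {z | (z.re / a) ^ 2 + (z.im / b) ^ 2 ≤ 1}

end Run7.h148
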