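import Pool.Agent.Run7.h148.Rough

set_option autoImplicit false

open Metric Set Filter Topology

namespace Run7.h148

lemma rpow_third {γ : ℝ} (hγ : 0 < γ) : ((1 / 3 : ℝ) ^ (1 / γ)) ^ γ = 1 / 3 := by
  rw [← Real.rpow_mul (by norm_num), one_div_mul_cancel hγ.ne', Real.rpow_one]

lemma rough_of_series {γ : ℝ} (hγ : 0 < γ) {ρ : ℝ} (hρ : ρ = (1 / 3 : ℝ) ^ (1 / γ)) {c : ℝ}
    {z e : ℕ → ℂ} (he : ∀ n, ‖e n‖ = 1)
    (hd : ∀ x e' : ℂ, ‖e'‖ = 1 → ∀ η > 0, ∀ N : ℕ, ∃ n ≥ N, ‖z n - x‖ < η ∧ ‖e n - e'‖ < η)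
    {f : ℂ → ℝ} (hf : ∀ n, c * (1 / 3) ^ n ≤ |sd f (z n) (((ρ ^ n : ℝ) : ℂ) * e n)|) :
    Rough γ c f := by
  have hρ0 : 0 < ρ := by rw [hρ]; positivity
  have hρ1 : ρ < 1 := by
    rw [hρ]; exact Real.rpow_lt_one (by norm_num) (by norm_num) (by positivity)
  have hργ : ρ ^ γ = 1 / 3 := by rw [hρ]; exact rpow_third hγ
  intro x e' he' η hη
  obtain ⟨N, hN⟩ := exists_pow_lt_of_lt_one hη hρ1
  obtain ⟨n, hn, h1, h2⟩ := hd x e' he' η hη N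
  refine ⟨z n, e n, ρ ^ n, h1, h2, he n, by positivity, ?_, ?_⟩
  · exact (pow_le_pow_of_le_one hρ0.le hρ1.le hn).trans_lt hN
  · have e1 : (ρ ^ n) ^ γ = (1 / 3) ^ n := by
      rw [← Real.rpow_natCast, ← Real.rpow_mul hρ0.le, mul_comm, Real.rpow_mul hρ0.le, hργ,
        Real.rpow_natCast]
    rw [e1]
    exact hf n

/-- limit of the uniform Hölder bounds -/
lemma holder_tsum {E : Type*} [NormedAddCommGroup E] [CompleteSpace E] {ρ θ A : ℝ} (hρ : 0 < ρ)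
    (hρ1 : ρ < 1) (hθ : 0 < θ) (hθ1 : θ < 1) (hA : 0 ≤ A) {F : ℕ → ℂ → E}
    (h1 : ∀ i x, ‖F i x‖ ≤ A * (ρ ^ θ) ^ i)
    (h2 : ∀ i x y, ‖F i x - F i y‖ ≤ A * (ρ ^ θ) ^ i * (dist x y / ρ ^ i)) (x y : ℂ) :
    ‖∑' i, F i x - ∑' i, F i y‖ ≤
      A * (1 / (1 - ρ ^ (1 - θ)) + 2 / (1 - ρ ^ θ)) * dist x y ^ θ := by
  have hρθ : ρ ^ θ < 1 := Real.rpow_lt_one hρ.le hρ1 hθ
  have hρθ0 : 0 < ρ ^ θ := Real.rpow_pos_of_pos hρ _
  have hs : ∀ x, Summable (fun i => F i x) := fun x =>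
    Summable.of_norm_bounded ((summable_geometric_of_lt_one hρθ0.le hρθ).mul_left A) fun i => h1 i x
  have t1 := (hs x).hasSum.tendsto_sum_nat.sub (hs y).hasSum.tendsto_sum_nat
  exact le_of_tendsto t1.norm (Filter.Eventually.of_forall fun N =>
    holder_sum hρ hρ1 hθ hθ1 hA h1 h2 N x y)

lemma tsum_bound {E : Type*} [NormedAddCommGroup E] [CompleteSpace E] {q A : ℝ} (hq : 0 < q)
    (hq1 : q < 1) {F : ℕ → ℂ → E} (h1 : ∀ i x, ‖F i x‖ ≤ A * q ^ i) (x : ℂ) :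
    ‖∑' i, F i x‖ ≤ A * (1 / (1 - q)) := by
  have h2 : HasSum (fun i => A * q ^ i) (A * (1 / (1 - q))) := by
    rw [one_div]
    exact (hasSum_geometric_of_lt_one hq.le hq1).mul_left A
  exact tsum_of_norm_bounded h2 fun i => h1 i x

lemma bmp_sub_le {K : ℝ} (hK : ∀ w w', |bb w - bb w'| ≤ K * ‖w - w'‖) {ρ : ℝ} (hρ : 0 < ρ)
    (z : ℕ → ℂ) (i : ℕ) (x y : ℂ) :
    |bmp ρ z i x - bmp ρ z i y| ≤ K * (1 / 3) ^ i * (dist x y / ρ ^ i) := by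
  unfold bmp
  rw [← mul_sub, abs_mul, abs_of_pos (by positivity : (0:ℝ) < (1 / 3) ^ i)]
  have e1 : ((ρ ^ i)⁻¹ : ℝ) • (x - z i) - ((ρ ^ i)⁻¹ : ℝ) • (y - z i) = ((ρ ^ i)⁻¹ : ℝ) • (x - y) := by
    rw [← smul_sub]; congr 1; ring
  have e2 := hK (((ρ ^ i)⁻¹ : ℝ) • (x - z i)) (((ρ ^ i)⁻¹ : ℝ) • (y - z i))
  rw [e1, norm_smul, norm_inv, Real.norm_eq_abs, abs_of_pos (by positivity : (0:ℝ) < ρ ^ i)] at e2
  rw [dist_eq_norm]
  calc _ ≤ (1 / 3) ^ i * (K * ((ρ ^ i)⁻¹ * ‖x - y‖)) := by gcongr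
    _ = _ := by rw [div_eq_inv_mul]; ring

/-- every function is a small `C^α` perturbation away from a rough function -/
theorem rough_exists_alpha {α : ℝ} (h0 : 0 < α) (h1 : α < 1) {ε : ℝ} (hε : 0 < ε) (f : ℂ → ℝ) :
    ∃ h : ℂ → ℝ, (∀ x, |h x| ≤ ε) ∧ (∀ x y, |h x - h y| ≤ ε * ‖x - y‖ ^ α) ∧
      ∃ c > 0, Rough α c (fun x => f x + h x) := by
  obtain ⟨z, e, he, hd⟩ := exists_seq
  obtain ⟨K, hK1, hKd, hKl, hKd2⟩ := bb_bounds
  set ρ : ℝ := (1 / 3 : ℝ) ^ (1 / α) with hρ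
  have hρ0 : 0 < ρ := by rw [hρ]; positivity
  have hρ1 : ρ < 1 := by
    rw [hρ]; exact Real.rpow_lt_one (by norm_num) (by norm_num) (by positivity)
  have hργ : ρ ^ α = 1 / 3 := by rw [hρ]; exact rpow_third h0
  have hq1 : ρ ^ (1 - α) < 1 := Real.rpow_lt_one hρ0.le hρ1 (by linarith)
  have hq0 : 0 < ρ ^ (1 - α) := Real.rpow_pos_of_pos hρ0 _
  set CH : ℝ := K * (1 / (1 - ρ ^ (1 - α)) + 2 / (1 - ρ ^ α)) with hCH
  have hCHpos : 0 < CH := by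
    have : 0 < 1 - ρ ^ (1 - α) := by linarith
    have : 0 < 1 - ρ ^ α := by rw [hργ]; norm_num
    positivity
  set ε' : ℝ := ε / (CH + 2 * K) with hε'
  have hε'0 : 0 < ε' := by positivity
  obtain ⟨σ, hσ, hs⟩ := rough_series hρ0 hε'0 z e he f
  have b1 : ∀ i x, ‖σ i * bmp ρ z i x‖ ≤ K * (ρ ^ α) ^ i := by
    intro i x
    rw [norm_mul, Real.norm_eq_abs, Real.norm_eq_abs, abs_of_nonneg (bmp_nonneg _ _ _ _), hργ]
    calc |σ i| * bmp ρ z i x ≤ 1 * (1 / 3) ^ i :=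
          mul_le_mul (hσ i) (bmp_le _ _ _ _) (bmp_nonneg _ _ _ _) zero_le_one
      _ ≤ K * (1 / 3) ^ i := by gcongr
  have b2 : ∀ i x y, ‖σ i * bmp ρ z i x - σ i * bmp ρ z i y‖ ≤ K * (ρ ^ α) ^ i * (dist x y / ρ ^ i) := by
    intro i x y
    rw [← mul_sub, norm_mul, Real.norm_eq_abs, Real.norm_eq_abs, hργ]
    calc |σ i| * |bmp ρ z i x - bmp ρ z i y| ≤ 1 * (K * (1 / 3) ^ i * (dist x y / ρ ^ i)) :=
          mul_le_mul (hσ i) (bmp_sub_le hKl hρ0 z i x y) (abs_nonneg _) zero_le_one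
      _ = _ := one_mul _
  refine ⟨fun x => ε' * ∑' i, σ i * bmp ρ z i x, ?_, ?_, ε', hε'0, ?_⟩
  · intro x
    rw [abs_mul, abs_of_pos hε'0]
    have := tsum_bound (q := ρ ^ α) (by positivity) (by rw [hργ]; norm_num) b1 x
    rw [Real.norm_eq_abs, hργ] at this
    calc ε' * |∑' i, σ i * bmp ρ z i x| ≤ ε' * (K * (1 / (1 - 1 / 3))) := by gcongr
      _ ≤ ε' * (CH + 2 * K) := by gcongr; linarith
      _ = ε := by rw [hε']; field_simp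
  · intro x y
    rw [← mul_sub, abs_mul, abs_of_pos hε'0]
    have := holder_tsum hρ0 hρ1 h0 h1 (by linarith : 0 ≤ K) b1 b2 x y
    rw [Real.norm_eq_abs, dist_eq_norm] at this
    have hp : 0 ≤ ‖x - y‖ ^ α := by positivity
    calc ε' * |∑' i, σ i * bmp ρ z i x - ∑' i, σ i * bmp ρ z i y| ≤ ε' * (CH * ‖x - y‖ ^ α) := by gcongr
      _ ≤ ε' * ((CH + 2 * K) * ‖x - y‖ ^ α) := by gcongr; linarith
      _ = ε * ‖x - y‖ ^ α := by rw [hε']; field_simp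
  · exact rough_of_series h0 hρ he hd hs

/-- the derivative of the bump -/
lemma hasFDerivAt_bmp (ρ : ℝ) (z : ℕ → ℂ) (i : ℕ) (x : ℂ) :
    HasFDerivAt (bmp ρ z i) (((1 / 3 : ℝ) ^ i * (ρ ^ i)⁻¹) • fderiv ℝ bb (((ρ ^ i)⁻¹ : ℝ) • (x - z i))) x := by
  have c1 : Differentiable ℝ bb := (bb.contDiff (n := 1)).differentiable (by norm_num)
  have h1 : HasFDerivAt (fun x : ℂ => ((ρ ^ i)⁻¹ : ℝ) • (x - z i))
      (((ρ ^ i)⁻¹ : ℝ) • ContinuousLinearMap.id ℝ ℂ) x := by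
    have := ((hasFDerivAt_id (𝕜 := ℝ) x).sub_const (z i)).const_smul ((ρ ^ i)⁻¹ : ℝ)
    exact this
  have h2 := ((c1 (((ρ ^ i)⁻¹ : ℝ) • (x - z i))).hasFDerivAt.comp x h1).const_mul ((1 / 3 : ℝ) ^ i)
  refine h2.congr_fderiv ?_
  ext v
  simp
  ring

/-- every function is a small `C^{1,α}` perturbation away from a rough function -/
theorem rough_exists_C1 {α : ℝ} (h0 : 0 < α) (h1 : α < 1) {ε : ℝ} (hε : 0 < ε) (f : ℂ → ℝ) :
    ∃ (h : ℂ → ℝ) (G : ℂ → ℂ →L[ℝ] ℝ), (∀ x, HasFDerivAt h (G x) x) ∧ (∀ x, |h x| ≤ ε) ∧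
      (∀ x, ‖G x‖ ≤ ε) ∧ (∀ x y, ‖G x - G y‖ ≤ ε * ‖x - y‖ ^ α) ∧
      ∃ c > 0, Rough (1 + α) c (fun x => f x + h x) := by
  obtain ⟨z, e, he, hd⟩ := exists_seq
  obtain ⟨K, hK1, hKd, hKl, hKd2⟩ := bb_bounds
  have hγ : 0 < 1 + α := by linarith
  set ρ : ℝ := (1 / 3 : ℝ) ^ (1 / (1 + α)) with hρ
  have hρ0 : 0 < ρ := by rw [hρ]; positivity
  have hρ1 : ρ < 1 := by
    rw [hρ]; exact Real.rpow_lt_one (by norm_num) (by norm_num) (by positivity)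
  have hργ : ρ ^ (1 + α) = 1 / 3 := by rw [hρ]; exact rpow_third hγ
  have hp1 : ρ ^ α < 1 := Real.rpow_lt_one hρ0.le hρ1 h0
  have hp0 : 0 < ρ ^ α := Real.rpow_pos_of_pos hρ0 _
  have hq1 : ρ ^ (1 - α) < 1 := Real.rpow_lt_one hρ0.le hρ1 (by linarith)
  have hq0 : 0 < ρ ^ (1 - α) := Real.rpow_pos_of_pos hρ0 _
  have hthird : ∀ i : ℕ, (1 / 3 : ℝ) ^ i * (ρ ^ i)⁻¹ = (ρ ^ α) ^ i := by
    intro i
    rw [← hργ, Real.rpow_add hρ0, Real.rpow_one, mul_pow]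
    field_simp
  set CH : ℝ := K * (1 / (1 - ρ ^ (1 - α)) + 2 / (1 - ρ ^ α)) with hCH
  set CB : ℝ := K * (1 / (1 - ρ ^ α)) with hCB
  have p1 : 0 < 1 - ρ ^ (1 - α) := by linarith
  have p2 : 0 < 1 - ρ ^ α := by linarith
  have hCHpos : 0 < CH := by positivity
  have hCBpos : 0 < CB := by positivity
  set ε' : ℝ := ε / (CH + CB + 2 * K) with hε'
  have hε'0 : 0 < ε' := by positivity
  obtain ⟨σ, hσ, hs⟩ := rough_series hρ0 hε'0 z e he f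
  have b0 : ∀ i x, ‖σ i * bmp ρ z i x‖ ≤ 1 * (1 / 3 : ℝ) ^ i := by
    intro i x
    rw [norm_mul, Real.norm_eq_abs, Real.norm_eq_abs, abs_of_nonneg (bmp_nonneg _ _ _ _)]
    exact mul_le_mul (hσ i) (bmp_le _ _ _ _) (bmp_nonneg _ _ _ _) zero_le_one
  let G : ℕ → ℂ → ℂ →L[ℝ] ℝ := fun i x =>
    (σ i * (ρ ^ α) ^ i) • fderiv ℝ bb (((ρ ^ i)⁻¹ : ℝ) • (x - z i))
  have b1 : ∀ i x, ‖G i x‖ ≤ K * (ρ ^ α) ^ i := by
    intro i x
    simp only [G]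
    rw [norm_smul, norm_mul, Real.norm_eq_abs, norm_pow, Real.norm_eq_abs, abs_of_pos hp0]
    calc |σ i| * (ρ ^ α) ^ i * ‖fderiv ℝ bb (((ρ ^ i)⁻¹ : ℝ) • (x - z i))‖
        ≤ 1 * (ρ ^ α) ^ i * K := by
          gcongr
          · exact hσ i
          · exact hKd _
      _ = _ := by ring
  have b2 : ∀ i x y, ‖G i x - G i y‖ ≤ K * (ρ ^ α) ^ i * (dist x y / ρ ^ i) := by
    intro i x y
    have e0 : G i x - G i y = (σ i * (ρ ^ α) ^ i) • (fderiv ℝ bb (((ρ ^ i)⁻¹ : ℝ) • (x - z i)) -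
        fderiv ℝ bb (((ρ ^ i)⁻¹ : ℝ) • (y - z i))) := by
      simp only [G]
      exact (smul_sub _ _ _).symm
    rw [e0, norm_smul, norm_mul, Real.norm_eq_abs, norm_pow, Real.norm_eq_abs,
      abs_of_pos hp0]
    have e1 : ((ρ ^ i)⁻¹ : ℝ) • (x - z i) - ((ρ ^ i)⁻¹ : ℝ) • (y - z i) = ((ρ ^ i)⁻¹ : ℝ) • (x - y) := by
      rw [← smul_sub]; congr 1; ring
    have e2 := hKd2 (((ρ ^ i)⁻¹ : ℝ) • (x - z i)) (((ρ ^ i)⁻¹ : ℝ) • (y - z i))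
    rw [e1, norm_smul, norm_inv, Real.norm_eq_abs, abs_of_pos (by positivity : (0:ℝ) < ρ ^ i)] at e2
    rw [dist_eq_norm]
    calc |σ i| * (ρ ^ α) ^ i * ‖_‖
        ≤ 1 * (ρ ^ α) ^ i * (K * ((ρ ^ i)⁻¹ * ‖x - y‖)) := by
          gcongr
          exact hσ i
      _ = _ := by rw [div_eq_inv_mul]; ring
  have hder : ∀ i x, HasFDerivAt (fun y => σ i * bmp ρ z i y) (G i x) x := by
    intro i x
    have := (hasFDerivAt_bmp ρ z i x).const_mul (σ i)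
    refine this.congr_fderiv ?_
    simp only [G]
    rw [hthird i, smul_smul]
  have hsum : ∀ x, HasFDerivAt (fun y => ∑' i, σ i * bmp ρ z i y) (∑' i, G i x) x := fun x =>
    hasFDerivAt_tsum (u := fun i => K * (ρ ^ α) ^ i)
      ((summable_geometric_of_lt_one hp0.le hp1).mul_left K) hder b1 (x₀ := 0)
      (summable_bmp ρ z hσ 0) x
  refine ⟨fun x => ε' * ∑' i, σ i * bmp ρ z i x, fun x => ε' • ∑' i, G i x,
    fun x => (hsum x).const_mul ε', ?_, ?_, ?_, ε', hε'0, rough_of_series hγ hρ he hd hs⟩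
  · intro x
    rw [abs_mul, abs_of_pos hε'0]
    have := tsum_bound (q := 1 / 3) (by norm_num) (by norm_num) b0 x
    rw [Real.norm_eq_abs] at this
    calc ε' * |∑' i, σ i * bmp ρ z i x| ≤ ε' * (1 * (1 / (1 - 1 / 3))) := by gcongr
      _ ≤ ε' * (CH + CB + 2 * K) := by gcongr; linarith
      _ = ε := by rw [hε']; field_simp
  · intro x
    rw [norm_smul, Real.norm_eq_abs, abs_of_pos hε'0]
    have := tsum_bound hp0 hp1 b1 x
    calc ε' * ‖∑' i, G i x‖ ≤ ε' * CB := by gcongr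
      _ ≤ ε' * (CH + CB + 2 * K) := by gcongr; linarith
      _ = ε := by rw [hε']; field_simp
  · intro x y
    have e0 : ε' • (∑' i, G i x) - ε' • (∑' i, G i y) = ε' • (∑' i, G i x - ∑' i, G i y) :=
      (smul_sub _ _ _).symm
    simp only
    rw [e0, norm_smul, Real.norm_eq_abs, abs_of_pos hε'0]
    have := holder_tsum hρ0 hρ1 h0 h1 (by linarith : 0 ≤ K) b1 b2 x y
    rw [dist_eq_norm] at this
    have hp : 0 ≤ ‖x - y‖ ^ α := by positivity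
    calc ε' * ‖∑' i, G i x - ∑' i, G i y‖ ≤ ε' * (CH * ‖x - y‖ ^ α) := by gcongr
      _ ≤ ε' * ((CH + CB + 2 * K) * ‖x - y‖ ^ α) := by gcongr; linarith
      _ = ε * ‖x - y‖ ^ α := by rw [hε']; field_simp

/-- roughness is stable under adding a function with quadratic second differences -/
lemma Rough.add {γ c : ℝ} (hγ2 : γ < 2) (hc : 0 < c) {f k : ℂ → ℝ} (hf : Rough γ c f) {K : ℝ}
    (hk : ∀ x v, |sd k x v| ≤ K * ‖v‖ ^ 2) : Rough γ (c / 2) (fun x => f x + k x) := by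
  have hK0 : 0 ≤ K := by
    have := (abs_nonneg _).trans (hk 0 1)
    simpa using this
  intro x e he η hη
  -- choose the scale so small that the quadratic term is negligible
  obtain ⟨r0, hr0, hr⟩ : ∃ r0 > 0, ∀ r, 0 < r → r < r0 → K * r ^ 2 ≤ c / 2 * r ^ γ := by
    have hlim : Tendsto (fun r : ℝ => K * r ^ (2 - γ)) (𝓝[>] 0) (𝓝 0) := by
      have h1 : Tendsto (fun r : ℝ => r ^ (2 - γ)) (𝓝[>] 0) (𝓝 (0 ^ (2 - γ))) :=
        (Real.continuousAt_rpow_const 0 (2 - γ) (Or.inr (by linarith))).tendsto.mono_left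
          nhdsWithin_le_nhds
      rw [Real.zero_rpow (by linarith)] at h1
      simpa using h1.const_mul K
    have h2 : ∀ᶠ r in 𝓝[>] (0:ℝ), K * r ^ (2 - γ) < c / 2 := hlim.eventually (gt_mem_nhds (by positivity))
    rw [eventually_nhdsWithin_iff, Metric.eventually_nhds_iff_ball] at h2
    obtain ⟨r0, hr0, h3⟩ := h2
    refine ⟨r0, hr0, fun r h4 h5 => ?_⟩
    have h6 := h3 r (by rw [mem_ball_zero_iff, Real.norm_eq_abs, abs_of_pos h4]; exact h5) h4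
    have h7 : r ^ 2 = r ^ (2 - γ) * r ^ γ := by
      rw [← Real.rpow_add h4]; norm_num
    rw [h7, ← mul_assoc]
    have : 0 ≤ r ^ γ := by positivity
    gcongr
  obtain ⟨z, e', r, h1, h2, h3, h4, h5, h6⟩ := hf x e he (min η r0) (lt_min hη hr0)
  refine ⟨z, e', r, h1.trans_le (min_le_left _ _), h2.trans_le (min_le_left _ _), h3, h4,
    h5.trans_le (min_le_left _ _), ?_⟩
  have e1 : sd (fun x => f x + k x) z ((r : ℂ) * e') = sd f z ((r : ℂ) * e') - -(sd k z ((r : ℂ) * e')) := by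
    unfold sd; ring
  have e2 := hk z ((r : ℂ) * e')
  rw [norm_mul, h3, mul_one, Complex.norm_real, Real.norm_eq_abs, abs_of_pos h4] at e2
  have e3 := hr r h4 (h5.trans_le (min_le_right _ _))
  rw [e1]
  have e4 := abs_sub_abs_le_abs_sub (sd f z ((r : ℂ) * e')) (-(sd k z ((r : ℂ) * e')))
  rw [abs_neg] at e4
  linarith

end Run7.h148
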