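import Pool.Agent.Run7.h148.Flow3
import Pool.Agent.Run7.h148.Rough2

set_option autoImplicit false

open Metric Set MeasureTheory Filter Topology Complex

namespace Run7.h148

/-- a Hölder type bound for second differences along arbitrary triples -/
def HB (γ N : ℝ) (M : Set ℂ) (f : ℂ → ℝ) : Prop :=
  ∀ p ∈ M, ∀ q ∈ M, ∀ q' ∈ M,
    |f q + f q' - 2 * f p| ≤ N * (‖q - p‖ ^ γ + ‖q' - p‖ ^ γ + ‖q + q' - 2 * p‖)

/-- `C^{1,γ-1}`-type smoothness of a map at a point -/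
def SD (γ : ℝ) (Φ : ℂ → ℂ) (x : ℂ) : Prop :=
  ∀ ε > 0, ∃ η > 0, ∀ z v : ℂ, ‖z - x‖ < η → ‖v‖ < η → ‖Φ (z + v) + Φ (z - v) - 2 * Φ z‖ ≤ ε * ‖v‖ ^ γ

lemma expand_lower {γ c N : ℝ} {f0 f1 : ℂ → ℝ} {Φ : ℂ → ℂ} {A : ℂ →L[ℝ] ℂ} {x : ℂ} {S M : Set ℂ}
    (hγ : 0 < γ)
    (hS : S ∈ 𝓝 x) (hΦ : MapsTo Φ S M) (hf : ∀ z ∈ S, f0 z = f1 (Φ z))
    (hA : HasStrictFDerivAt Φ A x) (h2 : SD γ Φ x) (hR : Rough γ c f0) (hB : HB γ N M f1)
    (hN : 0 < N) {e : ℂ} (he : ‖e‖ = 1) : c ≤ 2 * N * ‖A e‖ ^ γ := by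
  have key : ∀ ε : ℝ, 0 < ε → c ≤ N * (2 * (‖A e‖ + ε) ^ γ + ε) := by
    intro ε hε
    obtain ⟨η1, hη1, h3⟩ := h2 ε hε
    have h4 := hA.isLittleO.def (half_pos hε)
    rw [Metric.eventually_nhds_iff_ball] at h4
    obtain ⟨η2, hη2, h4⟩ := h4
    obtain ⟨η3, hη3, h5⟩ := Metric.mem_nhds_iff.1 hS
    set η := min (min η1 (η2 / 2)) (min (η3 / 2) (ε / 2 / (‖A‖ + 1))) with hη
    have hη0 : 0 < η := by positivity
    have i1 : η ≤ η1 := (min_le_left _ _).trans (min_le_left _ _)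
    have i2 : η ≤ η2 / 2 := (min_le_left _ _).trans (min_le_right _ _)
    have i3 : η ≤ η3 / 2 := (min_le_right _ _).trans (min_le_left _ _)
    have i4 : η ≤ ε / 2 / (‖A‖ + 1) := (min_le_right _ _).trans (min_le_right _ _)
    obtain ⟨z, e', r, a1, a2, a3, a4, a5, a6⟩ := hR x e he η hη0
    have hv : ‖(r : ℂ) * e'‖ = r := by
      rw [norm_mul, a3, mul_one, Complex.norm_real, Real.norm_eq_abs, abs_of_pos a4]
    set v := (r : ℂ) * e' with hvdef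
    have m1 : ‖z + v - x‖ < 2 * η := by
      have : z + v - x = (z - x) + v := by ring
      rw [this]
      refine (norm_add_le _ _).trans_lt (by rw [hv]; linarith)
    have m2 : ‖z - v - x‖ < 2 * η := by
      have : z - v - x = (z - x) - v := by ring
      rw [this]
      refine (norm_sub_le _ _).trans_lt (by rw [hv]; linarith)
    have n0 : z ∈ S := h5 (by rw [mem_ball, dist_eq_norm]; linarith)
    have n1 : z + v ∈ S := h5 (by rw [mem_ball, dist_eq_norm]; linarith)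
    have n2 : z - v ∈ S := h5 (by rw [mem_ball, dist_eq_norm]; linarith)
    have hAe : ‖A e'‖ ≤ ‖A e‖ + ε / 2 := by
      have e1 : A e' = A e + A (e' - e) := by rw [map_sub]; ring
      rw [e1]
      refine (norm_add_le _ _).trans ?_
      have e2 := A.le_opNorm (e' - e)
      have e3 : ‖A‖ * ‖e' - e‖ ≤ (‖A‖ + 1) * (ε / 2 / (‖A‖ + 1)) := by
        have := norm_nonneg A
        gcongr
        · linarith
        · linarith
      rw [mul_div_cancel₀ _ (by positivity : ‖A‖ + 1 ≠ 0)] at e3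
      linarith
    have hAv : ‖A v‖ ≤ r * (‖A e‖ + ε / 2) := by
      have : A v = (r : ℝ) • A e' := by
        rw [← map_smul, Complex.real_smul]
      rw [this, norm_smul, Real.norm_eq_abs, abs_of_pos a4]
      gcongr
    have d1 : ‖Φ (z + v) - Φ z‖ ≤ r * (‖A e‖ + ε) := by
      have e1 := h4 (z + v, z) (by
        rw [mem_ball, Prod.dist_eq, max_lt_iff, dist_eq_norm, dist_eq_norm]
        exact ⟨by linarith, by linarith⟩)
      simp only [add_sub_cancel_left] at e1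
      have e2 : Φ (z + v) - Φ z = (Φ (z + v) - Φ z - A v) + A v := by ring
      rw [e2]
      refine (norm_add_le _ _).trans ?_
      rw [hv] at e1
      nlinarith
    have d2 : ‖Φ (z - v) - Φ z‖ ≤ r * (‖A e‖ + ε) := by
      have e1 := h4 (z - v, z) (by
        rw [mem_ball, Prod.dist_eq, max_lt_iff, dist_eq_norm, dist_eq_norm]
        exact ⟨by linarith, by linarith⟩)
      simp only [sub_sub_cancel_left, norm_neg] at e1
      have e2 : Φ (z - v) - Φ z = (Φ (z - v) - Φ z - A (-v)) + A (-v) := by ring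
      rw [e2]
      refine (norm_add_le _ _).trans ?_
      rw [hv] at e1
      rw [map_neg, norm_neg]
      rw [map_neg] at e1
      nlinarith
    have d3 := h3 z v (by linarith) (by rw [hv]; linarith)
    have d4 := hB (Φ z) (hΦ n0) (Φ (z + v)) (hΦ n1) (Φ (z - v)) (hΦ n2)
    rw [sd, hf _ n0, hf _ n1, hf _ n2] at a6
    have hr : 0 < r ^ γ := Real.rpow_pos_of_pos a4 _
    have hb0 : 0 ≤ ‖A e‖ + ε := by positivity
    have f1 : ‖Φ (z + v) - Φ z‖ ^ γ ≤ r ^ γ * (‖A e‖ + ε) ^ γ := by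
      rw [← Real.mul_rpow a4.le hb0]
      exact Real.rpow_le_rpow (norm_nonneg _) d1 hγ.le
    have f2 : ‖Φ (z - v) - Φ z‖ ^ γ ≤ r ^ γ * (‖A e‖ + ε) ^ γ := by
      rw [← Real.mul_rpow a4.le hb0]
      exact Real.rpow_le_rpow (norm_nonneg _) d2 hγ.le
    rw [hv] at d3
    have f3 : c * r ^ γ ≤ N * (2 * (‖A e‖ + ε) ^ γ + ε) * r ^ γ := by
      refine (a6.trans d4).trans ?_
      calc _ ≤ N * (r ^ γ * (‖A e‖ + ε) ^ γ + r ^ γ * (‖A e‖ + ε) ^ γ + ε * r ^ γ) := by gcongr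
        _ = _ := by ring
    exact le_of_mul_le_mul_right f3 hr
  have hlim : Tendsto (fun ε : ℝ => N * (2 * (‖A e‖ + ε) ^ γ + ε)) (𝓝[>] 0)
      (𝓝 (N * (2 * (‖A e‖ + 0) ^ γ + 0))) := by
    have hc : Continuous (fun ε : ℝ => N * (2 * (‖A e‖ + ε) ^ γ + ε)) := by
      have : Continuous (fun ε : ℝ => (‖A e‖ + ε) ^ γ) :=
        (continuous_const.add continuous_id).rpow_const fun _ => Or.inr hγ.le
      fun_prop
    exact (hc.tendsto 0).mono_left nhdsWithin_le_nhds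
  have := ge_of_tendsto hlim (by
    filter_upwards [self_mem_nhdsWithin] with ε hε using key ε hε)
  rw [add_zero, add_zero] at this
  linarith

lemma det_one_upper {A : ℂ →L[ℝ] ℂ} (hdet : A.det = 1) {m : ℝ} (hm : 0 < m)
    (h : ∀ e : ℂ, ‖e‖ = 1 → m ≤ ‖A e‖) (v : ℂ) : ‖A v‖ ≤ m⁻¹ * ‖v‖ ∧ ‖v‖ ≤ m⁻¹ * ‖A v‖ := by
  have hlow : ∀ v : ℂ, m * ‖v‖ ≤ ‖A v‖ := by
    intro v
    rcases eq_or_ne v 0 with rfl | hv
    · simp
    · have hn : 0 < ‖v‖ := norm_pos_iff.2 hv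
      have h1 := h ((‖v‖⁻¹ : ℝ) • v) (by
        rw [norm_smul, norm_inv, norm_norm, inv_mul_cancel₀ hn.ne'])
      rw [map_smul, norm_smul, norm_inv, norm_norm, ← div_eq_inv_mul, le_div_iff₀ hn] at h1
      exact h1
  set a := (A 1).re with ha
  set b := (A 1).im with hb
  set c := (A I).re with hc
  set d := (A I).im with hd
  have hdet' : a * d - b * c = 1 := by rw [← hdet, clm_det]
  have hQ : ∀ v : ℂ, ‖A v‖ ^ 2 = (a ^ 2 + b ^ 2) * v.re ^ 2 + 2 * (a * c + b * d) * (v.re * v.im) +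
      (c ^ 2 + d ^ 2) * v.im ^ 2 := by
    intro v
    rw [clm_apply' A v, Complex.sq_norm, Complex.normSq_apply]
    simp only [Complex.add_re, Complex.add_im, Complex.smul_re, Complex.smul_im, smul_eq_mul]
    ring
  constructor
  · set P := a ^ 2 + b ^ 2
    set Q := a * c + b * d
    set R := c ^ 2 + d ^ 2
    have hPQR : P * R - Q ^ 2 = 1 := by
      have : P * R - Q ^ 2 = (a * d - b * c) ^ 2 := by simp only [P, Q, R]; ring
      rw [this, hdet']; norm_num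
    set w : ℂ := ⟨-(Q * v.re + R * v.im), P * v.re + Q * v.im⟩
    have h1 : ‖A w‖ ^ 2 = ‖A v‖ ^ 2 := by
      rw [hQ, hQ]
      simp only [w]
      linear_combination (P * v.re ^ 2 + 2 * Q * (v.re * v.im) + R * v.im ^ 2) * hPQR
    have h2 : ‖w‖ ^ 2 = (Q * v.re + R * v.im) ^ 2 + (P * v.re + Q * v.im) ^ 2 := by
      rw [Complex.sq_norm, Complex.normSq_apply]; simp only [w]; ring
    have h3 : ‖v‖ ^ 2 = v.re ^ 2 + v.im ^ 2 := by
      rw [Complex.sq_norm, Complex.normSq_apply]; ring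
    have h4 : (‖A v‖ ^ 2) ^ 2 ≤ ‖w‖ ^ 2 * ‖v‖ ^ 2 := by
      rw [hQ v, h2, h3]
      nlinarith [sq_nonneg ((P * v.re + Q * v.im) * v.im - (Q * v.re + R * v.im) * v.re)]
    have h5 := hlow w
    have h6 : m ^ 2 * ‖w‖ ^ 2 ≤ ‖A v‖ ^ 2 := by
      rw [← h1, ← mul_pow]
      exact pow_le_pow_left₀ (by positivity) h5 2
    rw [inv_mul_eq_div, le_div_iff₀ hm]
    have h7 : (‖A v‖ * m) ^ 2 ≤ ‖v‖ ^ 2 := by
      rcases (norm_nonneg (A v)).eq_or_lt with h0 | h0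
      · rw [← h0]; simp
      · have h8 : m ^ 2 * (‖A v‖ ^ 2) ^ 2 ≤ ‖A v‖ ^ 2 * ‖v‖ ^ 2 := by
          calc m ^ 2 * (‖A v‖ ^ 2) ^ 2 ≤ m ^ 2 * (‖w‖ ^ 2 * ‖v‖ ^ 2) := by gcongr
            _ = (m ^ 2 * ‖w‖ ^ 2) * ‖v‖ ^ 2 := by ring
            _ ≤ _ := by gcongr
        have h9 : 0 < ‖A v‖ ^ 2 := by positivity
        have h10 : ‖A v‖ ^ 2 * (‖A v‖ * m) ^ 2 ≤ ‖A v‖ ^ 2 * ‖v‖ ^ 2 := by
          refine le_trans (le_of_eq ?_) h8; ring
        exact le_of_mul_le_mul_left h10 h9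
    exact (pow_le_pow_iff_left₀ (by positivity) (norm_nonneg _) two_ne_zero).1 h7
  · rw [inv_mul_eq_div, le_div_iff₀ hm, mul_comm]
    exact hlow v

variable {T : ℝ} {U : ℝ → ℂ → ℂ} {B : ℝ → ℂ → ℂ →L[ℝ] ℂ} {φ : ℝ → ℝ → ℂ → ℂ}

/-- from a pointwise bound in the open disc to a Lipschitz bound on the closed disc -/
lemma lip_closure {Φ : ℂ → ℂ} (hc : Continuous Φ) {L : ℝ} {A : ℂ → ℂ →L[ℝ] ℂ}
    (hd : ∀ x ∈ ball (0:ℂ) 1, HasFDerivAt Φ (A x) x) (hA : ∀ x ∈ ball (0:ℂ) 1, ‖A x‖ ≤ L) :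
    ∀ x ∈ DD, ∀ y ∈ DD, ‖Φ x - Φ y‖ ≤ L * ‖x - y‖ := by
  have h1 : ∀ x ∈ ball (0:ℂ) 1, ∀ y ∈ ball (0:ℂ) 1, ‖Φ x - Φ y‖ ≤ L * ‖x - y‖ := by
    intro x hx y hy
    exact Convex.norm_image_sub_le_of_norm_hasFDerivWithin_le (𝕜 := ℝ) (s := ball (0:ℂ) 1)
      (fun z hz => (hd z hz).hasFDerivWithinAt) hA (convex_ball _ _) hy hx
  have hcl : closure (ball (0:ℂ) 1 ×ˢ ball (0:ℂ) 1) = DD ×ˢ DD := by
    rw [closure_prod_eq, closure_ball (0:ℂ) one_ne_zero]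
  have hclosed : IsClosed {p : ℂ × ℂ | ‖Φ p.1 - Φ p.2‖ ≤ L * ‖p.1 - p.2‖} :=
    isClosed_le (by fun_prop) (by fun_prop)
  intro x hx y hy
  have : (x, y) ∈ closure (ball (0:ℂ) 1 ×ˢ ball (0:ℂ) 1) := by rw [hcl]; exact ⟨hx, hy⟩
  exact closure_minimal (fun p hp => h1 p.1 hp.1 p.2 hp.2) hclosed this

theorem Flw.lip_of_rough (hF : Flw T U φ) (h : Fld T U B) {t : ℝ} (ht : t ∈ Icc 0 T)
    {f0 f1 : ℂ → ℝ} (hf : ∀ z ∈ DD, f0 z = f1 (φ 0 t z)) {γ c N : ℝ} (hγ : 0 < γ) (hc : 0 < c)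
    (hN : 0 < N) (hR : Rough γ c f0) (hB : HB γ N DD f1) (h2 : ∀ x ∈ ball (0:ℂ) 1, SD γ (φ 0 t) x) :
    (∀ x ∈ DD, ∀ y ∈ DD, ‖φ 0 t x - φ 0 t y‖ ≤ (2 * N / c) ^ (1 / γ) * ‖x - y‖) ∧
    (∀ x ∈ DD, ∀ y ∈ DD, ‖x - y‖ ≤ (2 * N / c) ^ (1 / γ) * ‖φ 0 t x - φ 0 t y‖) := by
  set m : ℝ := (c / (2 * N)) ^ (1 / γ) with hm
  have hm0 : 0 < m := by positivity
  have hLm : (2 * N / c) ^ (1 / γ) = m⁻¹ := by
    rw [hm, ← Real.inv_rpow (by positivity), inv_div]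
  have hA := fun x (hx : x ∈ ball (0:ℂ) 1) => hF.exists_fderiv h hx
  choose! A hA1 hA2 using hA
  have hlow : ∀ x ∈ ball (0:ℂ) 1, ∀ e : ℂ, ‖e‖ = 1 → m ≤ ‖A x t e‖ := by
    intro x hx e he
    have h3 := expand_lower hγ (isOpen_ball.mem_nhds hx) (M := DD)
      (fun z hz => hF.mem_DD h 0 t (ball_subset_closedBall hz))
      (fun z hz => hf z (ball_subset_closedBall hz)) (hA1 x hx t ht) (h2 x hx) hR hB hN he
    have h4 : c / (2 * N) ≤ ‖A x t e‖ ^ γ := by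
      rw [div_le_iff₀ (by positivity)]; linarith
    calc m ≤ (‖A x t e‖ ^ γ) ^ (1 / γ) := Real.rpow_le_rpow (by positivity) h4 (by positivity)
      _ = ‖A x t e‖ := by
        rw [← Real.rpow_mul (norm_nonneg _), mul_one_div_cancel hγ.ne', Real.rpow_one]
  have hup : ∀ x ∈ ball (0:ℂ) 1, ∀ v, ‖A x t v‖ ≤ m⁻¹ * ‖v‖ ∧ ‖v‖ ≤ m⁻¹ * ‖A x t v‖ :=
    fun x hx v => det_one_upper (hA2 x hx t ht) hm0 (hlow x hx) v
  rw [hLm]
  constructor
  · exact lip_closure (hF.cont1 h 0 t) (fun x hx => (hA1 x hx t ht).hasFDerivAt)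
      (fun x hx => ContinuousLinearMap.opNorm_le_bound _ (by positivity) fun v => (hup x hx v).1)
  · have hinv : ∀ y ∈ ball (0:ℂ) 1, ∃ A' : ℂ →L[ℝ] ℂ, HasFDerivAt (φ t 0) A' y ∧ ‖A'‖ ≤ m⁻¹ := by
      intro y hy
      have hx := hF.mem_ball h t 0 hy
      set x := φ t 0 y with hxdef
      have hdet : (A x t).det ≠ 0 := by rw [hA2 x hx t ht]; exact one_ne_zero
      set E := (A x t).toContinuousLinearEquivOfDetNeZero hdet with hE
      have hE' : (E : ℂ →L[ℝ] ℂ) = A x t := by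
        ext v
        simp [hE]
      refine ⟨(E.symm : ℂ →L[ℝ] ℂ), ?_, ?_⟩
      · apply HasFDerivAt.of_local_left_inverse (f := φ 0 t) (hF.cont1 h t 0).continuousAt
        · rw [hE']
          exact (hA1 x hx t ht).hasFDerivAt
        · exact Filter.Eventually.of_forall fun w => hF.inv h t 0 w
      · refine ContinuousLinearMap.opNorm_le_bound _ (by positivity) fun w => ?_
        have h5 := (hup x hx (E.symm w)).2
        rw [← hE'] at h5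
        simpa using h5
    choose! A' hA'1 hA'2 using hinv
    have h6 := lip_closure (hF.cont1 h t 0) hA'1 hA'2
    intro x hx y hy
    have h7 := h6 (φ 0 t x) (hF.mem_DD h 0 t hx) (φ 0 t y) (hF.mem_DD h 0 t hy)
    rwa [hF.inv h, hF.inv h] at h7

/-- second differences of a strictly differentiable map, `γ ≤ 1` -/
lemma SD_of_strict {Φ : ℂ → ℂ} {A : ℂ →L[ℝ] ℂ} {x : ℂ} (hA : HasStrictFDerivAt Φ A x) {γ : ℝ}
    (hγ1 : γ ≤ 1) : SD γ Φ x := by
  intro ε hε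
  have h4 := hA.isLittleO.def (half_pos hε)
  rw [Metric.eventually_nhds_iff_ball] at h4
  obtain ⟨η, hη, h4⟩ := h4
  refine ⟨min (η / 2) 1, by positivity, fun z v hz hv => ?_⟩
  have i1 : ‖z - x‖ < η / 2 := hz.trans_le (min_le_left _ _)
  have i2 : ‖v‖ < η / 2 := hv.trans_le (min_le_left _ _)
  have i3 : ‖v‖ ≤ 1 := (hv.trans_le (min_le_right _ _)).le
  have m1 : ‖z + v - x‖ < η := by
    have : z + v - x = (z - x) + v := by ring
    rw [this]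
    refine (norm_add_le _ _).trans_lt (by linarith)
  have m2 : ‖z - v - x‖ < η := by
    have : z - v - x = (z - x) - v := by ring
    rw [this]
    refine (norm_sub_le _ _).trans_lt (by linarith)
  have e1 := h4 (z + v, z) (by
    rw [mem_ball, Prod.dist_eq, max_lt_iff, dist_eq_norm, dist_eq_norm]
    exact ⟨by linarith, by linarith⟩)
  have e2 := h4 (z - v, z) (by
    rw [mem_ball, Prod.dist_eq, max_lt_iff, dist_eq_norm, dist_eq_norm]
    exact ⟨by linarith, by linarith⟩)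
  simp only [add_sub_cancel_left] at e1
  simp only [sub_sub_cancel_left, norm_neg, map_neg] at e2
  have e3 : Φ (z + v) + Φ (z - v) - 2 * Φ z = (Φ (z + v) - Φ z - A v) + (Φ (z - v) - Φ z - -(A v)) := by
    ring
  rw [e3]
  refine (norm_add_le _ _).trans ?_
  have e4 : ‖v‖ ≤ ‖v‖ ^ γ := by
    rcases (norm_nonneg v).eq_or_lt with h0 | h0
    · rw [← h0]; positivity
    · calc ‖v‖ = ‖v‖ ^ (1:ℝ) := (Real.rpow_one _).symm
        _ ≤ ‖v‖ ^ γ := Real.rpow_le_rpow_of_exponent_ge h0 i3 hγ1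
  nlinarith

end Run7.h148
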