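import Pool.Agent.Run7.h148.Core
import Pool.Agent.Run7.h148.Lower

set_option autoImplicit false

open Metric Set MeasureTheory Filter Topology Complex

namespace Run7.h148

variable {ψ₀ : ℂ → ℝ} {g₀ : ℂ → ℂ} {H₀ : ℂ → ℂ →L[ℝ] ℂ}
variable {ψ₁ : ℂ → ℝ} {g₁ : ℂ → ℂ} {H₁ : ℂ → ℂ →L[ℝ] ℂ}
variable {s1 s2 κ T : ℝ} {ψ : ℝ → ℂ → ℝ} {g : ℝ → ℂ → ℂ} {H : ℝ → ℂ → ℂ →L[ℝ] ℂ}
variable {φ : ℝ → ℝ → ℂ → ℂ}

/-- the Hessian of `(1 - |z|²)²` -/
noncomputable def H2 (z : ℂ) : ℂ →L[ℝ] ℂ :=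
  ((-4 * (1 - ‖z‖ ^ 2) : ℝ) : ℂ) • ContinuousLinearMap.id ℝ ℂ + (8 : ℝ) • (dl z).smulRight z

lemma hasFDerivAt_nsq (z : ℂ) : HasFDerivAt (fun z : ℂ => ‖z‖ ^ 2) ((2:ℝ) • dl z) z := by
  have e1 : (fun z : ℂ => ‖z‖ ^ 2) = fun z : ℂ => z.re * z.re + z.im * z.im := by
    funext z
    rw [← Complex.normSq_apply, Complex.normSq_eq_norm_sq]
  rw [e1]
  have h1 : HasFDerivAt (fun z : ℂ => z.re) reCLM z := reCLM.hasFDerivAt
  have h2 : HasFDerivAt (fun z : ℂ => z.im) imCLM z := imCLM.hasFDerivAt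
  refine ((h1.mul h1).add (h2.mul h2)).congr_fderiv ?_
  ext v
  simp
  ring

lemma C2_bump : C2 (fun z => (1 - ‖z‖ ^ 2) ^ 2) (fun z => ((-4 * (1 - ‖z‖ ^ 2) : ℝ) : ℂ) * z) H2 where
  hψ z hz := by
    have h1 := ((hasFDerivAt_nsq z).const_sub 1).pow 2
    refine h1.hasFDerivWithinAt.congr_fderiv ?_
    ext v
    rw [dl_apply, Complex.re_ofReal_mul, Complex.im_ofReal_mul]
    simp
    ring
  hg z hz := by
    have h1 := (hasFDerivAt_nsq z)
    have h2 : HasFDerivAt (fun z : ℂ => -4 * (1 - ‖z‖ ^ 2)) ((8:ℝ) • dl z) z := by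
      refine ((h1.const_sub 1).const_mul (-4)).congr_fderiv ?_
      ext v
      simp
      ring
    have h3 : HasFDerivAt (fun z : ℂ => ((-4 * (1 - ‖z‖ ^ 2) : ℝ) : ℂ))
        (Complex.ofRealCLM.comp ((8:ℝ) • dl z)) z := Complex.ofRealCLM.hasFDerivAt.comp z h2
    have h4 := h3.mul (hasFDerivAt_id z)
    refine h4.hasFDerivWithinAt.congr_fderiv ?_
    ext v
    simp [H2]
    ring
  cH := by
    have : Continuous H2 := by
      unfold H2
      have c1 : Continuous (fun z : ℂ => ((-4 * (1 - ‖z‖ ^ 2) : ℝ) : ℂ)) := by fun_prop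
      have c2 : Continuous (fun z : ℂ => (dl z).smulRight z) := by
        have : (fun z : ℂ => (dl z).smulRight z) =
            fun z => ContinuousLinearMap.smulRightL ℝ ℂ ℂ (dl z) z := by
          funext z; rfl
        rw [this]
        have c3 := continuous_dl
        fun_prop
      have c4 : Continuous (fun z : ℂ => (8:ℝ) • (dl z).smulRight z) := by
        have := c2.const_smul (8:ℝ)
        exact this
      exact (c1.smul continuous_const).add c4
    exact this.continuousOn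
  bd z hz := by rw [hz]; norm_num

/-- the vorticity of the corrector -/
noncomputable def kk (s1 s2 : ℝ) (z : ℂ) : ℝ :=
  4 * (s1 + s2) * (z.re ^ 2 + z.im ^ 2) + 8 * (s1 * z.re ^ 2 + s2 * z.im ^ 2) - 4 * (s1 + s2)

lemma Lop_H2 (z : ℂ) : Lop s1 s2 (H2 z) = kk s1 s2 z := by
  have e1 : ‖z‖ ^ 2 = z.re ^ 2 + z.im ^ 2 := by
    rw [Complex.sq_norm, Complex.normSq_apply]; ring
  simp only [Lop, H2, add_apply, smul_apply, ContinuousLinearMap.id_apply,
    ContinuousLinearMap.smulRight_apply, dl_apply, smul_eq_mul, mul_one, Complex.add_re,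
    Complex.add_im, Complex.ofReal_re, Complex.mul_im, Complex.I_re, Complex.I_im, Complex.one_re,
    Complex.one_im, Complex.ofReal_im, Complex.smul_re, Complex.smul_im, kk, e1]
  ring

lemma sd_kk (h1 : 0 ≤ s1) (h2 : 0 ≤ s2) (x v : ℂ) : |sd (kk s1 s2) x v| ≤ 24 * (s1 + s2) * ‖v‖ ^ 2 := by
  have e1 : ‖v‖ ^ 2 = v.re ^ 2 + v.im ^ 2 := by
    rw [Complex.sq_norm, Complex.normSq_apply]; ring
  have e2 : sd (kk s1 s2) x v = 2 * (4 * (s1 + s2) * (v.re ^ 2 + v.im ^ 2) +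
      8 * (s1 * v.re ^ 2 + s2 * v.im ^ 2)) := by
    simp only [sd, kk, Complex.add_re, Complex.add_im, Complex.sub_re, Complex.sub_im]; ring
  rw [e1, e2, abs_of_nonneg (by positivity)]
  nlinarith [mul_nonneg h1 (sq_nonneg v.im), mul_nonneg h2 (sq_nonneg v.re)]

lemma integral_kk : ∫ z, kk s1 s2 z ∂mu = 0 := by
  have hc := C2_bump
  have key : ∀ (e : ℂ →L[ℝ] ℝ) (v : ℂ), ∫ z in ball (0:ℂ) 1, e (H2 z v) = 0 := by
    intro e v
    have cH : ContinuousOn (fun z => e.comp (H2 z)) DD := continuousOn_const.clm_comp hc.cH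
    obtain ⟨C, hC⟩ := (isCompact_closedBall (0:ℂ) 1).exists_bound_of_continuousOn cH
    have := integral_fderiv_eq_zero one_pos
      (fun z hz => e.hasFDerivAt.comp_hasFDerivWithinAt z (hc.hg z hz)) (fun z hz => by
        simp only [Function.comp]
        rw [hz]; norm_num) hC v
    simpa using this
  have k1 := key reCLM 1
  have k2 := key imCLM I
  simp only [reCLM_apply, imCLM_apply] at k1 k2
  have cH1 : ContinuousOn (fun z => (H2 z 1).re) DD :=
    Complex.continuous_re.comp_continuousOn (hc.cH.clm_apply continuousOn_const)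
  have cH2 : ContinuousOn (fun z => (H2 z I).im) DD :=
    Complex.continuous_im.comp_continuousOn (hc.cH.clm_apply continuousOn_const)
  have e1 : ∀ z, kk s1 s2 z = s1 * (H2 z 1).re + s2 * (H2 z I).im := fun z => (Lop_H2 z).symm
  simp only [e1]
  rw [integral_add ((intOn_of_contOn cH1).const_mul _) ((intOn_of_contOn cH2).const_mul _),
    integral_const_mul, integral_const_mul, k1, k2]
  simp

/-- energy coincides with that of the constant vorticity state of the same mean -/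
def Deg (s1 s2 : ℝ) (w : ℂ → ℝ) : Prop :=
  ∃ (ψ : ℂ → ℝ) (g : ℂ → ℂ) (H : ℂ → ℂ →L[ℝ] ℂ), C2 ψ g H ∧
    (∀ z ∈ ball (0:ℂ) 1, Lop s1 s2 (H z) = w z) ∧
    En s1 s2 g = (Real.pi⁻¹ * (∫ z, w z ∂mu) / (s1 + s2)) ^ 2 * En s1 s2 (fun z => z)

/-- uniqueness for the Dirichlet problem, in terms of gradients -/
lemma C2.unique (h : C2 ψ₀ g₀ H₀) (k : C2 ψ₁ g₁ H₁) (h1 : 0 < s1) (h2 : 0 < s2)
    (he : ∀ z ∈ ball (0:ℂ) 1, Lop s1 s2 (H₀ z) = Lop s1 s2 (H₁ z)) :
    ∀ z ∈ ball (0:ℂ) 1, g₀ z = g₁ z := by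
  have hs := h.sub k
  have e1 := hs.energy s1 s2
  have e2 : ∫ z in ball (0:ℂ) 1, (ψ₀ z - ψ₁ z) * Lop s1 s2 (H₀ z - H₁ z) = 0 := by
    rw [← integral_zero ℂ ℝ (μ := volume.restrict (ball 0 1))]
    refine setIntegral_congr_fun measurableSet_ball fun z hz => ?_
    rw [Lop_sub, he z hz, sub_self, mul_zero]
  rw [e2, neg_zero] at e1
  have hcont : ContinuousOn (fun z => sb s1 s2 (g₀ z - g₁ z) (g₀ z - g₁ z)) DD := cont_sb hs.cg hs.cg
  have hz := (setIntegral_eq_zero_iff_of_nonneg_ae (μ := volume) (s := ball (0:ℂ) 1)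
    (f := fun z => sb s1 s2 (g₀ z - g₁ z) (g₀ z - g₁ z))
    (Filter.Eventually.of_forall fun z => sb_nonneg h1 h2 _) (intOn_of_contOn hcont)).1 e1
  have hz2 : EqOn (fun z => sb s1 s2 (g₀ z - g₁ z) (g₀ z - g₁ z)) (fun _ => 0) (ball (0:ℂ) 1) :=
    Measure.eqOn_open_of_ae_eq hz isOpen_ball (hcont.mono ball_subset_closedBall) continuousOn_const
  intro z hz'
  have h3 := hz2 hz'
  simp only [sb] at h3
  have p1 := mul_self_nonneg (g₀ z - g₁ z).re
  have p2 := mul_self_nonneg (g₀ z - g₁ z).im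
  have q1 : (g₀ z - g₁ z).re = 0 := by
    by_contra hc
    have : 0 < (g₀ z - g₁ z).re * (g₀ z - g₁ z).re := mul_self_pos.2 hc
    nlinarith [mul_pos h1 this, mul_nonneg h2.le p2]
  have q2 : (g₀ z - g₁ z).im = 0 := by
    by_contra hc
    have : 0 < (g₀ z - g₁ z).im * (g₀ z - g₁ z).im := mul_self_pos.2 hc
    nlinarith [mul_pos h2 this, mul_nonneg h1.le p1]
  exact sub_eq_zero.1 (Complex.ext q1 q2)

lemma C2.smul (h : C2 ψ₀ g₀ H₀) (s : ℝ) :
    C2 (fun z => s * ψ₀ z) (fun z => (s : ℂ) * g₀ z) (fun z => (s : ℂ) • H₀ z) where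
  hψ z hz := by
    refine ((h.hψ z hz).const_mul s).congr_fderiv ?_
    ext v
    simp
    ring
  hg z hz := (h.hg z hz).const_mul _
  cH := h.cH.fun_const_smul _
  bd z hz := by rw [h.bd z hz, mul_zero]

lemma Lop_smul (s : ℝ) (A : ℂ →L[ℝ] ℂ) : Lop s1 s2 ((s : ℂ) • A) = s * Lop s1 s2 A := by
  simp only [Lop, smul_apply, smul_eq_mul, Complex.re_ofReal_mul, Complex.im_ofReal_mul]; ring

/-- an arbitrarily small multiple of the corrector makes any vorticity non degenerate -/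
theorem exists_nondeg (h1 : 0 < s1) (h2 : 0 < s2) (w : ℂ → ℝ) (hw : IntegrableOn w (ball 0 1))
    {r : ℝ} (hr : 0 < r) : ∃ s : ℝ, |s| ≤ r ∧ ¬ Deg s1 s2 (fun z => w z + s * kk s1 s2 z) := by
  by_cases hD : Deg s1 s2 w
  swap
  · refine ⟨0, by simpa using hr.le, ?_⟩
    simpa using hD
  obtain ⟨ψ, g, H, hC, hL, hE⟩ := hD
  set gb : ℂ → ℂ := fun z => ((-4 * (1 - ‖z‖ ^ 2) : ℝ) : ℂ) * z with hgb
  have hB := C2_bump
  set P := ∫ z, sb s1 s2 (g z) (gb z) ∂mu with hP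
  -- the sign
  obtain ⟨s, hs1, hs0, hs2⟩ : ∃ s : ℝ, |s| ≤ r ∧ s ≠ 0 ∧ 0 ≤ s * P := by
    rcases le_total 0 P with hp | hp
    · exact ⟨r, by rw [abs_of_pos hr], hr.ne', by positivity⟩
    · exact ⟨-r, by rw [abs_neg, abs_of_pos hr], neg_ne_zero.2 hr.ne', by nlinarith⟩
  refine ⟨s, hs1, ?_⟩
  rintro ⟨ψ', g', H', hC', hL', hE'⟩
  have hk : IntegrableOn (kk s1 s2) (ball 0 1) := by
    apply intOn_of_contOn
    unfold kk
    fun_prop
  have hm : ∫ z, (w z + s * kk s1 s2 z) ∂mu = ∫ z, w z ∂mu := by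
    rw [integral_add hw (hk.const_mul s), integral_const_mul, integral_kk, mul_zero, add_zero]
  rw [hm, ← hE] at hE'
  -- compare gradients
  have hcomb := hC.add (hB.smul s)
  have hg := hC'.unique hcomb h1 h2 (fun z hz => by
    rw [hL' z hz, Lop_add, Lop_smul, hL z hz, Lop_H2])
  have hg' : ∀ z ∈ ball (0:ℂ) 1, g' z = g z + (s : ℂ) * gb z := hg
  have e1 : En s1 s2 g' = En s1 s2 g + 2 * (s * P) + s ^ 2 * En s1 s2 gb := by
    have i1 : Integrable (fun z => sb s1 s2 (g z) (g z)) mu := intOn_of_contOn (cont_sb hC.cg hC.cg)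
    have i2 : Integrable (fun z => sb s1 s2 (g z) (gb z)) mu := intOn_of_contOn (cont_sb hC.cg hB.cg)
    have i3 : Integrable (fun z => sb s1 s2 (gb z) (gb z)) mu := intOn_of_contOn (cont_sb hB.cg hB.cg)
    have j1 : Integrable (fun z => sb s1 s2 (g z) (g z) + 2 * s * sb s1 s2 (g z) (gb z)) mu :=
      i1.add (i2.const_mul _)
    have e2 : En s1 s2 g' = ∫ z, (sb s1 s2 (g z) (g z) + 2 * s * sb s1 s2 (g z) (gb z) +
        s ^ 2 * sb s1 s2 (gb z) (gb z)) ∂mu := by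
      refine setIntegral_congr_fun measurableSet_ball fun z hz => ?_
      rw [hg' z hz]
      simp only [sb, Complex.add_re, Complex.add_im, Complex.re_ofReal_mul, Complex.im_ofReal_mul]
      ring
    rw [e2, integral_add j1 (i3.const_mul _), integral_add i1 (i2.const_mul _), integral_const_mul,
      integral_const_mul, hP, En, En]
    ring
  have e3 : 0 < En s1 s2 gb := by
    have h0 : 0 ≤ En s1 s2 gb := integral_nonneg fun z => sb_nonneg h1 h2 _
    rcases h0.eq_or_lt with h0 | h0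
    · exfalso
      have hcont : ContinuousOn (fun z => sb s1 s2 (gb z) (gb z)) DD := cont_sb hB.cg hB.cg
      have hz := (setIntegral_eq_zero_iff_of_nonneg_ae (μ := volume) (s := ball (0:ℂ) 1)
        (f := fun z => sb s1 s2 (gb z) (gb z))
        (Filter.Eventually.of_forall fun z => sb_nonneg h1 h2 _) (intOn_of_contOn hcont)).1 h0.symm
      have hz2 : EqOn (fun z => sb s1 s2 (gb z) (gb z)) (fun _ => 0) (ball (0:ℂ) 1) :=
        Measure.eqOn_open_of_ae_eq hz isOpen_ball (hcont.mono ball_subset_closedBall)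
          continuousOn_const
      have h3 := hz2 (x := ((1/2 : ℝ) : ℂ)) (by
        rw [mem_ball_zero_iff, Complex.norm_real]; norm_num)
      simp only [sb, hgb, Complex.norm_real, Complex.re_ofReal_mul, Complex.im_ofReal_mul,
        Complex.ofReal_re, Complex.ofReal_im] at h3
      norm_num at h3
      exact h1.ne' h3
    · exact h0
  have e4 : 0 < s ^ 2 * En s1 s2 gb := by positivity
  rw [e1] at hE'
  linarith

end Run7.h148
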