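import Pool.Agent.Run7.h148.Deg

set_option autoImplicit false

open Metric Set MeasureTheory Filter Topology Complex

namespace Run7.h148

variable {s1 s2 κ : ℝ} {ψ : ℝ → ℂ → ℝ} {g : ℝ → ℂ → ℂ} {H : ℝ → ℂ → ℂ →L[ℝ] ℂ}

/-- non-degenerate rough data: all Hölder type bounds of the vorticity are eventually lost -/
theorem disc_growth (h1 : 0 < s1) (h2 : 0 < s2) (hκ : 0 < κ)
    (hsol : ∀ T, 0 ≤ T → DSol s1 s2 κ T ψ g H) {w0 : ℂ → ℝ} {γ c : ℝ} (hγ : 0 < γ) (hc : 0 < c)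
    (hw : ∀ z ∈ DD, vo s1 s2 (H 0) z = w0 z) (hR : Rough γ c w0) (hnd : ¬ Deg s1 s2 w0)
    (hSD : ∀ T φ, Flw T (fun t z => (κ : ℂ) * I * g t z) φ → ∀ t ∈ Icc 0 T, ∀ x ∈ ball (0:ℂ) 1,
      SD γ (φ 0 t) x) {N : ℝ} (hN : 0 < N) :
    ∃ T₀ : ℝ, ∀ t, T₀ < t → ¬ HB γ N DD (vo s1 s2 (H t)) := by
  obtain ⟨C₁, hC0, hcore⟩ := core
  have h0sol := hsol 0 le_rfl
  have h00 : (0:ℝ) ∈ Icc (0:ℝ) 0 := ⟨le_rfl, le_rfl⟩
  set m := mean s1 s2 (H 0) with hm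
  set A1 := En s1 s2 (fun z => z) with hA1
  set D : ℝ := (√(En s1 s2 (g 0)) - |m / (s1 + s2)| * √A1) ^ 2 with hD
  have hs : 0 < s1 + s2 := by positivity
  have hA10 : 0 ≤ A1 := integral_nonneg fun z => sb_nonneg h1 h2 _
  have hE0 : 0 ≤ En s1 s2 (g 0) := integral_nonneg fun z => sb_nonneg h1 h2 _
  have hmean : m = Real.pi⁻¹ * ∫ z, w0 z ∂mu := by
    rw [hm, mean]
    congr 1
    exact setIntegral_congr_fun measurableSet_ball fun z hz => hw z (ball_subset_closedBall hz)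
  have hDpos : 0 < D := by
    rcases (sq_nonneg (√(En s1 s2 (g 0)) - |m / (s1 + s2)| * √A1)).eq_or_lt with h0 | h0
    · exfalso
      apply hnd
      refine ⟨ψ 0, g 0, H 0, h0sol.c2 0 h00, fun z hz => hw z (ball_subset_closedBall hz), ?_⟩
      have e1 : √(En s1 s2 (g 0)) = |m / (s1 + s2)| * √A1 := by
        have := pow_eq_zero_iff (two_ne_zero) |>.1 h0.symm
        linarith
      have e2 : En s1 s2 (g 0) = (|m / (s1 + s2)| * √A1) ^ 2 := by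
        rw [← e1, Real.sq_sqrt hE0]
      rw [e2, mul_pow, sq_abs, Real.sq_sqrt hA10, hmean]
    · exact h0
  obtain ⟨W, hW⟩ := (isCompact_closedBall (0:ℂ) 1).exists_bound_of_continuousOn (h0sol.cvo h00)
  set M : ℝ := W + |m| with hM
  have hMb : ∀ x ∈ ball (0:ℂ) 1, |vo s1 s2 (H 0) x - m| ≤ M := by
    intro x hx
    have := hW x (ball_subset_closedBall hx)
    rw [Real.norm_eq_abs] at this
    exact (abs_sub _ _).trans (by linarith)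
  have hM0 : 0 ≤ M := (abs_nonneg _).trans (hMb 0 (by simp))
  set L : ℝ := (2 * N / c) ^ (1 / γ) with hL
  have hL0 : 0 < L := by positivity
  have hpi := Real.pi_pos
  refine ⟨M * ((L ^ 2 + 1) * C₁) / (2 * Real.pi * κ * D), fun t ht hHB => ?_⟩
  have ht0 : 0 < t := lt_of_le_of_lt (by positivity) ht
  have hst := hsol t ht0.le
  have htt : t ∈ Icc 0 t := ⟨ht0.le, le_rfl⟩
  obtain ⟨φ, hF⟩ := hst.fld.exists_flow
  obtain ⟨l1, l2⟩ := hF.lip_of_rough hst.fld htt (f0 := w0) (f1 := vo s1 s2 (H t))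
    (fun z hz => by
      rw [← hw z hz]
      exact (hst.tr φ hF t htt z hz).symm) hγ hc hN hR hHB (hSD t φ hF t htt)
  have key := hcore hst h1 h2 hκ hF htt hL0 l1 l2 hMb
  rw [div_lt_iff₀ (by positivity)] at ht
  have : 2 * Real.pi * κ * D * t ≤ M * ((L ^ 2 + 1) * C₁) := key
  linarith

/-- the case `γ ≤ 1` -/
theorem disc_growth_alpha (h1 : 0 < s1) (h2 : 0 < s2) (hκ : 0 < κ)
    (hsol : ∀ T, 0 ≤ T → DSol s1 s2 κ T ψ g H) {w0 : ℂ → ℝ} {γ c : ℝ} (hγ : 0 < γ) (hγ1 : γ ≤ 1)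
    (hc : 0 < c)
    (hw : ∀ z ∈ DD, vo s1 s2 (H 0) z = w0 z) (hR : Rough γ c w0) (hnd : ¬ Deg s1 s2 w0)
    {N : ℝ} (hN : 0 < N) :
    ∃ T₀ : ℝ, ∀ t, T₀ < t → ¬ HB γ N DD (vo s1 s2 (H t)) := by
  refine disc_growth h1 h2 hκ hsol hγ hc hw hR hnd ?_ hN
  intro T φ hF t ht x hx
  obtain ⟨A, hA, -⟩ := hF.exists_fderiv (hsol T (ht.1.trans ht.2)).fld hx
  exact SD_of_strict (hA t ht) hγ1

end Run7.h148
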