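import Pool.Agent.Run7.h148.Proj

set_option autoImplicit false

open Metric Set MeasureTheory Filter Topology Complex

namespace Run7.h148

/-- radial projection on the closed disc of radius `ρ` -/
noncomputable def pjr (ρ : ℝ) (z : ℂ) : ℂ := ρ • pj (ρ⁻¹ • z)

lemma pjr_mem {ρ : ℝ} (hρ : 0 < ρ) (z : ℂ) : pjr ρ z ∈ closedBall (0:ℂ) ρ := by
  rw [mem_closedBall_zero_iff, pjr, norm_smul, Real.norm_eq_abs, abs_of_pos hρ]
  have := norm_pj_le (ρ⁻¹ • z)
  nlinarith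

lemma pjr_of_mem {ρ : ℝ} (hρ : 0 < ρ) {z : ℂ} (hz : z ∈ closedBall (0:ℂ) ρ) : pjr ρ z = z := by
  rw [mem_closedBall_zero_iff] at hz
  rw [pjr, pj_of_le, smul_smul, mul_inv_cancel₀ hρ.ne', one_smul]
  rw [norm_smul, norm_inv, Real.norm_eq_abs, abs_of_pos hρ, inv_mul_le_iff₀ hρ, mul_one]
  exact hz

lemma norm_pjr_of_ge {ρ : ℝ} (hρ : 0 < ρ) {z : ℂ} (hz : ρ ≤ ‖z‖) : ‖pjr ρ z‖ = ρ := by
  rw [pjr, norm_smul, norm_pj_of_ge, mul_one, Real.norm_eq_abs, abs_of_pos hρ]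
  rw [norm_smul, norm_inv, Real.norm_eq_abs, abs_of_pos hρ, le_inv_mul_iff₀ hρ, mul_one]
  exact hz

lemma pjr_sub_le {ρ : ℝ} (hρ : 0 < ρ) (z w : ℂ) : ‖pjr ρ z - pjr ρ w‖ ≤ ‖z - w‖ := by
  rw [pjr, pjr, ← smul_sub, norm_smul, Real.norm_eq_abs, abs_of_pos hρ]
  have h1 := pj_sub_le (ρ⁻¹ • z) (ρ⁻¹ • w)
  rw [← smul_sub, norm_smul, norm_inv, Real.norm_eq_abs, abs_of_pos hρ] at h1
  calc ρ * ‖pj (ρ⁻¹ • z) - pj (ρ⁻¹ • w)‖ ≤ ρ * (ρ⁻¹ * ‖z - w‖) := by gcongr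
    _ = ‖z - w‖ := by field_simp

/-- a function that is `C¹` on a closed disc and vanishes on the circle: extension by zero is Lipschitz -/
lemma lip_zero_ext {ρ : ℝ} (hρ : 0 < ρ) {F : ℂ → ℝ} {F' : ℂ → ℂ →L[ℝ] ℝ}
    (hd : ∀ z ∈ closedBall (0:ℂ) ρ, HasFDerivWithinAt F (F' z) (closedBall 0 ρ) z)
    (h0 : ∀ z : ℂ, ‖z‖ = ρ → F z = 0) {C : ℝ} (hC : ∀ z ∈ closedBall (0:ℂ) ρ, ‖F' z‖ ≤ C) :
    LipschitzWith (Real.toNNReal C) (fun z => if ‖z‖ < ρ then F z else 0) := by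
  have hC0 : 0 ≤ C := (norm_nonneg _).trans (hC 0 (by simp [hρ.le]))
  have h1 : (fun z => if ‖z‖ < ρ then F z else 0) = fun z => F (pjr ρ z) := by
    funext z
    split_ifs with h
    · rw [pjr_of_mem hρ (by rw [mem_closedBall_zero_iff]; exact h.le)]
    · rw [h0 _ (norm_pjr_of_ge hρ (not_lt.1 h))]
  rw [h1]
  apply LipschitzWith.of_dist_le_mul
  intro z w
  rw [dist_eq_norm, dist_eq_norm, Real.coe_toNNReal _ hC0]
  have h2 := Convex.norm_image_sub_le_of_norm_hasFDerivWithin_le (𝕜 := ℝ) (C := C)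
    (f := F) (f' := F') (s := closedBall 0 ρ) (x := pjr ρ w) (y := pjr ρ z)
    (fun x hx => hd x hx) (fun x hx => hC x hx) (convex_closedBall _ _)
    (pjr_mem hρ _) (pjr_mem hρ _)
  exact h2.trans (mul_le_mul_of_nonneg_left (pjr_sub_le hρ _ _) hC0)

/-- Divergence theorem for a function vanishing on the boundary circle. -/
theorem integral_fderiv_eq_zero {ρ : ℝ} (hρ : 0 < ρ) {F : ℂ → ℝ} {F' : ℂ → ℂ →L[ℝ] ℝ}
    (hd : ∀ z ∈ closedBall (0:ℂ) ρ, HasFDerivWithinAt F (F' z) (closedBall 0 ρ) z)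
    (h0 : ∀ z : ℂ, ‖z‖ = ρ → F z = 0) {C : ℝ} (hC : ∀ z ∈ closedBall (0:ℂ) ρ, ‖F' z‖ ≤ C) (v : ℂ) :
    ∫ z in ball (0:ℂ) ρ, F' z v = 0 := by
  have hl := lip_zero_ext hρ hd h0 hC
  set G : ℂ → ℝ := fun z => if ‖z‖ < ρ then F z else 0 with hG
  have hcs : HasCompactSupport G := by
    apply HasCompactSupport.of_support_subset_isCompact (isCompact_closedBall (0:ℂ) ρ)
    intro z hz
    rw [Function.mem_support, hG] at hz
    rw [mem_closedBall_zero_iff]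
    by_contra hcon
    apply hz
    simp only
    rw [if_neg]
    intro h; exact hcon h.le
  have h1 := LipschitzWith.integral_lineDeriv_mul_eq (μ := (volume : Measure ℂ))
    (LipschitzWith.const (1:ℝ) : LipschitzWith 0 (fun _ : ℂ => (1:ℝ))) hl hcs (-v)
  have h2 : ∀ x : ℂ, lineDeriv ℝ (fun _ : ℂ => (1:ℝ)) x (-v) = 0 := by
    intro x; simp [lineDeriv]
  simp only [h2, zero_mul, integral_zero, mul_one, neg_neg] at h1
  rw [h1, ← integral_indicator measurableSet_ball]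
  apply integral_congr_ae
  have hs : ∀ᵐ z : ℂ, z ∉ sphere (0:ℂ) ρ := by
    rw [← measure_eq_zero_iff_ae_notMem]
    exact Measure.addHaar_sphere_of_ne_zero _ _ hρ.ne'
  filter_upwards [hs] with z hz
  rcases lt_trichotomy ‖z‖ ρ with h | h | h
  · have hzb : z ∈ ball (0:ℂ) ρ := by simpa using h
    rw [indicator_of_mem hzb]
    have h3 : HasFDerivAt F (F' z) z :=
      (hd z (ball_subset_closedBall hzb)).hasFDerivAt (Filter.mem_of_superset
        (isOpen_ball.mem_nhds hzb) ball_subset_closedBall)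
    have h4 : HasFDerivAt G (F' z) z := by
      apply h3.congr_of_eventuallyEq
      filter_upwards [isOpen_ball.mem_nhds hzb] with w hw
      rw [hG]; simp only
      rw [if_pos (by simpa using hw)]
    exact (h4.hasLineDerivAt v).lineDeriv.symm
  · exact absurd (by simpa using h) hz
  · have hzb : z ∉ ball (0:ℂ) ρ := by simp [h.le]
    rw [indicator_of_notMem hzb]
    have h4 : HasFDerivAt G (0 : ℂ →L[ℝ] ℝ) z := by
      apply (hasFDerivAt_const (0:ℝ) z).congr_of_eventuallyEq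
      have : {w : ℂ | ρ < ‖w‖} ∈ 𝓝 z := (isOpen_lt continuous_const continuous_norm).mem_nhds h
      filter_upwards [this] with w hw
      rw [hG]; simp only
      rw [if_neg (not_lt.2 (le_of_lt hw))]
    exact (h4.hasLineDerivAt v).lineDeriv.symm

end Run7.h148
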