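import Pool.Agent.Run7.h148.Defs
import Pool.Agent.Run7.h148.DiscMain

set_option autoImplicit false

open Metric Set MeasureTheory Filter Topology Complex

namespace Run7.h148

variable {a b : ℝ}

/-- scaling of the axes -/
noncomputable def Sc (a b : ℝ) : ℂ →L[ℝ] ℂ :=
  reCLM.smulRight (a : ℂ) + imCLM.smulRight ((b : ℂ) * I)

@[simp] lemma Sc_re (a b : ℝ) (w : ℂ) : (Sc a b w).re = a * w.re := by
  simp [Sc, mul_comm]

@[simp] lemma Sc_im (a b : ℝ) (w : ℂ) : (Sc a b w).im = b * w.im := by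
  simp [Sc, mul_comm]

lemma Sc_inv (ha : a ≠ 0) (hb : b ≠ 0) (w : ℂ) : Sc a b (Sc a⁻¹ b⁻¹ w) = w := by
  apply Complex.ext
  · simp [ha]
  · simp [hb]

lemma Sc_inv' (ha : a ≠ 0) (hb : b ≠ 0) (w : ℂ) : Sc a⁻¹ b⁻¹ (Sc a b w) = w := by
  apply Complex.ext
  · simp [ha]
  · simp [hb]

/-- the scaling as a homeomorphism -/
noncomputable def ScH (ha : a ≠ 0) (hb : b ≠ 0) : ℂ ≃ₜ ℂ where
  toFun := Sc a b
  invFun := Sc a⁻¹ b⁻¹
  left_inv := Sc_inv' ha hb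
  right_inv := Sc_inv ha hb
  continuous_toFun := (Sc a b).continuous
  continuous_invFun := (Sc a⁻¹ b⁻¹).continuous

lemma ell_preimage (ha : a ≠ 0) (hb : b ≠ 0) : ScH ha hb ⁻¹' ell a b = DD := by
  ext w
  have e1 : ScH ha hb w = Sc a b w := rfl
  rw [mem_preimage, e1, ell, mem_ofPred_eq, Sc_re, Sc_im, mul_div_cancel_left₀ _ ha,
    mul_div_cancel_left₀ _ hb, mem_closedBall_zero_iff, ← sq_le_one_iff₀ (norm_nonneg _),
    Complex.sq_norm, Complex.normSq_apply]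
  rw [sq, sq]

lemma Sc_mem (ha : a ≠ 0) (hb : b ≠ 0) {w : ℂ} (hw : w ∈ DD) : Sc a b w ∈ ell a b := by
  rw [← ell_preimage ha hb] at hw; exact hw

lemma Sc_int (ha : a ≠ 0) (hb : b ≠ 0) {w : ℂ} (hw : w ∈ ball (0:ℂ) 1) :
    Sc a b w ∈ interior (ell a b) := by
  have h1 := (ScH ha hb).preimage_interior (ell a b)
  rw [ell_preimage ha hb, interior_closedBall (0:ℂ) one_ne_zero] at h1
  rw [← h1] at hw
  exact hw

lemma Sc_front (ha : a ≠ 0) (hb : b ≠ 0) {w : ℂ} (hw : ‖w‖ = 1) :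
    Sc a b w ∈ frontier (ell a b) := by
  have h1 := (ScH ha hb).preimage_frontier (ell a b)
  rw [ell_preimage ha hb, frontier_closedBall (0:ℂ) one_ne_zero] at h1
  have h2 : w ∈ sphere (0:ℂ) 1 := by simpa using hw
  rw [← h1] at h2
  exact h2

lemma Sc_surj (ha : a ≠ 0) (hb : b ≠ 0) {z : ℂ} (hz : z ∈ ell a b) :
    ∃ w ∈ DD, Sc a b w = z := by
  refine ⟨Sc a⁻¹ b⁻¹ z, ?_, Sc_inv ha hb z⟩
  rw [← ell_preimage ha hb]
  show Sc a b (Sc a⁻¹ b⁻¹ z) ∈ ell a b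
  rw [Sc_inv ha hb]
  exact hz

lemma norm_Sc_le (ha : 0 < a) (hb : 0 < b) (w : ℂ) : ‖Sc a b w‖ ≤ max a b * ‖w‖ := by
  have h1 : ‖Sc a b w‖ ^ 2 ≤ (max a b * ‖w‖) ^ 2 := by
    rw [mul_pow, Complex.sq_norm, Complex.sq_norm, Complex.normSq_apply, Complex.normSq_apply,
      Sc_re, Sc_im]
    have p1 : a ^ 2 ≤ max a b ^ 2 := pow_le_pow_left₀ ha.le (le_max_left _ _) 2
    have p2 : b ^ 2 ≤ max a b ^ 2 := pow_le_pow_left₀ hb.le (le_max_right _ _) 2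
    nlinarith [mul_self_nonneg w.re, mul_self_nonneg w.im]
  exact (pow_le_pow_iff_left₀ (norm_nonneg _) (by positivity) two_ne_zero).1 h1

/-- the (scaled) gradient attached to a linear functional -/
noncomputable def TC (a b : ℝ) : (ℂ →L[ℝ] ℝ) →L[ℝ] ℂ :=
  (ContinuousLinearMap.apply ℝ ℝ (1:ℂ)).smulRight (a : ℂ) +
    (ContinuousLinearMap.apply ℝ ℝ I).smulRight ((b : ℂ) * I)

@[simp] lemma TC_re (a b : ℝ) (l : ℂ →L[ℝ] ℝ) : (TC a b l).re = a * l 1 := by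
  simp [TC, mul_comm]

@[simp] lemma TC_im (a b : ℝ) (l : ℂ →L[ℝ] ℝ) : (TC a b l).im = b * l I := by
  simp [TC, mul_comm]

lemma clm_real (l : ℂ →L[ℝ] ℝ) (w : ℂ) : l w = w.re * l 1 + w.im * l I := by
  have h1 : w = w.re • (1:ℂ) + w.im • I := by
    simp [Complex.re_add_im]
  conv_lhs => rw [h1]
  rw [map_add, map_smul, map_smul, smul_eq_mul, smul_eq_mul]

lemma dl_TC (a b : ℝ) (l : ℂ →L[ℝ] ℝ) : dl (TC a b l) = l.comp (Sc a b) := by
  ext v
  rw [dl_apply, TC_re, TC_im, ContinuousLinearMap.comp_apply, clm_real l (Sc a b v), Sc_re, Sc_im]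
  ring

lemma uniqueDiffOn_ell (ha : a ≠ 0) (hb : b ≠ 0) : UniqueDiffOn ℝ (ell a b) := by
  apply uniqueDiffOn_convex
  · have : ell a b = Sc a⁻¹ b⁻¹ ⁻¹' DD := by
      ext z
      rw [← ell_preimage ha hb]
      show z ∈ ell a b ↔ Sc a b (Sc a⁻¹ b⁻¹ z) ∈ ell a b
      rw [Sc_inv ha hb]
    rw [this]
    exact (convex_closedBall (0:ℂ) 1).linear_preimage (Sc a⁻¹ b⁻¹).toLinearMap
  · exact ⟨_, Sc_int ha hb (w := 0) (by simp)⟩

/-- transplanted stream function -/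
noncomputable def pst (a b : ℝ) (ψ : ℝ → ℂ → ℝ) (t : ℝ) (w : ℂ) : ℝ := ψ t (Sc a b w)

/-- transplanted gradient -/
noncomputable def gst (a b : ℝ) (ψ : ℝ → ℂ → ℝ) (t : ℝ) (w : ℂ) : ℂ :=
  TC a b (fderivWithin ℝ (ψ t) (ell a b) (Sc a b w))

/-- transplanted Hessian -/
noncomputable def Hst (a b : ℝ) (ψ : ℝ → ℂ → ℝ) (t : ℝ) (w : ℂ) : ℂ →L[ℝ] ℂ :=
  (TC a b).comp ((fderivWithin ℝ (fderivWithin ℝ (ψ t) (ell a b)) (ell a b) (Sc a b w)).comp (Sc a b))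

variable {k : ℕ} {ω ψ : ℝ → ℂ → ℝ}

section
variable {M : Set ℂ}

lemma EulerSol.contD1 (h : EulerSol k M ω ψ) (hk : 1 ≤ k) (hM : UniqueDiffOn ℝ M) :
    ContinuousOn (fun p : ℝ × ℂ => fderivWithin ℝ (ψ p.1) M p.2) (Ici 0 ×ˢ M) := by
  rw [continuousOn_clm_apply]
  intro v
  have h1 := h.cont 1 hk
  have h2 : ContinuousOn (fun p : ℝ × ℂ => iteratedFDerivWithin ℝ 1 (ψ p.1) M p.2 (fun _ => v))
      (Ici 0 ×ˢ M) :=
    (ContinuousMultilinearMap.apply ℝ (fun _ : Fin 1 => ℂ) ℝ (fun _ => v)).continuous.comp_continuousOn h1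
  exact h2.congr fun p hp =>
    (iteratedFDerivWithin_one_apply (f := ψ p.1) (hM p.2 hp.2) (fun _ => v)).symm

lemma EulerSol.contD2 (h : EulerSol k M ω ψ) (hk : 2 ≤ k) (hM : UniqueDiffOn ℝ M) :
    ContinuousOn (fun p : ℝ × ℂ => fderivWithin ℝ (fderivWithin ℝ (ψ p.1) M) M p.2) (Ici 0 ×ˢ M) := by
  rw [continuousOn_clm_apply]
  intro v
  rw [continuousOn_clm_apply]
  intro w
  have h1 := h.cont 2 hk
  have h2 : ContinuousOn (fun p : ℝ × ℂ => iteratedFDerivWithin ℝ 2 (ψ p.1) M p.2 ![v, w])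
      (Ici 0 ×ˢ M) :=
    (ContinuousMultilinearMap.apply ℝ (fun _ : Fin 2 => ℂ) ℝ ![v, w]).continuous.comp_continuousOn h1
  exact h2.congr fun p hp => (iteratedFDerivWithin_two_apply (ψ p.1) hM hp.2 ![v, w]).symm

lemma EulerSol.hasD1 (h : EulerSol k M ω ψ) (hk : 2 ≤ k) {t : ℝ} (ht : 0 ≤ t) {z : ℂ} (hz : z ∈ M) :
    HasFDerivWithinAt (ψ t) (fderivWithin ℝ (ψ t) M z) M z :=
  (((h.smooth t ht).differentiableOn (by
    have : (k : WithTop ℕ∞) ≠ 0 := by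
      have : k ≠ 0 := by omega
      exact_mod_cast this
    exact this)) z hz).hasFDerivWithinAt

lemma EulerSol.hasD2 (h : EulerSol k M ω ψ) (hk : 2 ≤ k) (hM : UniqueDiffOn ℝ M) {t : ℝ} (ht : 0 ≤ t)
    {z : ℂ} (hz : z ∈ M) :
    HasFDerivWithinAt (fderivWithin ℝ (ψ t) M) (fderivWithin ℝ (fderivWithin ℝ (ψ t) M) M z) M z := by
  have h1 : ContDiffOn ℝ 2 (ψ t) M := (h.smooth t ht).of_le (by exact_mod_cast hk)
  have h2 : ContDiffOn ℝ 1 (fderivWithin ℝ (ψ t) M) M := h1.fderivWithin hM (by norm_num)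
  exact ((h2.differentiableOn (by norm_num)) z hz).hasFDerivWithinAt

end

lemma EulerSol.c2 (h : EulerSol k (ell a b) ω ψ) (hk : 2 ≤ k) (ha : a ≠ 0) (hb : b ≠ 0) {t : ℝ}
    (ht : 0 ≤ t) : C2 (pst a b ψ t) (gst a b ψ t) (Hst a b ψ t) where
  hψ w hw := by
    have h1 := h.hasD1 hk ht (Sc_mem ha hb hw)
    have h2 := h1.comp w ((Sc a b).hasFDerivAt.hasFDerivWithinAt (s := DD))
      (fun w hw => Sc_mem ha hb hw)
    rw [gst, dl_TC]
    exact h2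
  hg w hw := by
    have h1 := h.hasD2 hk (uniqueDiffOn_ell ha hb) ht (Sc_mem ha hb hw)
    have h2 := h1.comp w ((Sc a b).hasFDerivAt.hasFDerivWithinAt (s := DD))
      (fun w hw => Sc_mem ha hb hw)
    exact (TC a b).hasFDerivAt.comp_hasFDerivWithinAt w h2
  cH := by
    have h1 := h.contD2 hk (uniqueDiffOn_ell ha hb)
    have h2 : ContinuousOn (fun w => fderivWithin ℝ (fderivWithin ℝ (ψ t) (ell a b)) (ell a b) (Sc a b w)) DD :=
      h1.comp (f := fun w => (t, Sc a b w)) (by fun_prop) (fun w hw => ⟨ht, Sc_mem ha hb hw⟩)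
    exact continuousOn_const.clm_comp (h2.clm_comp continuousOn_const)
  bd w hw := h.bdry t ht _ (Sc_front ha hb hw)

lemma EulerSol.Lop_eq (h : EulerSol k (ell a b) ω ψ) (hk : 2 ≤ k) (ha : a ≠ 0) (hb : b ≠ 0) {t : ℝ}
    (ht : 0 ≤ t) {w : ℂ} (hw : w ∈ DD) :
    Lop ((a ^ 2)⁻¹) ((b ^ 2)⁻¹) (Hst a b ψ t w) = ω t (Sc a b w) := by
  have hM := uniqueDiffOn_ell ha hb
  have h1 : ∀ w ∈ ball (0:ℂ) 1,
      Lop ((a ^ 2)⁻¹) ((b ^ 2)⁻¹) (Hst a b ψ t w) = ω t (Sc a b w) := by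
    intro w hw
    have hi := Sc_int ha hb hw
    have hn : ell a b ∈ 𝓝 (Sc a b w) := mem_interior_iff_mem_nhds.1 hi
    rw [← h.lap t ht _ hi, InnerProductSpace.laplacian_eq_iteratedFDeriv_complexPlane]
    simp only
    rw [iteratedFDeriv_two_apply, iteratedFDeriv_two_apply]
    have e1 : fderivWithin ℝ (fderivWithin ℝ (ψ t) (ell a b)) (ell a b) (Sc a b w) =
        fderiv ℝ (fderiv ℝ (ψ t)) (Sc a b w) := by
      rw [fderivWithin_of_mem_nhds hn]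
      apply Filter.EventuallyEq.fderiv_eq
      filter_upwards [isOpen_interior.mem_nhds hi] with z hz
      exact fderivWithin_of_mem_nhds (mem_interior_iff_mem_nhds.1 hz)
    have e2 : Sc a b 1 = (a : ℝ) • (1:ℂ) := by
      apply Complex.ext <;> simp
    have e3 : Sc a b I = (b : ℝ) • I := by
      apply Complex.ext <;> simp
    simp only [Lop, Hst, ContinuousLinearMap.comp_apply, TC_re, TC_im, e1, e2, e3, map_smul,
      Complex.smul_re, Complex.smul_im, smul_eq_mul, Matrix.cons_val_zero, Matrix.cons_val_one]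
    field_simp
  have hc : ContinuousOn (fun w => Lop ((a ^ 2)⁻¹) ((b ^ 2)⁻¹) (Hst a b ψ t w)) DD :=
    cont_Lop (h.c2 hk ha hb ht).cH
  have hc2 : ContinuousOn (fun w => ω t (Sc a b w)) DD :=
    (h.contω t ht).comp (Sc a b).continuous.continuousOn (fun w hw => Sc_mem ha hb hw)
  have hcl : DD ⊆ closure (ball (0:ℂ) 1) := by rw [closure_ball (0:ℂ) one_ne_zero]
  exact (EqOn.of_subset_closure (fun w hw => h1 w hw) hc hc2 ball_subset_closedBall hcl) hw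

lemma EulerSol.sym_st (h : EulerSol k (ell a b) ω ψ) (hk : 2 ≤ k) (ha : a ≠ 0) (hb : b ≠ 0) {t : ℝ}
    (ht : 0 ≤ t) {w : ℂ} (hw : w ∈ ball (0:ℂ) 1) :
    (Hst a b ψ t w 1).im = (Hst a b ψ t w I).re := by
  have hi := Sc_int ha hb hw
  have hn : ell a b ∈ 𝓝 (Sc a b w) := mem_interior_iff_mem_nhds.1 hi
  have e1 : fderivWithin ℝ (fderivWithin ℝ (ψ t) (ell a b)) (ell a b) (Sc a b w) =
      fderiv ℝ (fderiv ℝ (ψ t)) (Sc a b w) := by
    rw [fderivWithin_of_mem_nhds hn]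
    apply Filter.EventuallyEq.fderiv_eq
    filter_upwards [isOpen_interior.mem_nhds hi] with z hz
    exact fderivWithin_of_mem_nhds (mem_interior_iff_mem_nhds.1 hz)
  have e2 : Sc a b 1 = (a : ℝ) • (1:ℂ) := by
    apply Complex.ext <;> simp
  have e3 : Sc a b I = (b : ℝ) • I := by
    apply Complex.ext <;> simp
  have h2 : ContDiffAt ℝ 2 (ψ t) (Sc a b w) :=
    ((h.smooth t ht).of_le (by exact_mod_cast hk)).contDiffAt hn
  have h3 := (h2.isSymmSndFDerivAt (by simp)).eq 1 I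
  simp only [Hst, ContinuousLinearMap.comp_apply, TC_re, TC_im, e1, e2, e3, map_smul,
    Complex.smul_re, Complex.smul_im, smul_eq_mul, h3]
  ring

lemma EulerSol.cg_st (h : EulerSol k (ell a b) ω ψ) (hk : 2 ≤ k) (ha : a ≠ 0) (hb : b ≠ 0) (T : ℝ) :
    ContinuousOn (fun p : ℝ × ℂ => gst a b ψ p.1 p.2) (Icc 0 T ×ˢ DD) := by
  have h1 := h.contD1 (by omega) (uniqueDiffOn_ell ha hb)
  have h2 : ContinuousOn (fun p : ℝ × ℂ => fderivWithin ℝ (ψ p.1) (ell a b) (Sc a b p.2)) (Icc 0 T ×ˢ DD) :=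
    h1.comp (f := fun p : ℝ × ℂ => (p.1, Sc a b p.2)) (by fun_prop)
      (fun p hp => ⟨hp.1.1, Sc_mem ha hb hp.2⟩)
  exact (TC a b).continuous.comp_continuousOn h2

lemma EulerSol.cH_st (h : EulerSol k (ell a b) ω ψ) (hk : 2 ≤ k) (ha : a ≠ 0) (hb : b ≠ 0) (T : ℝ) :
    ContinuousOn (fun p : ℝ × ℂ => Hst a b ψ p.1 p.2) (Icc 0 T ×ˢ DD) := by
  have h1 := h.contD2 hk (uniqueDiffOn_ell ha hb)
  have h2 : ContinuousOn (fun p : ℝ × ℂ =>
      fderivWithin ℝ (fderivWithin ℝ (ψ p.1) (ell a b)) (ell a b) (Sc a b p.2)) (Icc 0 T ×ˢ DD) :=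
    h1.comp (f := fun p : ℝ × ℂ => (p.1, Sc a b p.2)) (by fun_prop)
      (fun p hp => ⟨hp.1.1, Sc_mem ha hb hp.2⟩)
  exact continuousOn_const.clm_comp (h2.clm_comp continuousOn_const)

/-- an Euler solution on the ellipse gives a solution on the disc -/
theorem EulerSol.dsol (h : EulerSol k (ell a b) ω ψ) (hk : 2 ≤ k) (ha : a ≠ 0) (hb : b ≠ 0) {T : ℝ}
    (hT : 0 ≤ T) :
    DSol ((a ^ 2)⁻¹) ((b ^ 2)⁻¹) ((a * b)⁻¹) T (pst a b ψ) (gst a b ψ) (Hst a b ψ) where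
  T0 := hT
  c2 t ht := h.c2 hk ha hb ht.1
  sym t ht w hw := h.sym_st hk ha hb ht.1 hw
  cg := h.cg_st hk ha hb T
  cH := h.cH_st hk ha hb T
  tr φ hF t ht x hx := by
    have hfld := fld_of hT (fun t ht => h.c2 hk ha hb ht.1) (fun t ht w hw => h.sym_st hk ha hb ht.1 hw)
      (h.cg_st hk ha hb T) (h.cH_st hk ha hb T) ((a * b)⁻¹)
    have hmem : ∀ s, φ 0 s x ∈ DD := fun s => hF.mem_DD hfld 0 s hx
    rw [h.Lop_eq hk ha hb ht.1 (hmem t), h.Lop_eq hk ha hb le_rfl hx]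
    have h1 := h.transport t ht.1 (fun s => Sc a b (φ 0 s x))
      (fun s _ => Sc_mem ha hb (hmem s)) (fun s hs => by
        have h2 := (Sc a b).hasFDerivAt.comp_hasDerivAt s (hF.der 0 x s)
        rw [ext_eq ⟨hs.1, hs.2.trans ht.2⟩ (hmem s)] at h2
        have h3 : Sc a b (((((a * b)⁻¹ : ℝ) : ℂ)) * I * gst a b ψ s (φ 0 s x)) =
            vel (ell a b) (ψ s) (Sc a b (φ 0 s x)) := by
          apply Complex.ext
          · rw [Sc_re, vel, mul_assoc, Complex.re_ofReal_mul, Complex.I_mul_re]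
            simp only [gst, TC_im]
            field_simp
          · rw [Sc_im, vel, mul_assoc, Complex.im_ofReal_mul, Complex.I_mul_im]
            simp only [gst, TC_re]
            field_simp
        rw [← h3]
        exact h2.hasDerivWithinAt)
    simp only [hF.init] at h1
    exact h1

end Run7.h148
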