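import Pool.Agent.Run7.h148.DiscMain

set_option autoImplicit false

open Metric Set MeasureTheory Filter Topology Complex

namespace Run7.h148

variable {T : ℝ} {U : ℝ → ℂ → ℂ} {B : ℝ → ℂ → ℂ →L[ℝ] ℂ} {φ : ℝ → ℝ → ℂ → ℂ}

/-- second order Taylor estimate for a field with Lipschitz derivative -/
lemma taylor2 {V : ℂ → ℂ} {D : ℂ → ℂ →L[ℝ] ℂ} {K₂ : ℝ} (hK : 0 ≤ K₂)
    (hd : ∀ z ∈ DD, HasFDerivWithinAt V (D z) DD z)
    (hl : ∀ z ∈ DD, ∀ w ∈ DD, ‖D z - D w‖ ≤ K₂ * ‖z - w‖) {a c : ℂ} (ha : a ∈ DD) (hc : c ∈ DD) :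
    ‖V a - V c - D c (a - c)‖ ≤ K₂ * ‖a - c‖ ^ 2 := by
  have hsub : segment ℝ c a ⊆ DD := (convex_closedBall (0:ℂ) 1).segment_subset hc ha
  have h1 := Convex.norm_image_sub_le_of_norm_hasFDerivWithin_le' (𝕜 := ℝ) (C := K₂ * ‖a - c‖)
    (f := V) (f' := D) (φ := D c) (s := segment ℝ c a) (x := c) (y := a)
    (fun x hx => (hd x (hsub hx)).mono hsub) (fun x hx => ?_) (convex_segment _ _)
    (left_mem_segment _ _ _) (right_mem_segment _ _ _)
  · refine h1.trans (le_of_eq ?_)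
    ring
  · refine (hl x (hsub hx) c hc).trans ?_
    gcongr
    have := norm_sub_le_of_mem_segment hx
    exact this

/-- second differences of the flow are quadratic -/
theorem Flw.second (hF : Flw T U φ) (h : Fld T U B) {K₂ : ℝ} (hK : 0 ≤ K₂)
    (hl : ∀ t ∈ Icc 0 T, ∀ z ∈ DD, ∀ w ∈ DD, ‖B t z - B t w‖ ≤ K₂ * ‖z - w‖) :
    ∃ C : ℝ, 0 ≤ C ∧ ∀ t ∈ Icc 0 T, ∀ z v : ℂ, z ∈ DD → z + v ∈ DD → z - v ∈ DD →
      ‖φ 0 t (z + v) + φ 0 t (z - v) - 2 * φ 0 t z‖ ≤ C * ‖v‖ ^ 2 := by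
  obtain ⟨K, hK0, hKb⟩ := h.bound
  have hK0' : (0:ℝ) < K := by exact_mod_cast hK0
  refine ⟨2 * K₂ * Real.exp (K * T) ^ 2 / K * (Real.exp (K * T) - 1), ?_, ?_⟩
  · have : 1 ≤ Real.exp (K * T) := Real.one_le_exp (mul_nonneg hK0'.le h.T0)
    have : 0 ≤ Real.exp (K * T) - 1 := by linarith
    positivity
  intro t ht z v hz hzp hzm
  set ε : ℝ := 2 * K₂ * Real.exp (K * T) ^ 2 * ‖v‖ ^ 2 with hε
  have key := norm_le_gronwallBound_of_norm_deriv_right_le (a := 0) (b := T) (δ := 0) (K := K)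
    (ε := ε) (f := fun s => φ 0 s (z + v) + φ 0 s (z - v) - 2 * φ 0 s z)
    (f' := fun s => ext T U s (φ 0 s (z + v)) + ext T U s (φ 0 s (z - v)) - 2 * ext T U s (φ 0 s z))
    ?_ ?_ ?_ ?_ t ht
  · refine key.trans ?_
    rw [gronwallBound_of_K_ne_0 hK0'.ne', sub_zero]
    simp only
    rw [zero_mul, zero_add]
    have e1 : Real.exp (K * t) - 1 ≤ Real.exp (K * T) - 1 := by
      have : Real.exp (K * t) ≤ Real.exp (K * T) := by
        apply Real.exp_le_exp.2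
        exact mul_le_mul_of_nonneg_left ht.2 hK0'.le
      linarith
    calc ε / K * (Real.exp (K * t) - 1) ≤ ε / K * (Real.exp (K * T) - 1) := by gcongr
      _ = _ := by rw [hε]; ring
  · intro s _
    exact (((hF.der 0 _ s).continuousAt.add (hF.der 0 _ s).continuousAt).sub
      (continuousAt_const.mul (hF.der 0 _ s).continuousAt)).continuousWithinAt
  · intro s _
    exact (((hF.der 0 _ s).add (hF.der 0 _ s)).sub ((hF.der 0 _ s).const_mul 2)).hasDerivWithinAt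
  · simp only [hF.init]
    rw [show z + v + (z - v) - 2 * z = 0 by ring, norm_zero]
  · intro s hs
    have hsT : s ∈ Icc 0 T := ⟨hs.1, hs.2.le⟩
    have ma := hF.mem_DD h 0 s hzp
    have mb := hF.mem_DD h 0 s hzm
    have mc := hF.mem_DD h 0 s hz
    rw [ext_eq hsT ma, ext_eq hsT mb, ext_eq hsT mc]
    set a := φ 0 s (z + v)
    set b := φ 0 s (z - v)
    set c := φ 0 s z
    have t1 := taylor2 hK (h.hd s hsT) (hl s hsT) ma mc
    have t2 := taylor2 hK (h.hd s hsT) (hl s hsT) mb mc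
    have l1 := hF.lip h hKb 0 s (z + v) z
    have l2 := hF.lip h hKb 0 s (z - v) z
    rw [sub_zero, abs_of_nonneg hs.1, add_sub_cancel_left] at l1
    rw [sub_zero, abs_of_nonneg hs.1, sub_sub_cancel_left, norm_neg] at l2
    have hexp : Real.exp (K * s) ≤ Real.exp (K * T) := by
      apply Real.exp_le_exp.2
      exact mul_le_mul_of_nonneg_left hs.2.le hK0'.le
    have l1' : ‖a - c‖ ≤ Real.exp (K * T) * ‖v‖ := l1.trans (by gcongr)
    have l2' : ‖b - c‖ ≤ Real.exp (K * T) * ‖v‖ := l2.trans (by gcongr)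
    have hB : ‖B s c‖ ≤ K := by
      have := hKb s c
      rwa [extB_eq hsT mc] at this
    have e1 : U s a + U s b - 2 * U s c = B s c (a + b - 2 * c) + (U s a - U s c - B s c (a - c)) +
        (U s b - U s c - B s c (b - c)) := by
      have : a + b - 2 * c = (a - c) + (b - c) := by ring
      rw [this, map_add]; ring
    rw [e1]
    calc _ ≤ ‖B s c (a + b - 2 * c)‖ + ‖U s a - U s c - B s c (a - c)‖ +
        ‖U s b - U s c - B s c (b - c)‖ := norm_add₃_le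
      _ ≤ K * ‖a + b - 2 * c‖ + K₂ * (Real.exp (K * T) * ‖v‖) ^ 2 +
          K₂ * (Real.exp (K * T) * ‖v‖) ^ 2 := by
          gcongr
          · exact (B s c).le_of_opNorm_le hB _
          · exact t1.trans (by gcongr)
          · exact t2.trans (by gcongr)
      _ = _ := by rw [hε]; ring

/-- the case of exponents below two -/
theorem Flw.SD_second (hF : Flw T U φ) (h : Fld T U B) {K₂ : ℝ} (hK : 0 ≤ K₂)
    (hl : ∀ t ∈ Icc 0 T, ∀ z ∈ DD, ∀ w ∈ DD, ‖B t z - B t w‖ ≤ K₂ * ‖z - w‖) {γ : ℝ}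
    (hγ2 : γ < 2) {t : ℝ} (ht : t ∈ Icc 0 T) {x : ℂ} (hx : x ∈ ball (0:ℂ) 1) :
    SD γ (φ 0 t) x := by
  obtain ⟨C, hC0, hC⟩ := hF.second h hK hl
  intro ε hε
  obtain ⟨r0, hr0, hr⟩ : ∃ r0 > 0, ∀ r, 0 < r → r < r0 → C * r ^ 2 ≤ ε * r ^ γ := by
    have hlim : Tendsto (fun r : ℝ => C * r ^ (2 - γ)) (𝓝[>] 0) (𝓝 0) := by
      have h1 : Tendsto (fun r : ℝ => r ^ (2 - γ)) (𝓝[>] 0) (𝓝 (0 ^ (2 - γ))) :=
        (Real.continuousAt_rpow_const 0 (2 - γ) (Or.inr (by linarith))).tendsto.mono_left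
          nhdsWithin_le_nhds
      rw [Real.zero_rpow (by linarith)] at h1
      simpa using h1.const_mul C
    have h2 : ∀ᶠ r in 𝓝[>] (0:ℝ), C * r ^ (2 - γ) < ε := hlim.eventually (gt_mem_nhds hε)
    rw [eventually_nhdsWithin_iff, Metric.eventually_nhds_iff_ball] at h2
    obtain ⟨r0, hr0, h3⟩ := h2
    refine ⟨r0, hr0, fun r h4 h5 => ?_⟩
    have h6 := h3 r (by rw [mem_ball_zero_iff, Real.norm_eq_abs, abs_of_pos h4]; exact h5) h4
    have h7 : r ^ 2 = r ^ (2 - γ) * r ^ γ := by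
      rw [← Real.rpow_add h4]; norm_num
    rw [h7, ← mul_assoc]
    have : 0 ≤ r ^ γ := by positivity
    gcongr
  have hx1 : ‖x‖ < 1 := by simpa using hx
  refine ⟨min r0 ((1 - ‖x‖) / 2), by
    have : 0 < (1 - ‖x‖) / 2 := by linarith
    positivity, fun z v hz hv => ?_⟩
  have i1 : ‖z - x‖ < (1 - ‖x‖) / 2 := hz.trans_le (min_le_right _ _)
  have i2 : ‖v‖ < (1 - ‖x‖) / 2 := hv.trans_le (min_le_right _ _)
  have nz : ‖z‖ ≤ ‖z - x‖ + ‖x‖ := by
    have := norm_add_le (z - x) x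
    simpa using this
  have m0 : z ∈ DD := by rw [mem_closedBall_zero_iff]; linarith
  have m1 : z + v ∈ DD := by
    rw [mem_closedBall_zero_iff]
    exact (norm_add_le _ _).trans (by linarith)
  have m2 : z - v ∈ DD := by
    rw [mem_closedBall_zero_iff]
    exact (norm_sub_le _ _).trans (by linarith)
  refine (hC t ht z v m0 m1 m2).trans ?_
  rcases (norm_nonneg v).eq_or_lt with h0 | h0
  · rw [← h0]
    have : (0:ℝ) ≤ 0 ^ γ := Real.zero_rpow_nonneg _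
    simp
    positivity
  · exact hr ‖v‖ h0 (hv.trans_le (min_le_left _ _))

end Run7.h148
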