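import Pool.Agent.Run7.h148.Norms
import Pool.Agent.Run7.h148.Second

set_option autoImplicit false

open Metric Set MeasureTheory Filter Topology Complex

namespace Run7.h148

variable {a b : ℝ} {k : ℕ} {ω ψ : ℝ → ℂ → ℝ}

lemma convex_ell (ha : a ≠ 0) (hb : b ≠ 0) : Convex ℝ (ell a b) := by
  have : ell a b = Sc a⁻¹ b⁻¹ ⁻¹' DD := by
    ext z
    rw [← ell_preimage ha hb]
    show z ∈ ell a b ↔ Sc a b (Sc a⁻¹ b⁻¹ z) ∈ ell a b
    rw [Sc_inv ha hb]
  rw [this]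
  exact (convex_closedBall (0:ℂ) 1).linear_preimage (Sc a⁻¹ b⁻¹).toLinearMap

lemma isCompact_ell (ha : a ≠ 0) (hb : b ≠ 0) : IsCompact (ell a b) := by
  have : ell a b = Sc a b '' DD := by
    ext z
    constructor
    · intro hz
      obtain ⟨w, hw, e⟩ := Sc_surj ha hb hz
      exact ⟨w, hw, e⟩
    · rintro ⟨w, hw, rfl⟩
      exact Sc_mem ha hb hw
  rw [this]
  exact (isCompact_closedBall (0:ℂ) 1).image (Sc a b).continuous

/-- the Hessian is Lipschitz for `C³` stream functions -/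
lemma EulerSol.lipD2 (h : EulerSol k (ell a b) ω ψ) (hk : 3 ≤ k) (ha : a ≠ 0) (hb : b ≠ 0) (T : ℝ) :
    ∃ K : ℝ, 0 ≤ K ∧ ∀ t ∈ Icc 0 T, ∀ z ∈ ell a b, ∀ w ∈ ell a b,
      ‖fderivWithin ℝ (fderivWithin ℝ (ψ t) (ell a b)) (ell a b) z -
        fderivWithin ℝ (fderivWithin ℝ (ψ t) (ell a b)) (ell a b) w‖ ≤ K * ‖z - w‖ := by
  have hM := uniqueDiffOn_ell ha hb
  have hc : ContinuousOn (fun p : ℝ × ℂ => iteratedFDerivWithin ℝ 3 (ψ p.1) (ell a b) p.2)
      (Icc 0 T ×ˢ ell a b) := (h.cont 3 hk).mono (prod_mono Icc_subset_Ici_self le_rfl)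
  obtain ⟨C, hC⟩ := (isCompact_Icc.prod (isCompact_ell ha hb)).exists_bound_of_continuousOn hc
  refine ⟨max C 0, le_max_right _ _, fun t ht z hz w hw => ?_⟩
  have h3 : ContDiffOn ℝ 3 (ψ t) (ell a b) := (h.smooth t ht.1).of_le (by exact_mod_cast hk)
  have hd : DifferentiableOn ℝ (iteratedFDerivWithin ℝ 2 (ψ t) (ell a b)) (ell a b) :=
    h3.differentiableOn_iteratedFDerivWithin (by norm_num) hM
  have hl : ‖iteratedFDerivWithin ℝ 2 (ψ t) (ell a b) z - iteratedFDerivWithin ℝ 2 (ψ t) (ell a b) w‖ ≤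
      max C 0 * ‖z - w‖ := by
    refine Convex.norm_image_sub_le_of_norm_hasFDerivWithin_le (𝕜 := ℝ) (s := ell a b)
      (fun x hx => (hd x hx).hasFDerivWithinAt) (fun x hx => ?_) (convex_ell ha hb) hw hz
    rw [norm_fderivWithin_iteratedFDerivWithin]
    exact (hC (t, x) ⟨ht, hx⟩).trans (le_max_left _ _)
  refine le_trans ?_ hl
  refine ContinuousLinearMap.opNorm_le_bound _ (norm_nonneg _) fun v => ?_
  refine ContinuousLinearMap.opNorm_le_bound _ (by positivity) fun u => ?_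
  have e1 : (((fderivWithin ℝ (fderivWithin ℝ (ψ t) (ell a b)) (ell a b) z -
        fderivWithin ℝ (fderivWithin ℝ (ψ t) (ell a b)) (ell a b) w) v) u) =
      (iteratedFDerivWithin ℝ 2 (ψ t) (ell a b) z - iteratedFDerivWithin ℝ 2 (ψ t) (ell a b) w) ![v, u] := by
    have a1 := iteratedFDerivWithin_two_apply (ψ t) hM hz ![v, u]
    have a2 := iteratedFDerivWithin_two_apply (ψ t) hM hw ![v, u]
    have a3 : (iteratedFDerivWithin ℝ 2 (ψ t) (ell a b) z -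
        iteratedFDerivWithin ℝ 2 (ψ t) (ell a b) w) ![v, u] =
        iteratedFDerivWithin ℝ 2 (ψ t) (ell a b) z ![v, u] -
        iteratedFDerivWithin ℝ 2 (ψ t) (ell a b) w ![v, u] := rfl
    rw [a3, a1, a2]
    rfl
  rw [e1]
  have e2 := (iteratedFDerivWithin ℝ 2 (ψ t) (ell a b) z -
    iteratedFDerivWithin ℝ 2 (ψ t) (ell a b) w).le_opNorm ![v, u]
  refine e2.trans (le_of_eq ?_)
  rw [Fin.prod_univ_two]
  simp [mul_assoc]

lemma EulerSol.lipH (h : EulerSol k (ell a b) ω ψ) (hk : 3 ≤ k) (ha : a ≠ 0) (hb : b ≠ 0) (T : ℝ) :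
    ∃ K : ℝ, 0 ≤ K ∧ ∀ t ∈ Icc 0 T, ∀ z ∈ DD, ∀ w ∈ DD,
      ‖Hst a b ψ t z - Hst a b ψ t w‖ ≤ K * ‖z - w‖ := by
  obtain ⟨K, hK0, hK⟩ := h.lipD2 hk ha hb T
  refine ⟨‖TC a b‖ * (K * ‖Sc a b‖) * ‖Sc a b‖, by positivity, fun t ht z hz w hw => ?_⟩
  have e1 : Hst a b ψ t z - Hst a b ψ t w = (TC a b).comp
      ((fderivWithin ℝ (fderivWithin ℝ (ψ t) (ell a b)) (ell a b) (Sc a b z) -
        fderivWithin ℝ (fderivWithin ℝ (ψ t) (ell a b)) (ell a b) (Sc a b w)).comp (Sc a b)) := by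
    ext v
    simp [Hst]
  rw [e1]
  refine (ContinuousLinearMap.opNorm_comp_le _ _).trans ?_
  have e2 := ContinuousLinearMap.opNorm_comp_le
    (fderivWithin ℝ (fderivWithin ℝ (ψ t) (ell a b)) (ell a b) (Sc a b z) -
        fderivWithin ℝ (fderivWithin ℝ (ψ t) (ell a b)) (ell a b) (Sc a b w)) (Sc a b)
  have e3 := hK t ht _ (Sc_mem ha hb hz) _ (Sc_mem ha hb hw)
  have e4 : ‖Sc a b z - Sc a b w‖ ≤ ‖Sc a b‖ * ‖z - w‖ := by
    rw [← map_sub]; exact (Sc a b).le_opNorm _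
  calc ‖TC a b‖ * _ ≤ ‖TC a b‖ * (K * (‖Sc a b‖ * ‖z - w‖) * ‖Sc a b‖) := by
        gcongr
        refine e2.trans ?_
        gcongr
        exact e3.trans (by gcongr)
    _ = _ := by ring

lemma h1Norm_le {α : ℝ} (hα : 0 < α) {M : Set ℂ} (hM : UniqueDiffOn ℝ M) {f : ℂ → ℝ}
    {G : ℂ → ℂ →L[ℝ] ℝ} (hd : ∀ x ∈ M, HasFDerivWithinAt f (G x) M x) {A A' B : ℝ} (hA : 0 ≤ A)
    (hA' : 0 ≤ A') (hB : 0 ≤ B) (b1 : ∀ x ∈ M, ‖f x‖ ≤ A) (b2 : ∀ x ∈ M, ‖G x‖ ≤ A')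
    (b3 : ∀ x ∈ M, ∀ y ∈ M, ‖G x - G y‖ ≤ B * ‖x - y‖ ^ α) :
    h1Norm α M f ≤ ENNReal.ofReal (A + (A' + B)) := by
  unfold h1Norm
  have hdd : DifferentiableOn ℝ f M := fun x hx => (hd x hx).differentiableWithinAt
  rw [if_pos hdd, ENNReal.ofReal_add hA (by positivity)]
  have e : ∀ x ∈ M, fderivWithin ℝ f M x = G x := fun x hx => (hd x hx).fderivWithin (hM x hx)
  refine add_le_add ?_ ?_
  · exact iSup₂_le fun x hx => (enorm_le_iff hA).2 (b1 x hx)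
  · refine hNorm_le hα hA' hB (fun x hx => by rw [e x hx]; exact b2 x hx) ?_
    intro x hx y hy
    rw [e x hx, e y hy]
    exact b3 x hx y hy

lemma of_h1Norm_le {α : ℝ} (hα : 0 < α) {M : Set ℂ} {f : ℂ → ℝ} {N : ℝ} (hN : 0 ≤ N)
    (h : h1Norm α M f ≤ ENNReal.ofReal N) :
    (∀ x ∈ M, HasFDerivWithinAt f (fderivWithin ℝ f M x) M x) ∧ (∀ x ∈ M, ‖fderivWithin ℝ f M x‖ ≤ N) ∧
      ∀ x ∈ M, ∀ y ∈ M, ‖fderivWithin ℝ f M x - fderivWithin ℝ f M y‖ ≤ N * ‖x - y‖ ^ α := by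
  unfold h1Norm at h
  split_ifs at h with hd
  · have h2 := of_hNorm_le hα hN (le_trans le_add_self h)
    exact ⟨fun x hx => (hd x hx).hasFDerivWithinAt, h2.1, h2.2⟩
  · exact absurd h (by simp)

/-- the `C^{1,α}` bound controls second differences -/
lemma HB_of_C1 {α : ℝ} (hα : 0 < α) {M : Set ℂ} (hM : Convex ℝ M) {f : ℂ → ℝ} {N : ℝ} (hN : 0 ≤ N)
    (h : h1Norm α M f ≤ ENNReal.ofReal N) : HB (1 + α) N M f := by
  obtain ⟨h1, h2, h3⟩ := of_h1Norm_le hα hN h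
  have key : ∀ p ∈ M, ∀ q ∈ M, |f q - f p - fderivWithin ℝ f M p (q - p)| ≤ N * ‖q - p‖ ^ (1 + α) := by
    intro p hp q hq
    have hsub : segment ℝ p q ⊆ M := hM.segment_subset hp hq
    have h4 := Convex.norm_image_sub_le_of_norm_hasFDerivWithin_le' (𝕜 := ℝ)
      (C := N * ‖q - p‖ ^ α) (f := f) (f' := fderivWithin ℝ f M) (φ := fderivWithin ℝ f M p)
      (s := segment ℝ p q) (x := p) (y := q)
      (fun x hx => (h1 x (hsub hx)).mono hsub) (fun x hx => ?_) (convex_segment _ _)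
      (left_mem_segment _ _ _) (right_mem_segment _ _ _)
    · rw [Real.norm_eq_abs] at h4
      refine h4.trans (le_of_eq ?_)
      rcases (norm_nonneg (q - p)).eq_or_lt with h0 | h0
      · rw [← h0, mul_zero, Real.zero_rpow (by linarith), mul_zero]
      · rw [Real.rpow_add h0, Real.rpow_one]; ring
    · refine (h3 x (hsub hx) p hp).trans ?_
      gcongr
      exact norm_sub_le_of_mem_segment hx
  intro p hp q hq q' hq'
  have k1 := key p hp q hq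
  have k2 := key p hp q' hq'
  have e1 : f q + f q' - 2 * f p = (f q - f p - fderivWithin ℝ f M p (q - p)) +
      (f q' - f p - fderivWithin ℝ f M p (q' - p)) + fderivWithin ℝ f M p (q + q' - 2 * p) := by
    have : q + q' - 2 * p = (q - p) + (q' - p) := by ring
    rw [this, map_add]; ring
  rw [e1]
  have k3 : |fderivWithin ℝ f M p (q + q' - 2 * p)| ≤ N * ‖q + q' - 2 * p‖ := by
    have := (fderivWithin ℝ f M p).le_of_opNorm_le (h2 p hp) (q + q' - 2 * p)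
    rwa [Real.norm_eq_abs] at this
  refine (abs_add_three _ _ _).trans ?_
  linarith

lemma HB.add {γ N N' : ℝ} {M : Set ℂ} {f g : ℂ → ℝ} (hf : HB γ N M f) (hg : HB γ N' M g) :
    HB γ (N + N') M (fun z => f z + g z) := by
  intro p hp q hq q' hq'
  have h1 := hf p hp q hq q' hq'
  have h2 := hg p hp q hq q' hq'
  have e1 : f q + g q + (f q' + g q') - 2 * (f p + g p) =
      (f q + f q' - 2 * f p) + (g q + g q' - 2 * g p) := by ring
  rw [e1]
  refine (abs_add_le _ _).trans ?_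
  linarith

/-- transplanting to the disc -/
lemma HB.transplant {γ N : ℝ} (hγ : 0 < γ) (hN : 0 ≤ N) (ha : 0 < a) (hb : 0 < b) {f : ℂ → ℝ}
    (hf : HB γ N (ell a b) f) :
    HB γ (N * (max a b ^ γ + max a b)) DD (fun z => f (Sc a b z)) := by
  intro p hp q hq q' hq'
  have h1 := hf _ (Sc_mem ha.ne' hb.ne' hp) _ (Sc_mem ha.ne' hb.ne' hq) _ (Sc_mem ha.ne' hb.ne' hq')
  refine h1.trans ?_
  have hm : 0 < max a b := lt_max_of_lt_left ha
  have e1 : ∀ u v : ℂ, ‖Sc a b u - Sc a b v‖ ^ γ ≤ max a b ^ γ * ‖u - v‖ ^ γ := by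
    intro u v
    rw [← Real.mul_rpow hm.le (norm_nonneg _), ← map_sub]
    exact Real.rpow_le_rpow (norm_nonneg _) (norm_Sc_le ha hb _) hγ.le
  have e2 : ‖Sc a b q + Sc a b q' - 2 * Sc a b p‖ ≤ max a b * ‖q + q' - 2 * p‖ := by
    have : Sc a b q + Sc a b q' - 2 * Sc a b p = Sc a b (q + q' - 2 * p) := by
      rw [map_sub, map_add]
      congr 1
      have : (2:ℂ) * p = (2:ℝ) • p := by rw [Complex.real_smul]; norm_num
      rw [this, map_smul, Complex.real_smul]; norm_num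
    rw [this]
    exact norm_Sc_le ha hb _
  rw [mul_assoc]
  gcongr
  have e3 := e1 q p
  have e4 := e1 q' p
  have p1 : 0 ≤ ‖q - p‖ ^ γ := by positivity
  have p2 : 0 ≤ ‖q' - p‖ ^ γ := by positivity
  have p3 : 0 ≤ ‖q + q' - 2 * p‖ := norm_nonneg _
  have p4 : 0 < max a b ^ γ := by positivity
  nlinarith [mul_nonneg hm.le p1, mul_nonneg hm.le p2, mul_nonneg p4.le p3]

lemma kk_bounds1 (s1 s2 : ℝ) : ∃ K : ℝ, 0 < K ∧ (∀ z ∈ DD, |kk s1 s2 z| ≤ K) ∧
    (∀ z, HasFDerivAt (kk s1 s2) (fderiv ℝ (kk s1 s2) z) z) ∧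
    (∀ z ∈ DD, ‖fderiv ℝ (kk s1 s2) z‖ ≤ K) ∧
    ∀ z ∈ DD, ∀ w ∈ DD, ‖fderiv ℝ (kk s1 s2) z - fderiv ℝ (kk s1 s2) w‖ ≤ K * ‖z - w‖ := by
  have hc : ContDiff ℝ 2 (kk s1 s2) := by
    have h1 : ContDiff ℝ 2 (fun z : ℂ => z.re) := reCLM.contDiff
    have h2 : ContDiff ℝ 2 (fun z : ℂ => z.im) := imCLM.contDiff
    unfold kk
    fun_prop
  have hc1 : ContDiff ℝ 1 (fderiv ℝ (kk s1 s2)) := hc.fderiv_right (by norm_num)
  obtain ⟨K1, h1⟩ := (isCompact_closedBall (0:ℂ) 1).exists_bound_of_continuousOn hc.continuous.continuousOn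
  obtain ⟨K2, h2⟩ := (hc1.contDiffOn (s := DD)).exists_lipschitzOnWith (by norm_num)
    (convex_closedBall _ _) (isCompact_closedBall (0:ℂ) 1)
  obtain ⟨K3, h3⟩ := (isCompact_closedBall (0:ℂ) 1).exists_bound_of_continuousOn hc1.continuous.continuousOn
  refine ⟨max 1 (max K1 (max K2 K3)), by positivity, fun z hz => ?_,
    fun z => ((hc.differentiable (by norm_num)) z).hasFDerivAt, fun z hz => ?_, fun z hz w hw => ?_⟩
  · have := h1 z hz
    rw [Real.norm_eq_abs] at this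
    exact this.trans ((le_max_left _ _).trans (le_max_right _ _))
  · exact (h3 z hz).trans ((le_max_right _ _).trans ((le_max_right _ _).trans (le_max_right _ _)))
  · have := h2.dist_le_mul z hz w hw
    rw [dist_eq_norm, dist_eq_norm] at this
    refine this.trans ?_
    gcongr
    exact (le_max_left _ _).trans ((le_max_right _ _).trans (le_max_right _ _))

/-- **Instability on ellipses in `C^{1,α}`.** -/
theorem ellipse_growth_C1 (ha : 0 < a) (hb : 0 < b) {α : ℝ} (h0 : 0 < α) (h1 : α < 1) {f : ℂ → ℝ}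
    (hf : h1Norm α (ell a b) f < ⊤) {ε : ℝ} (hε : 0 < ε) :
    ∃ ω₀ : ℂ → ℝ, h1Norm α (ell a b) (fun z => ω₀ z - f z) ≤ ENNReal.ofReal ε ∧
      ∀ ω ψ : ℝ → ℂ → ℝ, EulerSol 3 (ell a b) ω ψ → (∀ z ∈ ell a b, ω 0 z = ω₀ z) →
        Tendsto (fun t => h1Norm α (ell a b) (fun z => ω t z - f z)) atTop (𝓝 ⊤) := by
  have ha' := ha.ne'
  have hb' := hb.ne'
  have hMu := uniqueDiffOn_ell ha' hb'
  set s1 : ℝ := (a ^ 2)⁻¹ with hs1
  set s2 : ℝ := (b ^ 2)⁻¹ with hs2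
  have s1p : 0 < s1 := by positivity
  have s2p : 0 < s2 := by positivity
  have hκ : 0 < (a * b)⁻¹ := by positivity
  obtain ⟨K, hK0, hK1, hK2, hK3, hK4⟩ := kk_bounds1 s1 s2
  set m : ℝ := max a⁻¹ b⁻¹ with hm
  have hm0 : 0 < m := by positivity
  have hSn : ‖Sc a⁻¹ b⁻¹‖ ≤ m :=
    ContinuousLinearMap.opNorm_le_bound _ hm0.le (norm_Sc_le (by positivity) (by positivity))
  set ε₁ : ℝ := ε / (2 * (1 + m + m ^ α * m)) with hε₁
  have hε₁0 : 0 < ε₁ := by positivity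
  set r : ℝ := ε / (2 * (K * (1 + m + 2 * (m ^ α * m)))) with hr
  have hr0 : 0 < r := by positivity
  obtain ⟨hfd, hfb, hfh⟩ := of_h1Norm_le h0 (N := (h1Norm α (ell a b) f).toReal) ENNReal.toReal_nonneg
    (by rw [ENNReal.ofReal_toReal hf.ne])
  have hHf := HB_of_C1 h0 (convex_ell ha' hb') (N := (h1Norm α (ell a b) f).toReal)
    ENNReal.toReal_nonneg (by rw [ENNReal.ofReal_toReal hf.ne])
  set Nf := (h1Norm α (ell a b) f).toReal
  have hNf : 0 ≤ Nf := ENNReal.toReal_nonneg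
  set w : ℂ → ℝ := fun z => f (Sc a b z) with hw
  obtain ⟨h, G, hG, hh1, hG1, hG2, c, hc, hR⟩ := rough_exists_C1 h0 h1 hε₁0 w
  have cf : ContinuousOn f (ell a b) := fun x hx => (hfd x hx).continuousWithinAt
  have cw : ContinuousOn w DD :=
    cf.comp (Sc a b).continuous.continuousOn (fun z hz => Sc_mem ha' hb' hz)
  have ch : ContinuousOn h DD := fun x _ => (hG x).continuousAt.continuousWithinAt
  have ciw : IntegrableOn (fun z => w z + h z) (ball 0 1) := intOn_of_contOn (cw.add ch)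
  obtain ⟨s, hs, hnd⟩ := exists_nondeg s1p s2p (fun z => w z + h z) ciw hr0
  have hR2 : Rough (1 + α) (c / 2) (fun z => w z + h z + s * kk s1 s2 z) := by
    refine hR.add (by linarith) hc (k := fun z => s * kk s1 s2 z) (K := |s| * (24 * (s1 + s2))) ?_
    intro x v
    have e1 : sd (fun z => s * kk s1 s2 z) x v = s * sd (kk s1 s2) x v := by unfold sd; ring
    rw [e1, abs_mul, mul_assoc]
    gcongr
    exact sd_kk s1p.le s2p.le x v
  set W : ℂ → ℝ := fun z => w z + h z + s * kk s1 s2 z with hW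
  have hmem : ∀ z ∈ ell a b, Sc a⁻¹ b⁻¹ z ∈ DD := by
    intro z hz
    rw [← ell_preimage ha' hb']
    show Sc a b (Sc a⁻¹ b⁻¹ z) ∈ ell a b
    rw [Sc_inv ha' hb']
    exact hz
  refine ⟨fun z => W (Sc a⁻¹ b⁻¹ z), ?_, ?_⟩
  · have hdiff : (fun z => W (Sc a⁻¹ b⁻¹ z) - f z) =
        fun z => h (Sc a⁻¹ b⁻¹ z) + s * kk s1 s2 (Sc a⁻¹ b⁻¹ z) := by
      funext z
      simp only [hW, hw, Sc_inv ha' hb']
      ring
    rw [hdiff]
    let Q : ℂ → ℂ →L[ℝ] ℝ := fun z => (G (Sc a⁻¹ b⁻¹ z) + s • fderiv ℝ (kk s1 s2) (Sc a⁻¹ b⁻¹ z)).comp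
      (Sc a⁻¹ b⁻¹)
    have hder : ∀ x ∈ ell a b, HasFDerivWithinAt
        (fun z => h (Sc a⁻¹ b⁻¹ z) + s * kk s1 s2 (Sc a⁻¹ b⁻¹ z)) (Q x) (ell a b) x := by
      intro x hx
      have d1 := (hG (Sc a⁻¹ b⁻¹ x)).comp x (Sc a⁻¹ b⁻¹).hasFDerivAt
      have d2 := ((hK2 (Sc a⁻¹ b⁻¹ x)).comp x (Sc a⁻¹ b⁻¹).hasFDerivAt).const_mul s
      refine ((d1.add d2).congr_fderiv ?_).hasFDerivWithinAt
      ext v
      simp [Q]
    have b1 : ∀ x ∈ ell a b, ‖h (Sc a⁻¹ b⁻¹ x) + s * kk s1 s2 (Sc a⁻¹ b⁻¹ x)‖ ≤ ε₁ + r * K := by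
      intro x hx
      rw [Real.norm_eq_abs]
      refine (abs_add_le _ _).trans ?_
      rw [abs_mul]
      gcongr
      · exact hh1 _
      · exact hK1 _ (hmem x hx)
    have b2 : ∀ x ∈ ell a b, ‖Q x‖ ≤ (ε₁ + r * K) * m := by
      intro x hx
      refine (ContinuousLinearMap.opNorm_comp_le _ _).trans ?_
      gcongr
      refine (norm_add_le _ _).trans ?_
      rw [norm_smul, Real.norm_eq_abs]
      gcongr
      · exact hG1 _
      · exact hK3 _ (hmem x hx)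
    have b3 : ∀ x ∈ ell a b, ∀ y ∈ ell a b,
        ‖Q x - Q y‖ ≤ (ε₁ + r * (2 * K)) * (m ^ α * m) * ‖x - y‖ ^ α := by
      intro x hx y hy
      set X := Sc a⁻¹ b⁻¹ x with hX
      set Y := Sc a⁻¹ b⁻¹ y with hY
      have hXD : X ∈ DD := hmem x hx
      have hYD : Y ∈ DD := hmem y hy
      have hXY : ‖X - Y‖ ≤ m * ‖x - y‖ := by
        have : X - Y = Sc a⁻¹ b⁻¹ (x - y) := by rw [map_sub]
        rw [this]
        exact norm_Sc_le (by positivity) (by positivity) _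
      have hXYα : ‖X - Y‖ ^ α ≤ m ^ α * ‖x - y‖ ^ α := by
        rw [← Real.mul_rpow hm0.le (norm_nonneg _)]
        exact Real.rpow_le_rpow (norm_nonneg _) hXY h0.le
      have hX1 : ‖X‖ ≤ 1 := by simpa using hXD
      have hY1 : ‖Y‖ ≤ 1 := by simpa using hYD
      have hd2 : ‖X - Y‖ ≤ 2 := (norm_sub_le _ _).trans (by linarith)
      have e0 : Q x - Q y = ((G X - G Y) + s • (fderiv ℝ (kk s1 s2) X - fderiv ℝ (kk s1 s2) Y)).comp
          (Sc a⁻¹ b⁻¹) := by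
        ext v
        simp [Q, ← hX, ← hY]
        ring
      rw [e0]
      refine (ContinuousLinearMap.opNorm_comp_le _ _).trans ?_
      have e2 := hG2 X Y
      have e3 := hK4 X hXD Y hYD
      have e4 := lip_to_holder h1.le (norm_nonneg (X - Y)) hd2 h0
      have e5 : ‖(G X - G Y) + s • (fderiv ℝ (kk s1 s2) X - fderiv ℝ (kk s1 s2) Y)‖ ≤
          (ε₁ + r * (2 * K)) * (m ^ α * ‖x - y‖ ^ α) := by
        refine (norm_add_le _ _).trans ?_
        rw [norm_smul, Real.norm_eq_abs]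
        calc ‖G X - G Y‖ + |s| * ‖fderiv ℝ (kk s1 s2) X - fderiv ℝ (kk s1 s2) Y‖
            ≤ ε₁ * ‖X - Y‖ ^ α + r * (K * (2 * ‖X - Y‖ ^ α)) := by
              gcongr
              exact e3.trans (by gcongr)
          _ = (ε₁ + r * (2 * K)) * ‖X - Y‖ ^ α := by ring
          _ ≤ _ := by gcongr
      calc ‖(G X - G Y) + s • (fderiv ℝ (kk s1 s2) X - fderiv ℝ (kk s1 s2) Y)‖ * ‖Sc a⁻¹ b⁻¹‖
          ≤ (ε₁ + r * (2 * K)) * (m ^ α * ‖x - y‖ ^ α) * m := by gcongr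
        _ = _ := by ring
    refine (h1Norm_le h0 hMu hder (by positivity) (by positivity) (by positivity) b1 b2 b3).trans
      (le_of_eq ?_)
    congr 1
    have e1 : ε₁ + r * K + ((ε₁ + r * K) * m + (ε₁ + r * (2 * K)) * (m ^ α * m)) =
        ε₁ * (1 + m + m ^ α * m) + r * (K * (1 + m + 2 * (m ^ α * m))) := by ring
    rw [e1, hε₁, hr]
    have p1 : (1 + m + m ^ α * m) ≠ 0 := by positivity
    have p2 : K * (1 + m + 2 * (m ^ α * m)) ≠ 0 := by positivity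
    field_simp
    ring
  · intro ω ψ hsol hini
    have hini' : ∀ z ∈ DD, vo s1 s2 (Hst a b ψ 0) z = W z := by
      intro z hz
      rw [vo, hsol.Lop_eq (by norm_num) ha' hb' le_rfl hz, hini _ (Sc_mem ha' hb' hz)]
      simp only
      rw [Sc_inv' ha' hb']
    have hSD : ∀ T φ, Flw T (fun t z => (((a * b)⁻¹ : ℝ) : ℂ) * I * gst a b ψ t z) φ →
        ∀ t ∈ Icc 0 T, ∀ x ∈ ball (0:ℂ) 1, SD (1 + α) (φ 0 t) x := by
      intro T φ hF t ht x hx
      have hT : 0 ≤ T := ht.1.trans ht.2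
      obtain ⟨K₂, hK₂, hl⟩ := hsol.lipH le_rfl ha' hb' T
      refine hF.SD_second (hsol.dsol (by norm_num) ha' hb' hT).fld
        (K₂ := ‖(((a * b)⁻¹ : ℝ) : ℂ) * I‖ * K₂) (by positivity) ?_ (by linarith) ht hx
      intro t ht z hz w hw
      have e0 : (((((a * b)⁻¹ : ℝ) : ℂ)) * I) • Hst a b ψ t z - ((((a * b)⁻¹ : ℝ) : ℂ) * I) • Hst a b ψ t w =
          ((((a * b)⁻¹ : ℝ) : ℂ) * I) • (Hst a b ψ t z - Hst a b ψ t w) := (smul_sub _ _ _).symm
      rw [e0, norm_smul, mul_assoc]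
      gcongr
      exact hl t ht z hz w hw
    rw [ENNReal.tendsto_nhds_top_iff_nnreal]
    intro x
    set mx : ℝ := max a b ^ (1 + α) + max a b with hmx
    have hmx0 : 0 < mx := by positivity
    have hx0 : (0:ℝ) ≤ x := x.2
    obtain ⟨T₀, hT₀⟩ := disc_growth s1p s2p hκ (fun T hT => hsol.dsol (by norm_num) ha' hb' hT)
      (by linarith : 0 < 1 + α) (half_pos hc) hini' hR2 hnd hSD (N := (x + Nf) * mx + 1) (by positivity)
    filter_upwards [eventually_gt_atTop (max T₀ 0)] with t ht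
    by_contra hcon
    push Not at hcon
    have ht0 : 0 ≤ t := ((le_max_right _ _).trans_lt ht).le
    have hcon' : h1Norm α (ell a b) (fun z => ω t z - f z) ≤ ENNReal.ofReal (x : ℝ) := by
      rwa [ENNReal.ofReal_coe_nnreal]
    have g1 := HB_of_C1 h0 (convex_ell ha' hb') hx0 hcon'
    have g2 := (g1.add hHf).transplant (by linarith) (by positivity) ha hb
    refine hT₀ t ((le_max_left _ _).trans_lt ht) (HB.mono (N := (x + Nf) * mx) ?_ (by linarith))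
    have g3 : ∀ z ∈ DD, vo s1 s2 (Hst a b ψ t) z = (ω t (Sc a b z) - f (Sc a b z)) + f (Sc a b z) := by
      intro z hz
      rw [vo, hsol.Lop_eq (by norm_num) ha' hb' ht0 hz]; ring
    intro p hp q hq q' hq'
    rw [g3 p hp, g3 q hq, g3 q' hq']
    exact g2 p hp q hq q' hq'

end Run7.h148
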