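import Pool.Agent.Run7.h148.Proj
import Pool.Agent.Helper118.Yud.G3

set_option autoImplicit false

open Metric Set MeasureTheory Filter Topology Complex

namespace Run7.h148

/-- the closed unit disc -/
abbrev DD : Set ℂ := closedBall (0:ℂ) 1

/-- a tangential, divergence free velocity field on the closed unit disc, for times in `[0,T]` -/
structure Fld (T : ℝ) (U : ℝ → ℂ → ℂ) (B : ℝ → ℂ → ℂ →L[ℝ] ℂ) : Prop where
  T0 : 0 ≤ T
  cU : ContinuousOn (fun p : ℝ × ℂ => U p.1 p.2) (Icc 0 T ×ˢ DD)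
  cB : ContinuousOn (fun p : ℝ × ℂ => B p.1 p.2) (Icc 0 T ×ˢ DD)
  hd : ∀ t ∈ Icc 0 T, ∀ z ∈ DD, HasFDerivWithinAt (U t) (B t z) DD z
  tan : ∀ t ∈ Icc 0 T, ∀ z : ℂ, ‖z‖ = 1 → (starRingEnd ℂ z * U t z).re = 0
  tr : ∀ t ∈ Icc 0 T, ∀ z ∈ ball (0:ℂ) 1, (B t z 1).re + (B t z I).im = 0

variable {T : ℝ} {U : ℝ → ℂ → ℂ} {B : ℝ → ℂ → ℂ →L[ℝ] ℂ}

/-- extended field -/
noncomputable def ext (T : ℝ) (U : ℝ → ℂ → ℂ) (t : ℝ) (z : ℂ) : ℂ := U (cl T t) (pj z)

/-- extended derivative -/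
noncomputable def extB (T : ℝ) (B : ℝ → ℂ → ℂ →L[ℝ] ℂ) (t : ℝ) (z : ℂ) : ℂ →L[ℝ] ℂ :=
  B (cl T t) (pj z)

lemma ext_eq {t : ℝ} {z : ℂ} (ht : t ∈ Icc 0 T) (hz : z ∈ DD) : ext T U t z = U t z := by
  rw [ext, cl_of_mem ht, pj_of_le (by simpa using hz)]

lemma extB_eq {t : ℝ} {z : ℂ} (ht : t ∈ Icc 0 T) (hz : z ∈ DD) : extB T B t z = B t z := by
  rw [extB, cl_of_mem ht, pj_of_le (by simpa using hz)]

lemma Fld.cont (h : Fld T U B) : Continuous (fun p : ℝ × ℂ => ext T U p.1 p.2) := by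
  have h1 : Continuous (fun p : ℝ × ℂ => (cl T p.1, pj p.2)) :=
    ((continuous_cl T).comp continuous_fst).prodMk (continuous_pj.comp continuous_snd)
  exact h.cU.comp_continuous h1 (fun p => ⟨cl_mem h.T0 _, pj_mem _⟩)

lemma Fld.contB (h : Fld T U B) : Continuous (fun p : ℝ × ℂ => extB T B p.1 p.2) := by
  have h1 : Continuous (fun p : ℝ × ℂ => (cl T p.1, pj p.2)) :=
    ((continuous_cl T).comp continuous_fst).prodMk (continuous_pj.comp continuous_snd)
  exact h.cB.comp_continuous h1 (fun p => ⟨cl_mem h.T0 _, pj_mem _⟩)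

lemma Fld.bound (h : Fld T U B) : ∃ K : NNReal, 0 < K ∧ ∀ t z, ‖extB T B t z‖ ≤ K := by
  have hK : IsCompact (Icc 0 T ×ˢ DD) := isCompact_Icc.prod (isCompact_closedBall _ _)
  obtain ⟨C, hC⟩ := hK.exists_bound_of_continuousOn h.cB
  refine ⟨⟨max C 1, le_max_of_le_right zero_le_one⟩, ?_, fun t z => ?_⟩
  · rw [← NNReal.coe_pos]; exact lt_of_lt_of_le one_pos (le_max_right _ _)
  · exact (hC (cl T t, pj z) ⟨cl_mem h.T0 _, pj_mem _⟩).trans (le_max_left _ _)

lemma Fld.lip (h : Fld T U B) {K : NNReal} (hK : ∀ t z, ‖extB T B t z‖ ≤ K) (t : ℝ) :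
    LipschitzWith K (ext T U t) := by
  apply LipschitzWith.of_dist_le_mul
  intro z w
  rw [dist_eq_norm, dist_eq_norm]
  have h1 := Convex.norm_image_sub_le_of_norm_hasFDerivWithin_le (𝕜 := ℝ) (C := K)
    (f := U (cl T t)) (f' := B (cl T t)) (s := DD) (x := pj w) (y := pj z)
    (fun x hx => h.hd _ (cl_mem h.T0 _) x hx) (fun x hx => ?_) (convex_closedBall _ _)
    (pj_mem _) (pj_mem _)
  · exact h1.trans (mul_le_mul_of_nonneg_left (pj_sub_le _ _) K.2)
  · have := hK t x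
    rwa [extB, pj_of_le (by simpa using hx)] at this

lemma Fld.tan' (h : Fld T U B) {t : ℝ} {z : ℂ} (hz : 1 ≤ ‖z‖) :
    (starRingEnd ℂ z * ext T U t z).re = 0 := by
  have h1 := h.tan (cl T t) (cl_mem h.T0 _) (pj z) (norm_pj_of_ge hz)
  have h2 : z = ((‖z‖ : ℝ) : ℂ) * pj z := by
    rw [pj_of_ge hz]
    rw [Complex.real_smul]
    push_cast
    field_simp
    rw [mul_div_assoc, div_self, mul_one]
    have : (‖z‖ : ℝ) ≠ 0 := by linarith
    exact_mod_cast this
  rw [ext]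
  have h3 : starRingEnd ℂ z * U (cl T t) (pj z) =
      ((‖z‖ : ℝ) : ℂ) * (starRingEnd ℂ (pj z) * U (cl T t) (pj z)) := by
    conv_lhs => rw [h2]
    rw [map_mul, Complex.conj_ofReal]
    have : pj (((‖z‖ : ℝ) : ℂ) * pj z) = pj z := by rw [← h2]
    rw [this]; ring
  rw [h3, Complex.re_ofReal_mul, h1, mul_zero]

/-- a global flow of the extended field -/
structure Flw (T : ℝ) (U : ℝ → ℂ → ℂ) (φ : ℝ → ℝ → ℂ → ℂ) : Prop where
  init : ∀ s x, φ s s x = x
  der : ∀ s x t, HasDerivAt (fun t => φ s t x) (ext T U t (φ s t x)) t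

theorem Fld.exists_flow (h : Fld T U B) : ∃ φ : ℝ → ℝ → ℂ → ℂ, Flw T U φ := by
  obtain ⟨K, hK0, hK⟩ := h.bound
  have h1 : ∀ (s : ℝ) (x : ℂ), ∃ ξ : ℝ → ℂ, ξ s = x ∧ ∀ t, HasDerivAt ξ (ext T U t (ξ t)) t := by
    intro s x
    obtain ⟨ξ, h2, h3⟩ := Pool.Agent.Helper118.Yud.global_ode (fun t z => ext T U (t + s) z) K
      (fun t => h.lip hK (t + s))
      (by
        have : Continuous (fun p : ℝ × ℂ => (p.1 + s, p.2)) := by fun_prop
        exact h.cont.comp this) x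
    refine ⟨fun t => ξ (t - s), by simpa using h2, fun t => ?_⟩
    have h4 := (h3 (t - s)).comp_sub_const t s
    simpa using h4
  choose ξ h2 h3 using h1
  exact ⟨fun s t x => ξ s x t, ⟨h2, fun s x t => h3 s x t⟩⟩

variable {φ : ℝ → ℝ → ℂ → ℂ}

lemma flow_unique (h : Fld T U B) {ξ η : ℝ → ℂ}
    (h1 : ∀ t, HasDerivAt ξ (ext T U t (ξ t)) t) (h2 : ∀ t, HasDerivAt η (ext T U t (η t)) t)
    {s : ℝ} (h3 : ξ s = η s) : ξ = η := by
  obtain ⟨K, hK0, hK⟩ := h.bound
  exact ODE_solution_unique_univ (v := ext T U) (s := fun _ => univ) (K := K) (t₀ := s)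
    (fun t => (h.lip hK t).lipschitzOnWith) (fun t => ⟨h1 t, trivial⟩) (fun t => ⟨h2 t, trivial⟩) h3

lemma Flw.comp (hF : Flw T U φ) (h : Fld T U B) (r s t : ℝ) (x : ℂ) :
    φ s t (φ r s x) = φ r t x := by
  have := flow_unique h (hF.der s (φ r s x)) (hF.der r x) (s := s) (hF.init s _)
  exact congrFun this t

lemma Flw.inv (hF : Flw T U φ) (h : Fld T U B) (s t : ℝ) (x : ℂ) :
    φ t s (φ s t x) = x := by rw [hF.comp h, hF.init]

lemma Flw.lip (hF : Flw T U φ) (h : Fld T U B) {K : NNReal} (hK : ∀ t z, ‖extB T B t z‖ ≤ K)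
    (s t : ℝ) (x y : ℂ) :
    ‖φ s t x - φ s t y‖ ≤ Real.exp (K * |t - s|) * ‖x - y‖ := by
  rcases le_total s t with hst | hst
  · have h1 := dist_le_of_trajectories_ODE (v := ext T U) (K := K) (f := fun t => φ s t x)
      (g := fun t => φ s t y) (a := s) (b := t) (δ := ‖x - y‖) (fun t => h.lip hK t)
      (fun r _ => (hF.der s x r).continuousAt.continuousWithinAt)
      (fun r _ => (hF.der s x r).hasDerivWithinAt)
      (fun r _ => (hF.der s y r).continuousAt.continuousWithinAt)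
      (fun r _ => (hF.der s y r).hasDerivWithinAt)
      (by rw [hF.init, hF.init, dist_eq_norm]) t ⟨hst, le_rfl⟩
    rw [dist_eq_norm] at h1
    rw [abs_of_nonneg (by linarith), mul_comm]
    exact h1
  · have hd : ∀ z r, HasDerivAt (fun r => φ s (-r) z) (-ext T U (-r) (φ s (-r) z)) r := by
      intro z r
      have := (hF.der s z (-r)).scomp r (hasDerivAt_neg r)
      simpa [Function.comp_def] using this
    have h1 := dist_le_of_trajectories_ODE (v := fun r z => -ext T U (-r) z) (K := K)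
      (f := fun r => φ s (-r) x)
      (g := fun r => φ s (-r) y) (a := -s) (b := -t) (δ := ‖x - y‖)
      (fun r => (h.lip hK (-r)).neg)
      (fun r _ => (hd x r).continuousAt.continuousWithinAt)
      (fun r _ => (hd x r).hasDerivWithinAt)
      (fun r _ => (hd y r).continuousAt.continuousWithinAt)
      (fun r _ => (hd y r).hasDerivWithinAt)
      (by simp only [neg_neg]; rw [hF.init, hF.init, dist_eq_norm]) (-t) ⟨by linarith, le_rfl⟩
    simp only [neg_neg] at h1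
    rw [dist_eq_norm] at h1
    rw [abs_of_nonpos (by linarith), mul_comm]
    convert h1 using 3
    ring

lemma Flw.cont (hF : Flw T U φ) (h : Fld T U B) (s : ℝ) :
    Continuous (fun p : ℝ × ℂ => φ s p.1 p.2) := by
  obtain ⟨K, hK0, hK⟩ := h.bound
  rw [continuous_iff_continuousAt]
  rintro ⟨t0, x0⟩
  have h1 : Tendsto (fun p : ℝ × ℂ => Real.exp (K * |p.1 - s|) * ‖p.2 - x0‖
      + ‖φ s p.1 x0 - φ s t0 x0‖) (𝓝 (t0, x0)) (𝓝 0) := by
    have c1 : Continuous (fun p : ℝ × ℂ => Real.exp (K * |p.1 - s|) * ‖p.2 - x0‖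
      + ‖φ s p.1 x0 - φ s t0 x0‖) := by
      have c2 : Continuous (fun t => φ s t x0) :=
        continuous_iff_continuousAt.2 fun t => (hF.der s x0 t).continuousAt
      fun_prop
    have := c1.tendsto (t0, x0)
    simpa using this
  rw [ContinuousAt, tendsto_iff_norm_sub_tendsto_zero]
  refine squeeze_zero (fun _ => norm_nonneg _) (fun p => ?_) h1
  calc ‖φ s p.1 p.2 - φ s t0 x0‖
      ≤ ‖φ s p.1 p.2 - φ s p.1 x0‖ + ‖φ s p.1 x0 - φ s t0 x0‖ := norm_sub_le_norm_sub_add_norm_sub _ _ _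
    _ ≤ _ := by
      gcongr
      exact hF.lip h hK s p.1 p.2 x0

lemma Flw.norm_out (hF : Flw T U φ) (h : Fld T U B) (s t : ℝ) {x : ℂ} (hx : 1 < ‖x‖) :
    ‖φ s t x‖ = ‖x‖ := by
  have hc : Continuous (fun t => φ s t x) :=
    continuous_iff_continuousAt.2 fun t => (hF.der s x t).continuousAt
  let N : ℝ → ℝ := fun t => ‖φ s t x‖ ^ 2
  have hN : ∀ t, HasDerivAt N (2 * (starRingEnd ℂ (φ s t x) * ext T U t (φ s t x)).re) t := by
    intro t
    have h1 := (hF.der s x t).norm_sq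
    convert h1 using 2
    rw [Complex.inner, mul_comm]
  have hS : IsClopen {t : ℝ | N t = ‖x‖ ^ 2} := by
    constructor
    · exact isClosed_eq (hc.norm.pow 2) continuous_const
    · rw [isOpen_iff_mem_nhds]
      intro t0 ht0
      have h2 : ∀ᶠ t in 𝓝 t0, 1 < ‖φ s t x‖ := by
        have h3 : 1 < ‖φ s t0 x‖ := by
          have : ‖φ s t0 x‖ ^ 2 = ‖x‖ ^ 2 := ht0
          rw [sq_eq_sq₀ (norm_nonneg _) (norm_nonneg _)] at this
          rw [this]; exact hx
        exact (hc.norm.continuousAt).eventually (lt_mem_nhds h3)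
      obtain ⟨ε, hε, h3⟩ := Metric.eventually_nhds_iff_ball.1 h2
      refine Filter.mem_of_superset (ball_mem_nhds t0 hε) ?_
      intro t ht
      have h4 : N t = N t0 := by
        have := (convex_ball t0 ε).is_const_of_fderivWithin_eq_zero (𝕜 := ℝ) (f := N)
          (fun r _ => (hN r).differentiableAt.differentiableWithinAt) ?_ ht (mem_ball_self hε)
        · exact this
        · intro r hr
          have h5 : HasDerivAt N 0 r := by
            have := hN r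
            rwa [h.tan' (h3 r hr).le, mul_zero] at this
          rw [fderivWithin_of_isOpen isOpen_ball hr]
          have h6 := h5.hasFDerivAt.fderiv
          rw [h6]; ext; simp
      show N t = _
      rw [h4]; exact ht0
  have hne : ({t : ℝ | N t = ‖x‖ ^ 2}).Nonempty := ⟨s, by simp [N, hF.init]⟩
  have hu := hS.eq_univ hne
  have : N t = ‖x‖ ^ 2 := by
    have : t ∈ {t : ℝ | N t = ‖x‖ ^ 2} := by rw [hu]; trivial
    exact this
  exact (sq_eq_sq₀ (norm_nonneg _) (norm_nonneg _)).1 this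

lemma Flw.norm_one (hF : Flw T U φ) (h : Fld T U B) (s t : ℝ) {x : ℂ} (hx : ‖x‖ = 1) :
    ‖φ s t x‖ = 1 := by
  have hc : Continuous (fun r : ℝ => φ s t ((r : ℂ) * x)) := by
    have := hF.cont h s
    have h2 : Continuous (fun r : ℝ => (t, (r : ℂ) * x)) := by fun_prop
    exact this.comp h2
  have h1 : Tendsto (fun r : ℝ => ‖φ s t ((r : ℂ) * x)‖) (𝓝[>] 1) (𝓝 ‖φ s t x‖) := by
    have := (hc.norm.tendsto 1).mono_left (nhdsWithin_le_nhds (s := Ioi (1:ℝ)))
    simpa using this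
  have h2 : Tendsto (fun r : ℝ => r) (𝓝[>] 1) (𝓝 1) := tendsto_id.mono_left nhdsWithin_le_nhds
  have h3 : (fun r : ℝ => ‖φ s t ((r : ℂ) * x)‖) =ᶠ[𝓝[>] 1] fun r => r := by
    filter_upwards [self_mem_nhdsWithin] with r hr
    have hr' : (1:ℝ) < r := hr
    have h4 : ‖(r : ℂ) * x‖ = r := by
      rw [norm_mul, hx, mul_one, Complex.norm_real, Real.norm_eq_abs, abs_of_pos (by linarith)]
    rw [hF.norm_out h s t (by rw [h4]; exact hr'), h4]
  exact tendsto_nhds_unique (h1.congr' h3) h2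

lemma Flw.norm_ge (hF : Flw T U φ) (h : Fld T U B) (s t : ℝ) {x : ℂ} (hx : 1 ≤ ‖x‖) :
    1 ≤ ‖φ s t x‖ := by
  rcases hx.eq_or_lt with h1 | h1
  · rw [hF.norm_one h s t h1.symm]
  · rw [hF.norm_out h s t h1]; exact h1.le

lemma Flw.mem_ball (hF : Flw T U φ) (h : Fld T U B) (s t : ℝ) {x : ℂ} (hx : x ∈ ball (0:ℂ) 1) :
    φ s t x ∈ ball (0:ℂ) 1 := by
  rw [mem_ball_zero_iff] at *
  by_contra hcon
  push Not at hcon
  have := hF.norm_ge h t s hcon
  rw [hF.inv h] at this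
  linarith

lemma Flw.mem_DD (hF : Flw T U φ) (h : Fld T U B) (s t : ℝ) {x : ℂ} (hx : x ∈ DD) :
    φ s t x ∈ DD := by
  rw [mem_closedBall_zero_iff] at *
  rcases hx.eq_or_lt with h1 | h1
  · rw [hF.norm_one h s t h1]
  · have := hF.mem_ball h s t (x := x) (by simpa using h1)
    rw [mem_ball_zero_iff] at this
    exact this.le

end Run7.h148
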