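import Pool.Agent.Run7.h148.Flow1

set_option autoImplicit false

open Metric Set MeasureTheory Filter Topology Complex

namespace Run7.h148

variable {T : ℝ} {U : ℝ → ℂ → ℂ} {B : ℝ → ℂ → ℂ →L[ℝ] ℂ} {φ : ℝ → ℝ → ℂ → ℂ}

lemma clm_det (A : ℂ →L[ℝ] ℂ) : A.det = (A 1).re * (A I).im - (A 1).im * (A I).re := by
  rw [ContinuousLinearMap.det, ← LinearMap.det_toMatrix Complex.basisOneI, Matrix.det_fin_two]
  simp only [LinearMap.toMatrix_apply, Complex.coe_basisOneI_repr, Complex.coe_basisOneI]
  simp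
  ring

lemma clm_apply' (A : ℂ →L[ℝ] ℂ) (w : ℂ) : A w = w.re • A 1 + w.im • A I := by
  conv_lhs => rw [← Complex.re_add_im w]
  have h1 : ((w.re : ℂ) + (w.im : ℂ) * I) = w.re • (1:ℂ) + w.im • I := by
    simp
  rw [h1, map_add, map_smul, map_smul]

theorem Flw.exists_fderiv (hF : Flw T U φ) (h : Fld T U B) {x : ℂ} (hx : x ∈ ball (0:ℂ) 1) :
    ∃ A : ℝ → ℂ →L[ℝ] ℂ, (∀ t ∈ Icc 0 T, HasStrictFDerivAt (φ 0 t) (A t) x) ∧
      (∀ t ∈ Icc 0 T, (A t).det = 1) := by
  obtain ⟨K, hK0, hK⟩ := h.bound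
  have hK0' : (0:ℝ) < K := by exact_mod_cast hK0
  have hxD : x ∈ DD := ball_subset_closedBall hx
  have hcx : Continuous (fun t => φ 0 t x) :=
    continuous_iff_continuousAt.2 fun t => (hF.der 0 x t).continuousAt
  have hcB : Continuous (fun t => extB T B t (φ 0 t x)) := by
    have : Continuous (fun t => (t, φ 0 t x)) := by fun_prop
    exact h.contB.comp this
  obtain ⟨A, hA0, hA⟩ := Pool.Agent.Helper118.Yud.global_ode
    (fun (t : ℝ) (A : ℂ →L[ℝ] ℂ) => (extB T B t (φ 0 t x)).comp A) K
    (by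
      intro t
      apply LipschitzWith.of_dist_le_mul
      intro A A'
      rw [dist_eq_norm, dist_eq_norm, ← ContinuousLinearMap.comp_sub]
      exact (ContinuousLinearMap.opNorm_comp_le _ _).trans
        (mul_le_mul_of_nonneg_right (hK _ _) (norm_nonneg _)))
    (by
      have : Continuous (fun p : ℝ × (ℂ →L[ℝ] ℂ) => (extB T B p.1 (φ 0 p.1 x)).comp p.2) :=
        (hcB.comp continuous_fst).clm_comp continuous_snd
      exact this) (ContinuousLinearMap.id ℝ ℂ)
  have hAv : ∀ (v : ℂ) (t : ℝ), HasDerivAt (fun t => A t v) (extB T B t (φ 0 t x) (A t v)) t := by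
    intro v t
    have := (hA t).clm_apply (hasDerivAt_const t v)
    simpa using this
  refine ⟨A, ?_, ?_⟩
  · intro t ht
    rw [hasStrictFDerivAt_iff_isLittleO, Asymptotics.isLittleO_iff]
    intro c hc
    set M : ℝ := Real.exp (K * T) with hM
    have hM0 : 0 < M := Real.exp_pos _
    have hε : 0 < c * K / (M * M) := by positivity
    have hcomp : IsCompact (Icc 0 T ×ˢ DD) := isCompact_Icc.prod (isCompact_closedBall _ _)
    obtain ⟨η, hη, hu⟩ := Metric.uniformContinuousOn_iff.1
      (hcomp.uniformContinuousOn_of_continuous h.cB) _ hε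
    have hev : ∀ᶠ p : ℂ × ℂ in 𝓝 (x, x), p.1 ∈ ball (0:ℂ) 1 ∧ p.2 ∈ ball (0:ℂ) 1 ∧
        ‖p.1 - x‖ < η / M ∧ ‖p.2 - x‖ < η / M := by
      have e1 : ∀ᶠ y in 𝓝 x, y ∈ ball (0:ℂ) 1 := isOpen_ball.mem_nhds hx
      have e2 : ∀ᶠ y in 𝓝 x, ‖y - x‖ < η / M := by
        have := Metric.ball_mem_nhds x (div_pos hη hM0)
        filter_upwards [this] with y hy
        rwa [Metric.mem_ball, dist_eq_norm] at hy
      have e3 := (e1.and e2).prod_nhds (e1.and e2)
      filter_upwards [e3] with p hp
      exact ⟨hp.1.1, hp.2.1, hp.1.2, hp.2.2⟩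
    filter_upwards [hev] with p hp
    obtain ⟨hy, hz, hyx, hzx⟩ := hp
    set y := p.1
    set z := p.2
    have hyD : y ∈ DD := ball_subset_closedBall hy
    have hzD : z ∈ DD := ball_subset_closedBall hz
    -- the difference
    have hder : ∀ s, HasDerivAt (fun s => φ 0 s y - φ 0 s z - A s (y - z))
        (ext T U s (φ 0 s y) - ext T U s (φ 0 s z) - extB T B s (φ 0 s x) (A s (y - z))) s :=
      fun s => ((hF.der 0 y s).sub (hF.der 0 z s)).sub (hAv (y - z) s)
    have hlipM : ∀ s ∈ Icc 0 T, ∀ a b : ℂ, ‖φ 0 s a - φ 0 s b‖ ≤ M * ‖a - b‖ := by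
      intro s hs a b
      refine (hF.lip h hK 0 s a b).trans ?_
      gcongr
      rw [sub_zero, abs_of_nonneg hs.1, hM]
      apply Real.exp_le_exp.2
      exact mul_le_mul_of_nonneg_left hs.2 hK0'.le
    have hbound : ∀ s ∈ Ico 0 T,
        ‖ext T U s (φ 0 s y) - ext T U s (φ 0 s z) - extB T B s (φ 0 s x) (A s (y - z))‖ ≤
        K * ‖φ 0 s y - φ 0 s z - A s (y - z)‖ + (c * K / (M * M)) * (M * ‖y - z‖) := by
      intro s hs
      have hs' : s ∈ Icc 0 T := Ico_subset_Icc_self hs
      have hYD : φ 0 s y ∈ DD := hF.mem_DD h 0 s hyD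
      have hZD : φ 0 s z ∈ DD := hF.mem_DD h 0 s hzD
      have hXD : φ 0 s x ∈ DD := hF.mem_DD h 0 s hxD
      have hYb : φ 0 s y ∈ ball (φ 0 s x) η := by
        rw [Metric.mem_ball, dist_eq_norm]
        refine lt_of_le_of_lt (hlipM s hs' y x) ?_
        calc M * ‖y - x‖ < M * (η / M) := by gcongr
          _ = _ := by field_simp
      have hZb : φ 0 s z ∈ ball (φ 0 s x) η := by
        rw [Metric.mem_ball, dist_eq_norm]
        refine lt_of_le_of_lt (hlipM s hs' z x) ?_
        calc M * ‖z - x‖ < M * (η / M) := by gcongr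
          _ = _ := by field_simp
      have h1 := Convex.norm_image_sub_le_of_norm_hasFDerivWithin_le' (𝕜 := ℝ)
        (C := c * K / (M * M)) (f := U s) (f' := B s) (s := DD ∩ ball (φ 0 s x) η)
        (φ := B s (φ 0 s x)) (x := φ 0 s z) (y := φ 0 s y)
        (fun w hw => (h.hd s hs' w hw.1).mono inter_subset_left)
        (fun w hw => by
          have := hu (s, w) ⟨hs', hw.1⟩ (s, φ 0 s x) ⟨hs', hXD⟩ (by
            rw [Prod.dist_eq, dist_self, max_eq_right dist_nonneg]
            exact hw.2)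
          rw [dist_eq_norm] at this
          exact this.le)
        ((convex_closedBall _ _).inter (convex_ball _ _)) ⟨hZD, hZb⟩ ⟨hYD, hYb⟩
      rw [ext_eq hs' hYD, ext_eq hs' hZD, extB_eq hs' hXD]
      have h2 : U s (φ 0 s y) - U s (φ 0 s z) - B s (φ 0 s x) (A s (y - z)) =
          B s (φ 0 s x) (φ 0 s y - φ 0 s z - A s (y - z)) +
          (U s (φ 0 s y) - U s (φ 0 s z) - B s (φ 0 s x) (φ 0 s y - φ 0 s z)) := by
        rw [map_sub (B s (φ 0 s x)) (φ 0 s y - φ 0 s z)]
        ring
      rw [h2]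
      refine (norm_add_le _ _).trans (add_le_add ?_ ?_)
      · have h3 : ‖B s (φ 0 s x)‖ ≤ K := by
          have := hK s (φ 0 s x)
          rwa [extB_eq hs' hXD] at this
        exact (ContinuousLinearMap.le_opNorm _ _).trans
          (mul_le_mul_of_nonneg_right h3 (norm_nonneg _))
      · refine h1.trans ?_
        gcongr
        exact hlipM s hs' y z
    have h0 : ‖φ 0 0 y - φ 0 0 z - A 0 (y - z)‖ ≤ 0 := by
      rw [hF.init, hF.init, hA0]; simp
    have hg := norm_le_gronwallBound_of_norm_deriv_right_le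
      (f := fun s => φ 0 s y - φ 0 s z - A s (y - z)) (δ := 0) (a := 0) (b := T)
      (fun s _ => (hder s).continuousAt.continuousWithinAt)
      (fun s _ => (hder s).hasDerivWithinAt) h0 hbound t ht
    refine hg.trans ?_
    rw [gronwallBound_of_K_ne_0 hK0'.ne']
    simp only [zero_mul, zero_add, sub_zero]
    have h5 : Real.exp (K * t) ≤ M := Real.exp_le_exp.2 (mul_le_mul_of_nonneg_left ht.2 hK0'.le)
    calc c * K / (M * M) * (M * ‖y - z‖) / K * (Real.exp (K * t) - 1)
        ≤ c * K / (M * M) * (M * ‖y - z‖) / K * M := by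
          gcongr; linarith
      _ = c * ‖y - z‖ := by field_simp
  · -- determinant
    let d : ℝ → ℝ := fun t => (A t 1).re * (A t I).im - (A t 1).im * (A t I).re
    have hd : ∀ t ∈ Ico 0 T, HasDerivAt d 0 t := by
      intro t ht
      have hX : φ 0 t x ∈ ball (0:ℂ) 1 := hF.mem_ball h 0 t hx
      have htr := h.tr t (Ico_subset_Icc_self ht) _ hX
      rw [← extB_eq (B := B) (Ico_subset_Icc_self ht) (ball_subset_closedBall hX)] at htr
      set E := extB T B t (φ 0 t x) with hE
      have h1 := hAv 1 t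
      have h2 := hAv I t
      have h1r : HasDerivAt (fun t => (A t 1).re) (E (A t 1)).re t :=
        (Complex.reCLM.hasFDerivAt.comp_hasDerivAt t h1)
      have h1i : HasDerivAt (fun t => (A t 1).im) (E (A t 1)).im t :=
        (Complex.imCLM.hasFDerivAt.comp_hasDerivAt t h1)
      have h2r : HasDerivAt (fun t => (A t I).re) (E (A t I)).re t :=
        (Complex.reCLM.hasFDerivAt.comp_hasDerivAt t h2)
      have h2i : HasDerivAt (fun t => (A t I).im) (E (A t I)).im t :=
        (Complex.imCLM.hasFDerivAt.comp_hasDerivAt t h2)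
      have h3 := (h1r.mul h2i).sub (h1i.mul h2r)
      have h4 : ((E ((A t) 1)).re * ((A t) I).im + ((A t) 1).re * (E ((A t) I)).im -
          ((E ((A t) 1)).im * ((A t) I).re + ((A t) 1).im * (E ((A t) I)).re)) = 0 := by
        rw [clm_apply' E (A t 1), clm_apply' E (A t I)]
        simp only [Complex.add_re, Complex.add_im, Complex.real_smul, Complex.re_ofReal_mul,
          Complex.im_ofReal_mul]
        linear_combination ((A t 1).re * (A t I).im - (A t 1).im * (A t I).re) * htr
      rw [h4] at h3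
      exact h3
    intro t ht
    have h1 := constant_of_has_deriv_right_zero (f := d) (a := 0) (b := T) (by
      have : Continuous d := by
        have c1 : ∀ v, Continuous (fun t => A t v) := fun v =>
          continuous_iff_continuousAt.2 fun t => (hAv v t).continuousAt
        have := c1 1
        have := c1 I
        fun_prop
      exact this.continuousOn) (fun s hs => (hd s hs).hasDerivWithinAt) t ht
    rw [clm_det]
    show d t = 1
    rw [h1]
    simp [d, hA0]

end Run7.h148
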