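import Pool.Agent.Run7.h148.Flow2

set_option autoImplicit false

open Metric Set MeasureTheory Filter Topology Complex

namespace Run7.h148

variable {T : ℝ} {U : ℝ → ℂ → ℂ} {B : ℝ → ℂ → ℂ →L[ℝ] ℂ} {φ : ℝ → ℝ → ℂ → ℂ}

/-- Lebesgue measure on the open unit disc -/
noncomputable abbrev mu : Measure ℂ := volume.restrict (ball (0:ℂ) 1)

instance : IsFiniteMeasure mu := by
  unfold mu
  exact isFiniteMeasure_restrict.2 (measure_ball_lt_top).ne

lemma Flw.cont1 (hF : Flw T U φ) (h : Fld T U B) (s t : ℝ) : Continuous (φ s t) := by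
  have := hF.cont h s
  have h2 : Continuous (fun x : ℂ => (t, x)) := by fun_prop
  exact this.comp h2

theorem Flw.mp (hF : Flw T U φ) (h : Fld T U B) {t : ℝ} (ht : t ∈ Icc 0 T) :
    MeasurePreserving (φ 0 t) mu mu := by
  refine ⟨(hF.cont1 h 0 t).measurable, ?_⟩
  ext s hs
  rw [Measure.map_apply (hF.cont1 h 0 t).measurable hs]
  have hm : MeasurableSet (φ 0 t ⁻¹' s) := (hF.cont1 h 0 t).measurable hs
  rw [Measure.restrict_apply hm, Measure.restrict_apply hs]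
  have hA := fun x (hx : x ∈ ball (0:ℂ) 1) => hF.exists_fderiv h hx
  choose! A hA1 hA2 using hA
  have h1 := lintegral_abs_det_fderiv_eq_addHaar_image (volume : Measure ℂ)
    (s := φ 0 t ⁻¹' s ∩ ball 0 1) (f := φ 0 t) (f' := fun x => A x t)
    (hm.inter measurableSet_ball)
    (fun x hx => (hA1 x hx.2 t ht).hasFDerivAt.hasFDerivWithinAt)
    (fun x _ y _ hxy => by
      have := congrArg (φ t 0) hxy
      rwa [hF.inv h, hF.inv h] at this)
  have h2 : ∫⁻ x in φ 0 t ⁻¹' s ∩ ball 0 1, ENNReal.ofReal |(A x t).det| =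
      ∫⁻ x in φ 0 t ⁻¹' s ∩ ball 0 1, 1 := by
    refine setLIntegral_congr_fun (hm.inter measurableSet_ball) (fun x hx => ?_)
    simp only [hA2 x hx.2 t ht]
    simp
  rw [h2, setLIntegral_one] at h1
  rw [h1]
  congr 1
  ext y
  constructor
  · rintro ⟨x, ⟨hx1, hx2⟩, rfl⟩
    exact ⟨hx1, hF.mem_ball h 0 t hx2⟩
  · rintro ⟨hy1, hy2⟩
    refine ⟨φ t 0 y, ⟨?_, hF.mem_ball h t 0 hy2⟩, hF.inv h t 0 y⟩
    show φ 0 t (φ t 0 y) ∈ s
    rw [hF.inv h t 0 y]
    exact hy1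

end Run7.h148
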