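import Pool.Agent.Run7.h148.Div
import Pool.Agent.Run7.h148.Flow3

set_option autoImplicit false

open Metric Set MeasureTheory Filter Topology Complex

namespace Run7.h148

/-- the functional `v ↦ ⟨g, v⟩` -/
noncomputable def dl (g : ℂ) : ℂ →L[ℝ] ℝ := g.re • reCLM + g.im • imCLM

@[simp] lemma dl_apply (g v : ℂ) : dl g v = g.re * v.re + g.im * v.im := by
  simp [dl]

lemma continuous_dl : Continuous dl := by
  unfold dl
  fun_prop

/-- the bilinear form `⟨S g, k⟩`, `S = diag (s₁, s₂)` -/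
noncomputable def sb (s1 s2 : ℝ) (g k : ℂ) : ℝ := s1 * (g.re * k.re) + s2 * (g.im * k.im)

/-- the operator `div (S ∇)` in terms of the Hessian -/
noncomputable def Lop (s1 s2 : ℝ) (H : ℂ →L[ℝ] ℂ) : ℝ := s1 * (H 1).re + s2 * (H I).im

/-- `ψ` is a `C²` function on the closed disc, with gradient `g` and Hessian `H`, vanishing on the circle -/
structure C2 (ψ : ℂ → ℝ) (g : ℂ → ℂ) (H : ℂ → ℂ →L[ℝ] ℂ) : Prop where
  hψ : ∀ z ∈ DD, HasFDerivWithinAt ψ (dl (g z)) DD z
  hg : ∀ z ∈ DD, HasFDerivWithinAt g (H z) DD z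
  cH : ContinuousOn H DD
  bd : ∀ z : ℂ, ‖z‖ = 1 → ψ z = 0

variable {ψ : ℂ → ℝ} {g : ℂ → ℂ} {H : ℂ → ℂ →L[ℝ] ℂ}

lemma C2.cψ (h : C2 ψ g H) : ContinuousOn ψ DD := fun z hz => (h.hψ z hz).continuousWithinAt
lemma C2.cg (h : C2 ψ g H) : ContinuousOn g DD := fun z hz => (h.hg z hz).continuousWithinAt

lemma intOn_of_contOn {E : Type*} [NormedAddCommGroup E] {ρ : ℝ} {f : ℂ → E} (hf : ContinuousOn f (closedBall (0:ℂ) ρ)) :
    IntegrableOn f (ball (0:ℂ) ρ) :=
  (hf.integrableOn_compact (isCompact_closedBall _ _)).mono_set ball_subset_closedBall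

theorem green (h : C2 ψ g H) (s1 s2 : ℝ) {ρ : ℝ} (hρ : 0 < ρ) (hρ1 : ρ ≤ 1) {χ : ℂ → ℝ} {k : ℂ → ℂ}
    (hχ : ∀ z ∈ closedBall (0:ℂ) ρ, HasFDerivWithinAt χ (dl (k z)) (closedBall 0 ρ) z)
    (ck : ContinuousOn k (closedBall 0 ρ)) (hχ0 : ∀ z : ℂ, ‖z‖ = ρ → χ z = 0) :
    ∫ z in ball (0:ℂ) ρ, sb s1 s2 (g z) (k z) = - ∫ z in ball (0:ℂ) ρ, χ z * Lop s1 s2 (H z) := by
  have hsub : closedBall (0:ℂ) ρ ⊆ DD := closedBall_subset_closedBall hρ1
  have cχ : ContinuousOn χ (closedBall 0 ρ) := fun z hz => (hχ z hz).continuousWithinAt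
  have cg := h.cg.mono hsub
  have cH := h.cH.mono hsub
  have key : ∀ (e : ℂ →L[ℝ] ℝ) (v : ℂ),
      ∫ z in ball (0:ℂ) ρ, (χ z * e (H z v) + e (g z) * dl (k z) v) = 0 := by
    intro e v
    have hd : ∀ z ∈ closedBall (0:ℂ) ρ, HasFDerivWithinAt (fun z => χ z * e (g z))
        (χ z • (e.comp (H z)) + e (g z) • dl (k z)) (closedBall 0 ρ) z := by
      intro z hz
      have h1 := hχ z hz
      have h2 : HasFDerivWithinAt (fun z => e (g z)) (e.comp (H z)) (closedBall 0 ρ) z :=
        e.hasFDerivAt.comp_hasFDerivWithinAt z ((h.hg z (hsub hz)).mono hsub)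
      exact h1.mul h2
    have hcont : ContinuousOn (fun z => χ z • (e.comp (H z)) + e (g z) • dl (k z))
        (closedBall 0 ρ) := by
      have c1 : ContinuousOn (fun z => e.comp (H z)) (closedBall 0 ρ) :=
        continuousOn_const.clm_comp cH
      have c2 : ContinuousOn (fun z => e (g z)) (closedBall 0 ρ) :=
        e.continuous.comp_continuousOn cg
      have c3 : ContinuousOn (fun z => dl (k z)) (closedBall 0 ρ) :=
        continuous_dl.comp_continuousOn ck
      exact (cχ.smul c1).add (c2.smul c3)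
    obtain ⟨C, hC⟩ := (isCompact_closedBall (0:ℂ) ρ).exists_bound_of_continuousOn hcont
    have := integral_fderiv_eq_zero hρ hd (fun z hz => by rw [hχ0 z hz, zero_mul]) hC v
    simpa using this
  have k1 := key reCLM 1
  have k2 := key imCLM I
  simp only [reCLM_apply, imCLM_apply, dl_apply, one_re, one_im, I_re, I_im, mul_one, mul_zero,
    add_zero, zero_add] at k1 k2
  have cH1 : ContinuousOn (fun z => (H z 1).re) (closedBall 0 ρ) :=
    Complex.continuous_re.comp_continuousOn (cH.clm_apply continuousOn_const)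
  have cH2 : ContinuousOn (fun z => (H z I).im) (closedBall 0 ρ) :=
    Complex.continuous_im.comp_continuousOn (cH.clm_apply continuousOn_const)
  have i1 : IntegrableOn (fun z => χ z * (H z 1).re + (g z).re * (k z).re) (ball 0 ρ) :=
    intOn_of_contOn ((cχ.mul cH1).add ((Complex.continuous_re.comp_continuousOn cg).mul
      (Complex.continuous_re.comp_continuousOn ck)))
  have i2 : IntegrableOn (fun z => χ z * (H z I).im + (g z).im * (k z).im) (ball 0 ρ) :=
    intOn_of_contOn ((cχ.mul cH2).add ((Complex.continuous_im.comp_continuousOn cg).mul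
      (Complex.continuous_im.comp_continuousOn ck)))
  have i3 : IntegrableOn (fun z => sb s1 s2 (g z) (k z)) (ball 0 ρ) := by
    apply intOn_of_contOn
    unfold sb
    have a1 := Complex.continuous_re.comp_continuousOn cg
    have a2 := Complex.continuous_re.comp_continuousOn ck
    have a3 := Complex.continuous_im.comp_continuousOn cg
    have a4 := Complex.continuous_im.comp_continuousOn ck
    exact ((a1.mul a2).const_smul s1).add ((a3.mul a4).const_smul s2)
  have i4 : IntegrableOn (fun z => χ z * Lop s1 s2 (H z)) (ball 0 ρ) := by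
    apply intOn_of_contOn
    unfold Lop
    exact cχ.mul ((cH1.const_smul s1).add (cH2.const_smul s2))
  have e1 : ∫ z in ball (0:ℂ) ρ, (sb s1 s2 (g z) (k z) + χ z * Lop s1 s2 (H z)) = 0 := by
    have : ∀ z, sb s1 s2 (g z) (k z) + χ z * Lop s1 s2 (H z) =
        s1 * (χ z * (H z 1).re + (g z).re * (k z).re) +
        s2 * (χ z * (H z I).im + (g z).im * (k z).im) := by
      intro z; unfold sb Lop; ring
    simp only [this]
    rw [integral_add (i1.const_mul s1) (i2.const_mul s2), integral_const_mul, integral_const_mul,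
      k1, k2]
    simp
  rw [integral_add i3 i4] at e1
  linarith

end Run7.h148
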