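import Mathlib

set_option autoImplicit false

open Metric Set Filter Topology

namespace Run7.h148

/-- uniform Hölder bound for lacunary sums -/
lemma holder_sum {X E : Type*} [PseudoMetricSpace X] [SeminormedAddCommGroup E] {ρ θ A : ℝ}
    (hρ : 0 < ρ) (hρ1 : ρ < 1)
    (hθ : 0 < θ) (hθ1 : θ < 1) (hA : 0 ≤ A) {F : ℕ → X → E}
    (h1 : ∀ i x, ‖F i x‖ ≤ A * (ρ ^ θ) ^ i)
    (h2 : ∀ i x y, ‖F i x - F i y‖ ≤ A * (ρ ^ θ) ^ i * (dist x y / ρ ^ i)) (N : ℕ) (x y : X) :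
    ‖∑ i ∈ Finset.range N, F i x - ∑ i ∈ Finset.range N, F i y‖ ≤
      A * (1 / (1 - ρ ^ (1 - θ)) + 2 / (1 - ρ ^ θ)) * dist x y ^ θ := by
  have hρθ : ρ ^ θ < 1 := Real.rpow_lt_one hρ.le hρ1 hθ
  have hρθ0 : 0 < ρ ^ θ := Real.rpow_pos_of_pos hρ _
  have hγ : ρ ^ (1 - θ) < 1 := Real.rpow_lt_one hρ.le hρ1 (by linarith)
  have hγ0 : 0 < ρ ^ (1 - θ) := Real.rpow_pos_of_pos hρ _
  rcases (dist_nonneg (x := x) (y := y)).eq_or_lt with hd | hd
  · have : ∀ i, ‖F i x - F i y‖ = 0 := by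
      intro i
      have := h2 i x y
      rw [← hd, zero_div, mul_zero] at this
      exact le_antisymm this (norm_nonneg _)
    rw [← Finset.sum_sub_distrib]
    calc ‖∑ i ∈ Finset.range N, (F i x - F i y)‖ ≤ ∑ i ∈ Finset.range N, ‖F i x - F i y‖ :=
          norm_sum_le _ _
      _ = 0 := Finset.sum_eq_zero fun i _ => this i
      _ ≤ _ := by
        have : 0 < 1 - ρ ^ (1 - θ) := by linarith
        have : 0 < 1 - ρ ^ θ := by linarith
        positivity
  set d := dist x y with hdd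
  -- the least k with ρ ^ k ≤ d
  have hex : ∃ k : ℕ, ρ ^ k ≤ d := (exists_pow_lt_of_lt_one hd hρ1).imp fun k hk => hk.le
  classical
  set k := Nat.find hex with hk
  have hk1 : ρ ^ k ≤ d := Nat.find_spec hex
  have hk2 : ∀ i < k, d < ρ ^ i := fun i hi => not_le.1 (Nat.find_min hex hi)
  let w : ℕ → ℝ := fun i => if i < k then (ρ ^ (1 - θ)) ^ (k - 1 - i) else 2 * (ρ ^ θ) ^ (i - k)
  have hpow : ∀ (i : ℕ) (a : ℝ), (ρ ^ a) ^ i = (ρ ^ i) ^ a := by
    intro i a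
    rw [← Real.rpow_natCast (ρ ^ a) i, ← Real.rpow_mul hρ.le, mul_comm, Real.rpow_mul hρ.le,
      Real.rpow_natCast]
  have hw0 : ∀ i, 0 ≤ w i := by
    intro i; simp only [w]; split_ifs <;> positivity
  have key : ∀ i, ‖F i x - F i y‖ ≤ A * d ^ θ * w i := by
    intro i
    by_cases hi : i < k
    · simp only [w, if_pos hi]
      refine (h2 i x y).trans ?_
      have hρi : 0 < ρ ^ i := by positivity
      have e1 : d / ρ ^ i ≤ ρ ^ (k - 1 - i) := by
        rw [div_le_iff₀ hρi, ← pow_add]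
        have : k - 1 - i + i = k - 1 := by omega
        rw [this]
        exact (hk2 (k - 1) (by omega)).le
      have hd0 : 0 ≤ d / ρ ^ i := by positivity
      have e2 : (ρ ^ θ) ^ i * (d / ρ ^ i) = d ^ θ * (d / ρ ^ i) ^ (1 - θ) := by
        rw [hpow, Real.div_rpow hd.le hρi.le, Real.rpow_sub hd, Real.rpow_sub hρi, Real.rpow_one,
          Real.rpow_one]
        have : (ρ ^ i) ^ θ ≠ 0 := (Real.rpow_pos_of_pos hρi _).ne'
        have : d ^ θ ≠ 0 := (Real.rpow_pos_of_pos hd _).ne'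
        field_simp
      have e3 : (d / ρ ^ i) ^ (1 - θ) ≤ (ρ ^ (1 - θ)) ^ (k - 1 - i) := by
        rw [hpow]
        exact Real.rpow_le_rpow hd0 e1 (by linarith)
      calc A * (ρ ^ θ) ^ i * (d / ρ ^ i) = A * (d ^ θ * (d / ρ ^ i) ^ (1 - θ)) := by
            rw [← e2]; ring
        _ ≤ A * (d ^ θ * (ρ ^ (1 - θ)) ^ (k - 1 - i)) := by gcongr
        _ = _ := by ring
    · simp only [w, if_neg hi]
      push Not at hi
      have e1 : ρ ^ i ≤ ρ ^ (i - k) * d := by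
        calc ρ ^ i = ρ ^ (i - k) * ρ ^ k := by rw [← pow_add]; congr 1; omega
          _ ≤ _ := by gcongr
      have e2 : (ρ ^ θ) ^ i ≤ (ρ ^ θ) ^ (i - k) * d ^ θ := by
        rw [hpow, hpow, ← Real.mul_rpow (by positivity) hd.le]
        exact Real.rpow_le_rpow (by positivity) e1 hθ.le
      calc ‖F i x - F i y‖ ≤ ‖F i x‖ + ‖F i y‖ := norm_sub_le _ _
        _ ≤ A * (ρ ^ θ) ^ i + A * (ρ ^ θ) ^ i := add_le_add (h1 i x) (h1 i y)
        _ = 2 * A * (ρ ^ θ) ^ i := by ring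
        _ ≤ 2 * A * ((ρ ^ θ) ^ (i - k) * d ^ θ) := by gcongr
        _ = _ := by ring
  have hgeo : ∀ (q : ℝ), 0 < q → q < 1 → ∀ n : ℕ, ∑ i ∈ Finset.range n, q ^ i ≤ 1 / (1 - q) := by
    intro q hq0 hq1 n
    have hs := summable_geometric_of_lt_one hq0.le hq1
    have := hs.sum_le_tsum (Finset.range n) (fun i _ => by positivity)
    rwa [tsum_geometric_of_lt_one hq0.le hq1, ← one_div] at this
  have hsum : ∑ i ∈ Finset.range N, w i ≤ 1 / (1 - ρ ^ (1 - θ)) + 2 / (1 - ρ ^ θ) := by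
    calc ∑ i ∈ Finset.range N, w i ≤ ∑ i ∈ Finset.range (k + N), w i :=
          Finset.sum_le_sum_of_subset_of_nonneg (Finset.range_mono (by omega)) (fun i _ _ => hw0 i)
      _ = ∑ i ∈ Finset.range k, w i + ∑ i ∈ Finset.range N, w (k + i) := Finset.sum_range_add _ _ _
      _ = ∑ i ∈ Finset.range k, (ρ ^ (1 - θ)) ^ (k - 1 - i) +
          2 * ∑ i ∈ Finset.range N, (ρ ^ θ) ^ i := by
          congr 1
          · refine Finset.sum_congr rfl fun i hi => ?_
            simp only [w, if_pos (Finset.mem_range.1 hi)]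
          · rw [Finset.mul_sum]
            refine Finset.sum_congr rfl fun i _ => ?_
            simp only [w]
            rw [if_neg (by omega)]
            congr 2; omega
      _ = ∑ i ∈ Finset.range k, (ρ ^ (1 - θ)) ^ i + 2 * ∑ i ∈ Finset.range N, (ρ ^ θ) ^ i := by
          rw [Finset.sum_range_reflect (fun i => (ρ ^ (1 - θ)) ^ i) k]
      _ ≤ 1 / (1 - ρ ^ (1 - θ)) + 2 * (1 / (1 - ρ ^ θ)) := by
          gcongr
          · exact hgeo _ hγ0 hγ _
          · exact hgeo _ hρθ0 hρθ _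
      _ = _ := by ring
  rw [← Finset.sum_sub_distrib]
  calc ‖∑ i ∈ Finset.range N, (F i x - F i y)‖ ≤ ∑ i ∈ Finset.range N, ‖F i x - F i y‖ :=
        norm_sum_le _ _
    _ ≤ ∑ i ∈ Finset.range N, A * d ^ θ * w i := Finset.sum_le_sum fun i _ => key i
    _ = A * d ^ θ * ∑ i ∈ Finset.range N, w i := by rw [Finset.mul_sum]
    _ ≤ A * d ^ θ * (1 / (1 - ρ ^ (1 - θ)) + 2 / (1 - ρ ^ θ)) := by gcongr
    _ = _ := by ring

end Run7.h148
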