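import Pool.Agent.Run7.h148.Wind

set_option autoImplicit false

open Metric Set MeasureTheory Filter Topology Complex

namespace Run7.h148

lemma integrable_of_bdd {α : Type*} [MeasurableSpace α] {μ : Measure α} [IsFiniteMeasure μ]
    {F : α → ℝ} (hF : AEStronglyMeasurable F μ) {C : ℝ} (hC : ∀ᵐ p ∂μ, |F p| ≤ C) : Integrable F μ :=
  Integrable.of_bound hF C (by simpa [Real.norm_eq_abs] using hC)

lemma fubini3 {F : ℝ → ℂ → ℂ → ℝ} (hF : Measurable (fun p : ℝ × ℂ × ℂ => F p.1 p.2.1 p.2.2))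
    {C : ℝ} (hC : ∀ s x y, |F s x y| ≤ C) {t : ℝ} (ht : 0 ≤ t) :
    ∫ x, (∫ y, (∫ s in (0:ℝ)..t, F s x y) ∂mu) ∂mu = ∫ s in (0:ℝ)..t, (∫ x, (∫ y, F s x y ∂mu) ∂mu) := by
  simp only [intervalIntegral.integral_of_le ht]
  have hG : Measurable (fun q : (ℂ × ℂ) × ℝ => F q.2 q.1.1 q.1.2) := by
    have : Measurable (fun q : (ℂ × ℂ) × ℝ => (q.2, q.1.1, q.1.2)) := by fun_prop
    exact hF.comp this
  have hGi : Integrable (fun q : (ℂ × ℂ) × ℝ => F q.2 q.1.1 q.1.2)
      ((mu.prod mu).prod (volume.restrict (Ioc 0 t))) :=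
    integrable_of_bdd hG.aestronglyMeasurable (C := C) (Filter.Eventually.of_forall fun q => hC _ _ _)
  have e1 : ∀ s, ∫ x, (∫ y, F s x y ∂mu) ∂mu = ∫ p, F s p.1 p.2 ∂(mu.prod mu) := by
    intro s
    rw [integral_prod]
    refine integrable_of_bdd ?_ (C := C) (Filter.Eventually.of_forall fun q => hC _ _ _)
    have : Measurable (fun q : ℂ × ℂ => (s, q.1, q.2)) := by fun_prop
    exact (hF.comp this).aestronglyMeasurable
  simp only [e1]
  have e2 := integral_integral_swap (f := fun (p : ℂ × ℂ) (s : ℝ) => F s p.1 p.2)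
    (μ := mu.prod mu) (ν := volume.restrict (Ioc 0 t)) hGi
  rw [← e2, integral_prod]
  exact hGi.integral_prod_left

variable {T : ℝ} {U : ℝ → ℂ → ℂ} {B : ℝ → ℂ → ℂ →L[ℝ] ℂ} {φ : ℝ → ℝ → ℂ → ℂ}

/-- total winding around the particle starting at `x` -/
noncomputable def VV (T : ℝ) (U : ℝ → ℂ → ℂ) (φ : ℝ → ℝ → ℂ → ℂ) (t : ℝ) (x : ℂ) : ℝ :=
  ∫ y, (ZZ T U φ t x y).im ∂mu

lemma Flw.ZZ_meas (hF : Flw T U φ) (h : Fld T U B) {t : ℝ} (ht : 0 ≤ t) :
    StronglyMeasurable (fun p : ℂ × ℂ => ZZ T U φ t p.1 p.2) := by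
  have h1 : StronglyMeasurable (fun q : (ℂ × ℂ) × ℝ => kz T U φ q.2 q.1.1 q.1.2) := by
    have : Measurable (fun q : (ℂ × ℂ) × ℝ => (q.2, q.1.1, q.1.2)) := by fun_prop
    exact ((hF.kz_meas h).comp this).stronglyMeasurable
  have h2 := h1.integral_prod_right' (ν := volume.restrict (Ioc 0 t))
  unfold ZZ
  simp only [intervalIntegral.integral_of_le ht]
  exact h2

lemma Flw.ZZ_im (hF : Flw T U φ) (h : Fld T U B) (t : ℝ) (x y : ℂ) :
    (ZZ T U φ t x y).im = ∫ s in (0:ℝ)..t, (kz T U φ s x y).im := by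
  obtain ⟨K, hK0, hK⟩ := h.bound
  have hm : Measurable (fun s : ℝ => kz T U φ s x y) := by
    have : Measurable (fun s : ℝ => (s, x, y)) := by fun_prop
    exact (hF.kz_meas h).comp this
  have hi : IntervalIntegrable (fun s => kz T U φ s x y) volume 0 t := by
    refine (intervalIntegrable_const (c := (K:ℝ))).mono_fun hm.aestronglyMeasurable ?_
    refine Filter.Eventually.of_forall fun s => ?_
    have h1 := kz_bound (φ := φ) h hK s x y
    have h2 : ‖(K:ℝ)‖ = K := by rw [Real.norm_eq_abs]; exact abs_of_nonneg (NNReal.coe_nonneg K)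
    exact h1.trans h2.ge
  exact (Complex.imCLM.intervalIntegral_comp_comm hi).symm

lemma Flw.ZZ_im_bound (hF : Flw T U φ) (h : Fld T U B) {K : NNReal} (hK : ∀ t z, ‖extB T B t z‖ ≤ K)
    {t : ℝ} (ht : 0 ≤ t) (x y : ℂ) :
    |(ZZ T U φ t x y).im| ≤ K * t := by
  rw [hF.ZZ_im h]
  have := intervalIntegral.norm_integral_le_of_norm_le_const (a := 0) (b := t)
    (f := fun s => (kz T U φ s x y).im) (C := K) (fun s _ => by
      rw [Real.norm_eq_abs]
      exact (Complex.abs_im_le_norm _).trans (kz_bound h hK s x y))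
  rw [sub_zero, abs_of_nonneg ht] at this
  exact this

lemma Flw.ZZ_im_int (hF : Flw T U φ) (h : Fld T U B) {t : ℝ} (ht : 0 ≤ t) (x : ℂ) :
    Integrable (fun y => (ZZ T U φ t x y).im) mu := by
  obtain ⟨K, hK0, hK⟩ := h.bound
  refine integrable_of_bdd ?_ (C := K * t) (Filter.Eventually.of_forall fun y => hF.ZZ_im_bound h hK ht x y)
  have : Measurable (fun y : ℂ => (x, y)) := by fun_prop
  exact (Complex.measurable_im.comp ((hF.ZZ_meas h ht).measurable.comp this)).aestronglyMeasurable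

lemma Flw.VV_meas (hF : Flw T U φ) (h : Fld T U B) {t : ℝ} (ht : 0 ≤ t) :
    StronglyMeasurable (VV T U φ t) := by
  have h1 : StronglyMeasurable (fun p : ℂ × ℂ => (ZZ T U φ t p.1 p.2).im) :=
    (Complex.measurable_im.comp (hF.ZZ_meas h ht).measurable).stronglyMeasurable
  exact h1.integral_prod_right'

lemma mu_univ : mu.real univ = Real.pi := by
  rw [Measure.real, Measure.restrict_apply_univ, Complex.volume_ball]
  simp

/-- if the flow and its inverse are `L`-Lipschitz, the weighted winding is at most `C (L² + 1)` -/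
theorem J_bound : ∃ C₁ : ℝ, 0 < C₁ ∧ ∀ {T : ℝ} {U : ℝ → ℂ → ℂ} {B : ℝ → ℂ → ℂ →L[ℝ] ℂ}
    {φ : ℝ → ℝ → ℂ → ℂ} (_ : Flw T U φ) (_ : Fld T U B) {t L : ℝ} (_ : 0 ≤ t) (_ : 0 < L)
    (_ : ∀ x ∈ DD, ∀ y ∈ DD, ‖φ 0 t x - φ 0 t y‖ ≤ L * ‖x - y‖)
    (_ : ∀ x ∈ DD, ∀ y ∈ DD, ‖x - y‖ ≤ L * ‖φ 0 t x - φ 0 t y‖)
    {f : ℂ → ℝ} (_ : AEStronglyMeasurable f mu) {M : ℝ} (_ : ∀ x ∈ ball (0:ℂ) 1, |f x| ≤ M)
    (_ : ∫ x, f x ∂mu = 0), ∫ x, f x * VV T U φ t x ∂mu ≤ M * ((L ^ 2 + 1) * C₁) := by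
  obtain ⟨C, hC0, hC⟩ := exists_sing_bound
  refine ⟨(Real.pi * Real.pi + 4 * C) * Real.pi, by positivity, ?_⟩
  intro T U B φ hF h t L ht hL hL1 hL2 f hf M hM hf0
  obtain ⟨K, hK0, hK⟩ := h.bound
  set w0 : ℝ := (ZZ T U φ t (-1) 1).im with hw0
  have hM0 : 0 ≤ M := (abs_nonneg _).trans (hM 0 (by simp))
  have hVb : ∀ x ∈ ball (0:ℂ) 1, |VV T U φ t x - Real.pi * w0| ≤ (L ^ 2 + 1) * (Real.pi * Real.pi + 4 * C) := by
    intro x hx
    have hxD : x ∈ DD := ball_subset_closedBall hx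
    obtain ⟨hi, hb⟩ := hC x hxD
    have e1 : VV T U φ t x - Real.pi * w0 = ∫ y, ((ZZ T U φ t x y).im - w0) ∂mu := by
      rw [integral_sub (hF.ZZ_im_int h ht x) (integrable_const _), integral_const, smul_eq_mul,
        mu_univ, VV]
    rw [e1]
    have hi2 : Integrable (fun y => (L ^ 2 + 1) * (Real.pi + 4 * (1 / ‖y - x‖))) mu :=
      ((integrable_const _).add (hi.const_mul 4)).const_mul _
    have e2 : ‖∫ y, ((ZZ T U φ t x y).im - w0) ∂mu‖ ≤
        ∫ y, (L ^ 2 + 1) * (Real.pi + 4 * (1 / ‖y - x‖)) ∂mu := by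
      refine norm_integral_le_of_norm_le hi2 ?_
      have hne : ∀ᵐ y ∂mu, y ≠ x := by
        apply ae_restrict_of_ae
        exact Measure.ae_ne volume x
      filter_upwards [hne, ae_restrict_mem measurableSet_ball] with y hy1 hy2
      have e3 := hF.ZZ_bound h hL hL1 hL2 hxD (ball_subset_closedBall hy2) hy1.symm
      rw [Real.norm_eq_abs, hw0, ← Complex.sub_im]
      exact (Complex.abs_im_le_norm _).trans e3
    refine e2.trans ?_
    rw [integral_const_mul, integral_add (integrable_const _) (hi.const_mul 4), integral_const,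
      integral_const_mul, mu_univ, smul_eq_mul]
    gcongr
  have hVm := (hF.VV_meas h ht).aestronglyMeasurable (μ := mu)
  have hVb' : ∀ x, |VV T U φ t x| ≤ K * t * Real.pi := by
    intro x
    unfold VV
    have := norm_integral_le_of_norm_le_const (μ := mu) (f := fun y => (ZZ T U φ t x y).im)
      (C := K * t) (Filter.Eventually.of_forall fun y => hF.ZZ_im_bound h hK ht x y)
    rwa [mu_univ] at this
  have hi1 : Integrable (fun x => f x * VV T U φ t x) mu := by
    refine integrable_of_bdd (hf.mul hVm) (C := M * (K * t * Real.pi)) ?_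
    filter_upwards [ae_restrict_mem measurableSet_ball] with x hx
    rw [abs_mul]
    exact mul_le_mul (hM x hx) (hVb' x) (abs_nonneg _) hM0
  have hif : Integrable f mu := by
    refine integrable_of_bdd hf (C := M) ?_
    filter_upwards [ae_restrict_mem measurableSet_ball] with x hx using hM x hx
  have e1 : ∫ x, f x * VV T U φ t x ∂mu = ∫ x, f x * (VV T U φ t x - Real.pi * w0) ∂mu := by
    simp only [mul_sub]
    rw [integral_sub hi1 (hif.mul_const _), integral_mul_const, hf0, zero_mul, sub_zero]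
  rw [e1]
  refine (le_abs_self _).trans ?_
  have := norm_integral_le_of_norm_le_const (μ := mu)
    (f := fun x => f x * (VV T U φ t x - Real.pi * w0))
    (C := M * ((L ^ 2 + 1) * (Real.pi * Real.pi + 4 * C))) (by
      filter_upwards [ae_restrict_mem measurableSet_ball] with x hx
      rw [norm_mul]
      exact mul_le_mul (hM x hx) (hVb x hx) (norm_nonneg _) hM0)
  rw [mu_univ] at this
  refine this.trans (le_of_eq ?_)
  ring

end Run7.h148
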