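import Pool.Agent.Run7.h148.Sol
import Pool.Agent.Run7.h148.Jb

set_option autoImplicit false

open Metric Set MeasureTheory Filter Topology Complex

namespace Run7.h148

variable {s1 s2 κ T : ℝ} {ψ : ℝ → ℂ → ℝ} {g : ℝ → ℂ → ℂ} {H : ℝ → ℂ → ℂ →L[ℝ] ℂ}
variable {φ : ℝ → ℝ → ℂ → ℂ}

/-- mean vorticity -/
noncomputable def mean (s1 s2 : ℝ) (H : ℂ → ℂ →L[ℝ] ℂ) : ℝ := Real.pi⁻¹ * ∫ z, vo s1 s2 H z ∂mu

lemma DSol.int_vo (h : DSol s1 s2 κ T ψ g H) {t : ℝ} (ht : t ∈ Icc 0 T) :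
    ∫ z, vo s1 s2 (H t) z ∂mu = Real.pi * mean s1 s2 (H 0) := by
  obtain ⟨φ, hF⟩ := h.fld.exists_flow
  rw [mean, ← mul_assoc, mul_inv_cancel₀ Real.pi_ne_zero, one_mul, ← hF.integral_comp' h.fld ht]
  exact setIntegral_congr_fun measurableSet_ball fun x hx =>
    h.tr φ hF t ht x (ball_subset_closedBall hx)

/-- the integral of the vorticity fluctuation -/
lemma DSol.int_vo_sub (h : DSol s1 s2 κ T ψ g H) {t : ℝ} (ht : t ∈ Icc 0 T) :
    ∫ z, (vo s1 s2 (H t) z - mean s1 s2 (H 0)) ∂mu = 0 := by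
  rw [integral_sub (intOn_of_contOn (h.cvo ht)) (integrable_const _), h.int_vo ht, integral_const,
    mu_univ, smul_eq_mul, sub_self]

/-- rate of change of the weighted winding -/
noncomputable def jr (s1 s2 κ m : ℝ) (ψ : ℂ → ℝ) (g : ℂ → ℂ) (H : ℂ → ℂ →L[ℝ] ℂ) : ℝ :=
  ∫ x, (vo s1 s2 H x - m) * (κ * (- 2 * Real.pi * ψ x + Real.pi * dl (g x) x)) ∂mu

/-- lower bound for the rate of change -/
lemma C2.jr_lower {ψ : ℂ → ℝ} {g : ℂ → ℂ} {H : ℂ → ℂ →L[ℝ] ℂ} (h : C2 ψ g H) (h1 : 0 < s1)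
    (h2 : 0 < s2) (hκ : 0 < κ) {m : ℝ} (hm : ∫ x, (vo s1 s2 H x - m) ∂mu = 0) :
    2 * Real.pi * κ * En s1 s2 (fun z => g z - ((m / (s1 + s2) : ℝ) : ℂ) * z) ≤ jr s1 s2 κ m ψ g H := by
  set c : ℝ := m / (s1 + s2) with hc
  have hs : s1 + s2 ≠ 0 := by positivity
  have h' := h.sub (C2_quad c)
  have hL : ∀ z, Lop s1 s2 (H z - (c : ℂ) • ContinuousLinearMap.id ℝ ℂ) = vo s1 s2 H z - m := by
    intro z
    rw [Lop_sub, vo]
    congr 1
    simp only [Lop, smul_apply, ContinuousLinearMap.id_apply, smul_eq_mul, mul_one,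
      Complex.ofReal_re, Complex.mul_im, Complex.I_re, Complex.I_im, Complex.ofReal_im]
    rw [hc]; field_simp; ring
  have p1 := poho h' h1 h2
  have p2 := h'.energy s1 s2
  simp only [hL] at p1 p2
  have cw : ContinuousOn (fun x => vo s1 s2 H x - m) DD := (cont_Lop h.cH).sub continuousOn_const
  have cdl : ContinuousOn (fun x => dl (g x - (c : ℂ) * x) x) DD :=
    (continuous_dl.comp_continuousOn h'.cg).clm_apply continuousOn_id
  have i1 : Integrable (fun x => (ψ x - c * (‖x‖ ^ 2 - 1) / 2) * (vo s1 s2 H x - m)) mu :=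
    intOn_of_contOn (h'.cψ.mul cw)
  have i2 : Integrable (fun x => dl (g x - (c : ℂ) * x) x * (vo s1 s2 H x - m)) mu :=
    intOn_of_contOn (cdl.mul cw)
  have i3 : Integrable (fun x => vo s1 s2 H x - m) mu := intOn_of_contOn cw
  have e1 : jr s1 s2 κ m ψ g H = κ * (-2 * Real.pi * (∫ x, (ψ x - c * (‖x‖ ^ 2 - 1) / 2) * (vo s1 s2 H x - m) ∂mu)
      + Real.pi * (∫ x, dl (g x - (c : ℂ) * x) x * (vo s1 s2 H x - m) ∂mu)
      + Real.pi * c * (∫ x, (vo s1 s2 H x - m) ∂mu)) := by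
    have i4 : Integrable (fun x => -2 * Real.pi * ((ψ x - c * (‖x‖ ^ 2 - 1) / 2) * (vo s1 s2 H x - m))
        + Real.pi * (dl (g x - (c : ℂ) * x) x * (vo s1 s2 H x - m))) mu :=
      (i1.const_mul _).add (i2.const_mul _)
    rw [← integral_const_mul, ← integral_const_mul, ← integral_const_mul,
      ← integral_add (i1.const_mul _) (i2.const_mul _),
      ← integral_add i4 (i3.const_mul _), ← integral_const_mul]
    unfold jr
    refine integral_congr_ae (Filter.Eventually.of_forall fun x => ?_)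
    have e2 : dl (g x) x = dl (g x - (c : ℂ) * x) x + c * ‖x‖ ^ 2 := by
      rw [dl_sub, sub_apply]
      have : dl ((c : ℂ) * x) x = c * ‖x‖ ^ 2 := by
        rw [dl_apply, Complex.re_ofReal_mul, Complex.im_ofReal_mul, ← Complex.normSq_eq_norm_sq,
          Complex.normSq_apply]
        ring
      rw [this]; ring
    simp only [e2]
    ring
  rw [e1, hm, mul_zero, add_zero]
  have e3 : En s1 s2 (fun z => g z - ((c : ℝ) : ℂ) * z) =
      - ∫ x, (ψ x - c * (‖x‖ ^ 2 - 1) / 2) * (vo s1 s2 H x - m) ∂mu := p2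
  rw [e3]
  have p3 : 0 ≤ κ * (Real.pi * ∫ x, dl (g x - (c : ℂ) * x) x * (vo s1 s2 H x - m) ∂mu) := by
    have := Real.pi_pos
    positivity
  nlinarith

/-- the energy of the fluctuation -/
lemma En_lower {g : ℂ → ℂ} (cg : ContinuousOn g DD) (h1 : 0 < s1) (h2 : 0 < s2) (c : ℝ) :
    (√(En s1 s2 g) - |c| * √(En s1 s2 (fun z => z))) ^ 2 ≤ En s1 s2 (fun z => g z - (c : ℂ) * z) := by
  set A := En s1 s2 g with hA
  set A1 := En s1 s2 (fun z => z) with hA1
  set P := ∫ z, sb s1 s2 (g z) z ∂mu with hP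
  have ci : ContinuousOn (fun z : ℂ => z) DD := continuousOn_id
  have i1 : Integrable (fun z => sb s1 s2 (g z) (g z)) mu := intOn_of_contOn (cont_sb cg cg)
  have i2 : Integrable (fun z => sb s1 s2 (g z) z) mu := intOn_of_contOn (cont_sb cg ci)
  have i3 : Integrable (fun z => sb s1 s2 z z) mu := intOn_of_contOn (cont_sb ci ci)
  have hexp : ∀ c : ℝ, En s1 s2 (fun z => g z - (c : ℂ) * z) = A - 2 * c * P + c ^ 2 * A1 := by
    intro c
    have e1 : ∀ z : ℂ, sb s1 s2 (g z - (c : ℂ) * z) (g z - (c : ℂ) * z) =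
        sb s1 s2 (g z) (g z) - 2 * c * sb s1 s2 (g z) z + c ^ 2 * sb s1 s2 z z := by
      intro z
      simp only [sb, Complex.sub_re, Complex.sub_im, Complex.re_ofReal_mul, Complex.im_ofReal_mul]
      ring
    have j1 : Integrable (fun z => sb s1 s2 (g z) (g z) - 2 * c * sb s1 s2 (g z) z) mu :=
      i1.sub (i2.const_mul _)
    unfold En
    simp only [e1]
    rw [integral_add j1 (i3.const_mul _), integral_sub i1 (i2.const_mul _), integral_const_mul,
      integral_const_mul]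
    rfl
  have hA0 : 0 ≤ A := integral_nonneg fun z => sb_nonneg h1 h2 _
  have hA10 : 0 ≤ A1 := integral_nonneg fun z => sb_nonneg h1 h2 _
  have hdis : discrim A1 (-2 * P) A ≤ 0 := by
    apply discrim_le_zero
    intro x
    have : 0 ≤ En s1 s2 (fun z => g z - (x : ℂ) * z) := integral_nonneg fun z => sb_nonneg h1 h2 _
    rw [hexp x] at this
    linarith
  have hP2 : P ^ 2 ≤ A * A1 := by unfold discrim at hdis; linarith
  have hPa : |P| ≤ √A * √A1 := by
    rw [← Real.sqrt_mul hA0]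
    exact Real.abs_le_sqrt hP2
  rw [hexp c]
  have hcP : c * P ≤ |c| * (√A * √A1) := by
    calc c * P ≤ |c * P| := le_abs_self _
      _ = |c| * |P| := abs_mul _ _
      _ ≤ _ := by gcongr
  have q1 := Real.sq_sqrt hA0
  have q2 := Real.sq_sqrt hA10
  have q3 := sq_abs c
  nlinarith

/-- evaluation of the rate of change -/
lemma DSol.rate (h : DSol s1 s2 κ T ψ g H) (hF : Flw T (fun t z => (κ : ℂ) * I * g t z) φ)
    {s : ℝ} (hs : s ∈ Icc 0 T) (m : ℝ) :
    ∫ x, (∫ y, (vo s1 s2 (H 0) (pj x) - m) * (kz T (fun t z => (κ : ℂ) * I * g t z) φ s x y).im ∂mu) ∂mu =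
      jr s1 s2 κ m (ψ s) (g s) (H s) := by
  have hfld := h.fld
  rw [jr, ← hF.integral_comp' hfld hs
    (fun x => (vo s1 s2 (H s) x - m) * (κ * (- 2 * Real.pi * ψ s x + Real.pi * dl (g s x) x)))]
  refine setIntegral_congr_fun measurableSet_ball fun x hx => ?_
  have hxD : x ∈ DD := ball_subset_closedBall hx
  have hX := hF.mem_ball hfld 0 s hx
  have hXD := hF.mem_DD hfld 0 s hxD
  rw [integral_const_mul, pj_of_le (by simpa using hxD)]
  have e1 : vo s1 s2 (H s) (φ 0 s x) = vo s1 s2 (H 0) x := h.tr φ hF s hs x hxD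
  rw [e1]
  congr 1
  have e2 : ∫ y, (kz T (fun t z => (κ : ℂ) * I * g t z) φ s x y).im ∂mu =
      ∫ Y, ((ext T (fun t z => (κ : ℂ) * I * g t z) s Y -
        ext T (fun t z => (κ : ℂ) * I * g t z) s (φ 0 s x)) / (Y - φ 0 s x)).im ∂mu :=
    hF.integral_comp' hfld hs (fun Y => ((ext T (fun t z => (κ : ℂ) * I * g t z) s Y -
        ext T (fun t z => (κ : ℂ) * I * g t z) s (φ 0 s x)) / (Y - φ 0 s x)).im)
  rw [e2, ← kern (h.c2 s hs) hX, ← integral_const_mul]
  refine setIntegral_congr_fun measurableSet_ball fun Y hY => ?_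
  rw [ext_eq hs (ball_subset_closedBall hY), ext_eq hs hXD]
  have e3 : ((κ : ℂ) * I * g s Y - (κ : ℂ) * I * g s (φ 0 s x)) / (Y - φ 0 s x) =
      (κ : ℂ) * (I * ((g s Y - g s (φ 0 s x)) / (Y - φ 0 s x))) := by ring
  rw [e3, Complex.im_ofReal_mul, Complex.mul_im, Complex.I_re, Complex.I_im]
  ring

/-- the weighted winding -/
theorem DSol.J_eq (h : DSol s1 s2 κ T ψ g H) (hF : Flw T (fun t z => (κ : ℂ) * I * g t z) φ)
    {t : ℝ} (ht : t ∈ Icc 0 T) (m : ℝ) :
    ∫ x, (vo s1 s2 (H 0) (pj x) - m) * VV T (fun t z => (κ : ℂ) * I * g t z) φ t x ∂mu =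
      ∫ s in (0:ℝ)..t, jr s1 s2 κ m (ψ s) (g s) (H s) := by
  have hfld := h.fld
  obtain ⟨K, hK0, hK⟩ := hfld.bound
  have h0 : (0:ℝ) ∈ Icc 0 T := ⟨le_rfl, h.T0⟩
  have cv : Continuous (fun x => vo s1 s2 (H 0) (pj x)) :=
    (h.cvo h0).comp_continuous continuous_pj pj_mem
  obtain ⟨W, hW⟩ := (isCompact_closedBall (0:ℂ) 1).exists_bound_of_continuousOn (h.cvo h0)
  have e1 : ∀ s ∈ uIcc 0 t, jr s1 s2 κ m (ψ s) (g s) (H s) =
      ∫ x, (∫ y, (vo s1 s2 (H 0) (pj x) - m) *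
        (kz T (fun t z => (κ : ℂ) * I * g t z) φ s x y).im ∂mu) ∂mu := by
    intro s hs
    rw [uIcc_of_le ht.1] at hs
    exact (h.rate hF ⟨hs.1, hs.2.trans ht.2⟩ m).symm
  rw [intervalIntegral.integral_congr e1]
  rw [← fubini3 (F := fun s x y => (vo s1 s2 (H 0) (pj x) - m) *
    (kz T (fun t z => (κ : ℂ) * I * g t z) φ s x y).im) (C := (W + |m|) * K) ?_ ?_ ht.1]
  · refine integral_congr_ae (Filter.Eventually.of_forall fun x => ?_)
    simp only
    rw [VV, ← integral_const_mul]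
    refine integral_congr_ae (Filter.Eventually.of_forall fun y => ?_)
    simp only
    rw [intervalIntegral.integral_const_mul, ← hF.ZZ_im hfld]
  · have m1 : Measurable (fun p : ℝ × ℂ × ℂ => vo s1 s2 (H 0) (pj p.2.1) - m) := by
      have : Continuous (fun p : ℝ × ℂ × ℂ => vo s1 s2 (H 0) (pj p.2.1) - m) :=
        (cv.comp (by fun_prop : Continuous (fun p : ℝ × ℂ × ℂ => p.2.1))).sub continuous_const
      exact this.measurable
    exact m1.mul (Complex.measurable_im.comp (hF.kz_meas hfld))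
  · intro s x y
    rw [abs_mul]
    have a1 : |vo s1 s2 (H 0) (pj x) - m| ≤ W + |m| := by
      have := hW (pj x) (pj_mem x)
      rw [Real.norm_eq_abs] at this
      exact (abs_sub _ _).trans (by linarith)
    have a2 := (Complex.abs_im_le_norm (kz T (fun t z => (κ : ℂ) * I * g t z) φ s x y)).trans
      (kz_bound hfld hK s x y)
    exact mul_le_mul a1 a2 (abs_nonneg _) ((abs_nonneg _).trans a1)

end Run7.h148
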