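import Pool.Agent.Run7.h148.Poho

set_option autoImplicit false

open Metric Set MeasureTheory Filter Topology Complex

namespace Run7.h148

variable {ψ : ℂ → ℝ} {g : ℂ → ℂ} {H : ℂ → ℂ →L[ℝ] ℂ}

/-- unit vector of angle `θ` -/
noncomputable def eu (θ : ℝ) : ℂ := (Real.cos θ : ℂ) + (Real.sin θ : ℂ) * I

@[simp] lemma eu_re (θ : ℝ) : (eu θ).re = Real.cos θ := by simp [eu, -ofReal_cos, -ofReal_sin]
@[simp] lemma eu_im (θ : ℝ) : (eu θ).im = Real.sin θ := by simp [eu, -ofReal_cos, -ofReal_sin]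

lemma continuous_eu : Continuous eu := by
  unfold eu
  fun_prop

lemma norm_eu (θ : ℝ) : ‖eu θ‖ = 1 := by
  have : ‖eu θ‖ ^ 2 = 1 := by
    rw [Complex.sq_norm, Complex.normSq_apply, eu_re, eu_im]
    have := Real.sin_sq_add_cos_sq θ
    nlinarith
  have h2 := norm_nonneg (eu θ)
  nlinarith

lemma eu_ne (θ : ℝ) : eu θ ≠ 0 := by
  rw [← norm_ne_zero_iff, norm_eu]; exact one_ne_zero

lemma eu_add_pi (θ : ℝ) : eu (θ + Real.pi) = - eu θ := by
  apply Complex.ext
  · simp
  · simp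

/-- the component of `X` along `eu θ` -/
noncomputable def sc (X : ℂ) (θ : ℝ) : ℝ := dl X (eu θ)

lemma continuous_sc (X : ℂ) : Continuous (sc X) := (dl X).continuous.comp continuous_eu

lemma sc_add_pi (X : ℂ) (θ : ℝ) : sc X (θ + Real.pi) = - sc X θ := by
  rw [sc, eu_add_pi, map_neg, sc]

/-- length of the ray from `X` in direction `θ` -/
noncomputable def rad (X : ℂ) (θ : ℝ) : ℝ := - sc X θ + √(sc X θ ^ 2 + (1 - ‖X‖ ^ 2))

lemma continuous_rad (X : ℂ) : Continuous (rad X) := by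
  have := continuous_sc X
  unfold rad
  fun_prop

lemma norm_add_sq' (X : ℂ) (θ r : ℝ) :
    ‖X + (r : ℂ) * eu θ‖ ^ 2 = ‖X‖ ^ 2 + 2 * r * sc X θ + r ^ 2 := by
  simp only [Complex.sq_norm, Complex.normSq_apply, sc, dl_apply, Complex.add_re, Complex.add_im,
    Complex.re_ofReal_mul, Complex.im_ofReal_mul, eu_re, eu_im]
  have := Real.sin_sq_add_cos_sq θ
  linear_combination r ^ 2 * this

lemma rad_pos {X : ℂ} (hX : ‖X‖ < 1) (θ : ℝ) : 0 < rad X θ := by
  have h1 : 0 < 1 - ‖X‖ ^ 2 := by nlinarith [norm_nonneg X]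
  have h2 : |sc X θ| < √(sc X θ ^ 2 + (1 - ‖X‖ ^ 2)) := by
    apply Real.lt_sqrt_of_sq_lt
    rw [sq_abs]; linarith
  have := le_abs_self (sc X θ)
  unfold rad; linarith

lemma rad_sq {X : ℂ} (hX : ‖X‖ < 1) (θ : ℝ) :
    rad X θ ^ 2 + 2 * rad X θ * sc X θ = 1 - ‖X‖ ^ 2 := by
  have h1 : 0 ≤ sc X θ ^ 2 + (1 - ‖X‖ ^ 2) := by nlinarith [norm_nonneg X, sq_nonneg (sc X θ)]
  have h2 := Real.sq_sqrt h1
  unfold rad
  linear_combination h2

lemma norm_add_rad {X : ℂ} (hX : ‖X‖ < 1) (θ : ℝ) : ‖X + (rad X θ : ℂ) * eu θ‖ = 1 := by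
  have h1 := norm_add_sq' X θ (rad X θ)
  have h2 := rad_sq hX θ
  have h3 : ‖X + (rad X θ : ℂ) * eu θ‖ ^ 2 = 1 := by rw [h1]; linarith
  have h4 := norm_nonneg (X + (rad X θ : ℂ) * eu θ)
  nlinarith

lemma norm_lt_iff {X : ℂ} (hX : ‖X‖ < 1) (θ : ℝ) {r : ℝ} (hr : 0 < r) :
    ‖X + (r : ℂ) * eu θ‖ < 1 ↔ r < rad X θ := by
  have h1 := norm_add_sq' X θ r
  have h2 := rad_sq hX θ
  have h3 := rad_pos hX θ
  have h4 := norm_nonneg (X + (r : ℂ) * eu θ)
  have hd : 0 < 1 - ‖X‖ ^ 2 := by nlinarith [norm_nonneg X]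
  have h5 : 0 < rad X θ + r + 2 * sc X θ := by
    have : rad X θ * (rad X θ + 2 * sc X θ) = 1 - ‖X‖ ^ 2 := by linarith
    have h6 : 0 < rad X θ + 2 * sc X θ := by
      by_contra hc
      push Not at hc
      nlinarith
    linarith
  have h6 : ‖X + (r : ℂ) * eu θ‖ ^ 2 - 1 = (r - rad X θ) * (rad X θ + r + 2 * sc X θ) := by
    rw [h1]; linear_combination h2
  constructor
  · intro h
    by_contra hc
    push Not at hc
    have : 0 ≤ (r - rad X θ) * (rad X θ + r + 2 * sc X θ) := mul_nonneg (by linarith) h5.le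
    nlinarith
  · intro h
    have : (r - rad X θ) * (rad X θ + r + 2 * sc X θ) < 0 := mul_neg_of_neg_of_pos (by linarith) h5
    nlinarith

lemma rad_le_two {X : ℂ} (hX : ‖X‖ < 1) (θ : ℝ) : rad X θ ≤ 2 := by
  have h1 := norm_add_rad hX θ
  have h2 : ‖(rad X θ : ℂ) * eu θ‖ = rad X θ := by
    rw [norm_mul, norm_eu, mul_one, Complex.norm_real, Real.norm_eq_abs, abs_of_pos (rad_pos hX θ)]
  have h3 : ‖(rad X θ : ℂ) * eu θ‖ ≤ ‖X + (rad X θ : ℂ) * eu θ‖ + ‖X‖ := by
    have := norm_sub_le (X + (rad X θ : ℂ) * eu θ) X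
    simpa using this
  linarith

/-- radial integral -/
lemma ray_integral (h : C2 ψ g H) {X : ℂ} (hX : ‖X‖ < 1) (θ : ℝ) :
    ∫ r in Ioo 0 (rad X θ), dl (g (X + (r : ℂ) * eu θ) - g X) (eu θ) =
      - ψ X - rad X θ * dl (g X) (eu θ) := by
  have hR := rad_pos hX θ
  rw [← integral_Ioc_eq_integral_Ioo, ← intervalIntegral.integral_of_le hR.le]
  have hmem : ∀ r ∈ Icc 0 (rad X θ), X + (r : ℂ) * eu θ ∈ DD := by
    intro r hr
    rw [mem_closedBall_zero_iff]
    rcases hr.1.eq_or_lt with h0 | h0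
    · rw [← h0]; simp; exact hX.le
    · rcases hr.2.eq_or_lt with h1 | h1
      · rw [h1, norm_add_rad hX θ]
      · exact ((norm_lt_iff hX θ h0).2 h1).le
  have hcγ : Continuous (fun r : ℝ => X + (r : ℂ) * eu θ) := by fun_prop
  have c1 : ContinuousOn (fun r : ℝ => ψ (X + (r : ℂ) * eu θ) - r * dl (g X) (eu θ))
      (Icc 0 (rad X θ)) :=
    (h.cψ.comp hcγ.continuousOn hmem).sub (by fun_prop)
  have c2 : ContinuousOn (fun r : ℝ => dl (g (X + (r : ℂ) * eu θ) - g X) (eu θ))
      (Icc 0 (rad X θ)) := by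
    have a1 : ContinuousOn (fun r : ℝ => g (X + (r : ℂ) * eu θ) - g X) (Icc 0 (rad X θ)) :=
      (h.cg.comp hcγ.continuousOn hmem).sub continuousOn_const
    exact (continuous_dl.comp_continuousOn a1).clm_apply continuousOn_const
  have hd : ∀ r ∈ Ioo 0 (rad X θ), HasDerivAt
      (fun r : ℝ => ψ (X + (r : ℂ) * eu θ) - r * dl (g X) (eu θ))
      (dl (g (X + (r : ℂ) * eu θ) - g X) (eu θ)) r := by
    intro r hr
    have hn : X + (r : ℂ) * eu θ ∈ ball (0:ℂ) 1 := by
      rw [mem_ball_zero_iff]; exact (norm_lt_iff hX θ hr.1).2 hr.2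
    have e1 : HasFDerivAt ψ (dl (g (X + (r : ℂ) * eu θ))) (X + (r : ℂ) * eu θ) :=
      (h.hψ _ (ball_subset_closedBall hn)).hasFDerivAt (Filter.mem_of_superset
        (isOpen_ball.mem_nhds hn) ball_subset_closedBall)
    have e2 : HasDerivAt (fun r : ℝ => X + (r : ℂ) * eu θ) (eu θ) r := by
      have := ((Complex.ofRealCLM.hasDerivAt (x := r)).mul_const (eu θ)).const_add X
      simpa using this
    have e3 := e1.comp_hasDerivAt r e2
    have e4 := e3.sub ((hasDerivAt_id r).mul_const (dl (g X) (eu θ)))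
    have e5 : dl (g (X + (r : ℂ) * eu θ) - g X) (eu θ) =
        dl (g (X + (r : ℂ) * eu θ)) (eu θ) - 1 * dl (g X) (eu θ) := by
      simp only [dl_apply, Complex.sub_re, Complex.sub_im]; ring
    rw [e5]
    exact e4
  rw [intervalIntegral.integral_eq_sub_of_hasDerivAt_of_le hR.le c1 hd
    (c2.intervalIntegrable_of_Icc hR.le)]
  rw [h.bd _ (norm_add_rad hX θ)]
  simp
  ring

lemma ang1 (X G : ℂ) : ∫ θ in (-Real.pi)..Real.pi, sc X θ * dl G (eu θ) = Real.pi * dl G X := by
  have h1 : ∀ θ, sc X θ * dl G (eu θ) = (X.re * G.re) * Real.cos θ ^ 2 +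
      (X.im * G.im) * Real.sin θ ^ 2 + (X.re * G.im + X.im * G.re) * (Real.sin θ * Real.cos θ) := by
    intro θ; simp only [sc, dl_apply, eu_re, eu_im]; ring
  simp only [h1]
  rw [intervalIntegral.integral_add, intervalIntegral.integral_add,
    intervalIntegral.integral_const_mul, intervalIntegral.integral_const_mul,
    intervalIntegral.integral_const_mul, integral_cos_sq, integral_sin_sq, integral_sin_mul_cos₁]
  · simp; ring
  all_goals exact Continuous.intervalIntegrable (by fun_prop) _ _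

lemma ang2 (X G : ℂ) :
    ∫ θ in (-Real.pi)..Real.pi, √(sc X θ ^ 2 + (1 - ‖X‖ ^ 2)) * dl G (eu θ) = 0 := by
  have c0 := continuous_sc X
  have c1 := continuous_eu
  have hc : Continuous (fun θ => √(sc X θ ^ 2 + (1 - ‖X‖ ^ 2)) * dl G (eu θ)) := by fun_prop
  rw [← intervalIntegral.integral_add_adjacent_intervals (hc.intervalIntegrable _ 0)
    (hc.intervalIntegrable 0 _)]
  have h1 := intervalIntegral.integral_comp_add_right
    (f := fun θ => √(sc X θ ^ 2 + (1 - ‖X‖ ^ 2)) * dl G (eu θ)) (a := -Real.pi) (b := 0) Real.pi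
  rw [neg_add_cancel, zero_add] at h1
  rw [← h1]
  simp only [sc_add_pi, eu_add_pi, map_neg, neg_sq, mul_neg, intervalIntegral.integral_neg]
  ring

theorem kern (h : C2 ψ g H) {X : ℂ} (hX : X ∈ ball (0:ℂ) 1) :
    ∫ Y in ball (0:ℂ) 1, ((g Y - g X) / (Y - X)).re = - 2 * Real.pi * ψ X + Real.pi * dl (g X) X := by
  have hXn : ‖X‖ < 1 := by simpa using hX
  obtain ⟨C, hC⟩ := (isCompact_closedBall (0:ℂ) 1).exists_bound_of_continuousOn h.cg
  set G : ℂ → ℝ := (ball (0:ℂ) 1).indicator (fun Y => ((g Y - g X) / (Y - X)).re) with hG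
  have s1 : ∫ Y in ball (0:ℂ) 1, ((g Y - g X) / (Y - X)).re = ∫ w, G (X + w) := by
    rw [integral_add_left_eq_self G X, hG, integral_indicator measurableSet_ball]
  rw [s1, ← Complex.integral_comp_polarCoord_symm]
  set P : ℝ × ℝ → ℝ := fun p => if ‖X + (p.1 : ℂ) * eu p.2‖ < 1 then
    dl (g (X + (p.1 : ℂ) * eu p.2) - g X) (eu p.2) else 0 with hP
  have s2 : ∫ p in polarCoord.target, p.1 • G (X + Complex.polarCoord.symm p) =
      ∫ p in (Ioi (0:ℝ) ×ˢ Ioo (-Real.pi) Real.pi), P p := by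
    rw [show polarCoord.target = Ioi (0:ℝ) ×ˢ Ioo (-Real.pi) Real.pi from rfl]
    refine setIntegral_congr_fun (measurableSet_Ioi.prod measurableSet_Ioo) ?_
    rintro ⟨r, θ⟩ ⟨hr, hθ⟩
    have hr' : (0:ℝ) < r := hr
    have e1 : Complex.polarCoord.symm (r, θ) = (r : ℂ) * eu θ := by
      rw [Complex.polarCoord_symm_apply]; simp [eu]
    simp only [e1, smul_eq_mul, hP, hG]
    by_cases hn : ‖X + (r : ℂ) * eu θ‖ < 1
    · rw [if_pos hn, indicator_of_mem (by simpa using hn), add_sub_cancel_left]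
      have hrc : (r : ℂ) ≠ 0 := by exact_mod_cast hr'.ne'
      have e2 : (g (X + (r : ℂ) * eu θ) - g X) / ((r : ℂ) * eu θ) =
          ((r⁻¹ : ℝ) : ℂ) * ((g (X + (r : ℂ) * eu θ) - g X) * starRingEnd ℂ (eu θ)) := by
        have e3 : starRingEnd ℂ (eu θ) = (eu θ)⁻¹ := by
          rw [Complex.inv_def, Complex.normSq_eq_norm_sq, norm_eu]; simp
        rw [e3, ofReal_inv, div_eq_mul_inv, mul_inv]
        ring
      rw [e2, Complex.re_ofReal_mul, ← mul_assoc, mul_inv_cancel₀ hr'.ne', one_mul, dl_apply,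
        Complex.mul_re, Complex.conj_re, Complex.conj_im]
      ring
    · rw [if_neg hn, indicator_of_notMem (by simpa using hn), mul_zero]
  rw [s2]
  have ceu := continuous_eu
  have hcm : Continuous (fun p : ℝ × ℝ => X + (p.1 : ℂ) * eu p.2) := by fun_prop
  have hPm : Measurable P := by
    have hS : MeasurableSet {p : ℝ × ℝ | ‖X + (p.1 : ℂ) * eu p.2‖ < 1} :=
      (isOpen_lt hcm.norm continuous_const).measurableSet
    have e1 : P = fun p => if ‖X + (p.1 : ℂ) * eu p.2‖ < 1 then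
        dl (g (pj (X + (p.1 : ℂ) * eu p.2)) - g X) (eu p.2) else 0 := by
      funext p
      simp only [hP]
      split_ifs with hn
      · rw [pj_of_le hn.le]
      · rfl
    rw [e1]
    refine Measurable.ite hS ?_ measurable_const
    have c1 : Continuous (fun p : ℝ × ℝ => g (pj (X + (p.1 : ℂ) * eu p.2))) :=
      h.cg.comp_continuous (continuous_pj.comp hcm) (fun p => pj_mem _)
    have c2 : Continuous (fun p : ℝ × ℝ => dl (g (pj (X + (p.1 : ℂ) * eu p.2)) - g X)) :=
      continuous_dl.comp (c1.sub continuous_const)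
    exact (c2.clm_apply (by fun_prop)).measurable
  have hPb : ∀ p, ‖P p‖ ≤ 4 * C := by
    intro p
    have hC0 : 0 ≤ C := (norm_nonneg _).trans (hC X (ball_subset_closedBall hX))
    simp only [hP]
    split_ifs with hn
    · have e1 := hC (X + (p.1 : ℂ) * eu p.2) (by simpa using hn.le)
      have e2 := hC X (ball_subset_closedBall hX)
      have e3 : ‖g (X + (p.1 : ℂ) * eu p.2) - g X‖ ≤ 2 * C := by
        refine (norm_sub_le _ _).trans ?_; linarith
      rw [dl_apply, eu_re, eu_im, Real.norm_eq_abs]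
      set q := g (X + (p.1 : ℂ) * eu p.2) - g X
      have a1 := Complex.abs_re_le_norm q
      have a2 := Complex.abs_im_le_norm q
      have a3 := Real.abs_cos_le_one p.2
      have a4 := Real.abs_sin_le_one p.2
      calc |q.re * Real.cos p.2 + q.im * Real.sin p.2|
          ≤ |q.re * Real.cos p.2| + |q.im * Real.sin p.2| := abs_add_le _ _
        _ = |q.re| * |Real.cos p.2| + |q.im| * |Real.sin p.2| := by rw [abs_mul, abs_mul]
        _ ≤ (2 * C) * 1 + (2 * C) * 1 := by
            gcongr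
            · exact a1.trans e3
            · exact a2.trans e3
        _ = 4 * C := by ring
    · simp; positivity
  have hPs : ∀ r : ℝ, 2 < r → ∀ θ, P (r, θ) = 0 := by
    intro r hr θ
    simp only [hP]
    rw [if_neg]
    rw [norm_lt_iff hXn θ (by linarith)]
    have := rad_le_two hXn θ
    linarith
  rw [Measure.volume_eq_prod, ← Measure.prod_restrict, integral_prod_symm]
  · have s3 : ∀ θ, ∫ r in Ioi (0:ℝ), P (r, θ) = - ψ X - rad X θ * dl (g X) (eu θ) := by
      intro θ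
      rw [← ray_integral h hXn θ]
      rw [← integral_indicator measurableSet_Ioi, ← integral_indicator measurableSet_Ioo]
      congr 1
      funext r
      by_cases hr : 0 < r
      · rw [indicator_of_mem (by exact hr)]
        by_cases hn : r < rad X θ
        · rw [indicator_of_mem (by exact ⟨hr, hn⟩)]
          simp only [hP]
          rw [if_pos ((norm_lt_iff hXn θ hr).2 hn)]
        · rw [indicator_of_notMem (by rintro ⟨_, h2⟩; exact hn h2)]
          simp only [hP]
          rw [if_neg (by rw [norm_lt_iff hXn θ hr]; exact hn)]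
      · rw [indicator_of_notMem (by exact hr), indicator_of_notMem (by rintro ⟨h1, _⟩; exact hr h1)]
    simp only [s3]
    rw [← integral_Ioc_eq_integral_Ioo, ← intervalIntegral.integral_of_le (by linarith [Real.pi_pos])]
    have c0 := continuous_sc X
    have e4 : ∀ θ, -ψ X - rad X θ * dl (g X) (eu θ) = -ψ X + (sc X θ * dl (g X) (eu θ)
        - √(sc X θ ^ 2 + (1 - ‖X‖ ^ 2)) * dl (g X) (eu θ)) := by
      intro θ; unfold rad; ring
    simp only [e4]
    rw [intervalIntegral.integral_add, intervalIntegral.integral_sub, ang1, ang2,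
      intervalIntegral.integral_const]
    · simp only [smul_eq_mul]; ring
    all_goals exact Continuous.intervalIntegrable (by fun_prop) _ _
  · rw [Measure.prod_restrict]
    have hfin : IntegrableOn P ((Ioc (0:ℝ) 2) ×ˢ Ioo (-Real.pi) Real.pi) (volume.prod volume) := by
      refine Measure.integrableOn_of_bounded (M := 4 * C) ?_ hPm.aestronglyMeasurable ?_
      · rw [Measure.prod_prod]
        exact ENNReal.mul_ne_top (by simp) (by simp)
      · exact Filter.Eventually.of_forall hPb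
    refine hfin.of_forall_sdiff_eq_zero (measurableSet_Ioi.prod measurableSet_Ioo) ?_
    rintro ⟨r, θ⟩ ⟨⟨h1, h2⟩, h3⟩
    apply hPs
    by_contra hc
    push Not at hc
    exact h3 ⟨⟨h1, hc⟩, h2⟩

end Run7.h148
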