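import Pool.Agent.Run7.h148.Ell

set_option autoImplicit false

open Metric Set MeasureTheory Filter Topology Complex

namespace Run7.h148

lemma enorm_le_iff {E : Type*} [NormedAddCommGroup E] {x : E} {A : ℝ} (hA : 0 ≤ A) :
    ‖x‖ₑ ≤ ENNReal.ofReal A ↔ ‖x‖ ≤ A := by
  rw [← ofReal_norm, ENNReal.ofReal_le_ofReal_iff hA]

lemma hNorm_le {E : Type*} [NormedAddCommGroup E] {α : ℝ} (hα : 0 < α) {M : Set ℂ} {f : ℂ → E}
    {A B : ℝ} (hA : 0 ≤ A) (hB : 0 ≤ B) (h1 : ∀ x ∈ M, ‖f x‖ ≤ A)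
    (h2 : ∀ x ∈ M, ∀ y ∈ M, ‖f x - f y‖ ≤ B * ‖x - y‖ ^ α) :
    hNorm α M f ≤ ENNReal.ofReal (A + B) := by
  rw [ENNReal.ofReal_add hA hB]
  unfold hNorm
  refine add_le_add ?_ ?_
  · exact iSup₂_le fun x hx => (enorm_le_iff hA).2 (h1 x hx)
  · refine iSup₂_le fun x hx => iSup₂_le fun y hy => ?_
    apply ENNReal.div_le_of_le_mul
    rw [← ofReal_norm (x - y), ENNReal.ofReal_rpow_of_nonneg (norm_nonneg _) hα.le,
      ← ENNReal.ofReal_mul hB, ← ofReal_norm]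
    exact ENNReal.ofReal_le_ofReal (h2 x hx y hy)

lemma of_hNorm_le {E : Type*} [NormedAddCommGroup E] {α : ℝ} (hα : 0 < α) {M : Set ℂ} {f : ℂ → E}
    {N : ℝ} (hN : 0 ≤ N) (h : hNorm α M f ≤ ENNReal.ofReal N) :
    (∀ x ∈ M, ‖f x‖ ≤ N) ∧ ∀ x ∈ M, ∀ y ∈ M, ‖f x - f y‖ ≤ N * ‖x - y‖ ^ α := by
  unfold hNorm at h
  constructor
  · intro x hx
    rw [← enorm_le_iff hN]
    refine le_trans ?_ ((le_self_add).trans h)
    exact le_iSup₂_of_le x hx le_rfl
  · intro x hx y hy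
    rcases eq_or_ne x y with rfl | hxy
    · simp; positivity
    have h3 : ‖f x - f y‖ₑ / ‖x - y‖ₑ ^ α ≤ ENNReal.ofReal N := by
      refine le_trans ?_ ((le_add_self).trans h)
      exact le_iSup₂_of_le x hx (le_iSup₂_of_le y hy le_rfl)
    have hpos : 0 < ‖x - y‖ := norm_pos_iff.2 (sub_ne_zero.2 hxy)
    have e1 : ‖x - y‖ₑ ^ α = ENNReal.ofReal (‖x - y‖ ^ α) := by
      rw [← ofReal_norm, ENNReal.ofReal_rpow_of_nonneg (norm_nonneg _) hα.le]
    rw [e1, ENNReal.div_le_iff (by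
      rw [Ne, ENNReal.ofReal_eq_zero, not_le]; positivity) ENNReal.ofReal_ne_top,
      ← ENNReal.ofReal_mul hN, enorm_le_iff (by positivity)] at h3
    exact h3

lemma contOn_of_hNorm {E : Type*} [NormedAddCommGroup E] {α : ℝ} (hα : 0 < α) {M : Set ℂ} {f : ℂ → E}
    (h : hNorm α M f < ⊤) : ContinuousOn f M := by
  obtain ⟨-, h2⟩ := of_hNorm_le hα (N := (hNorm α M f).toReal) ENNReal.toReal_nonneg
    (by rw [ENNReal.ofReal_toReal h.ne])
  set N := (hNorm α M f).toReal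
  intro x hx
  rw [ContinuousWithinAt, tendsto_iff_norm_sub_tendsto_zero]
  have h3 : Tendsto (fun y : ℂ => N * ‖y - x‖ ^ α) (𝓝[M] x) (𝓝 0) := by
    have h4 : Continuous (fun y : ℂ => N * ‖y - x‖ ^ α) := by
      have : Continuous (fun y : ℂ => ‖y - x‖ ^ α) :=
        (by fun_prop : Continuous (fun y : ℂ => ‖y - x‖)).rpow_const fun _ => Or.inr hα.le
      fun_prop
    have h5 := (h4.tendsto x).mono_left (nhdsWithin_le_nhds (s := M))
    simpa [Real.zero_rpow hα.ne'] using h5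
  refine squeeze_zero' (Filter.Eventually.of_forall fun y => norm_nonneg _) ?_ h3
  filter_upwards [self_mem_nhdsWithin] with y hy
  exact h2 y hy x hx

lemma HB_of_holder {α N : ℝ} {M : Set ℂ} {f : ℂ → ℝ} (hN : 0 ≤ N)
    (h : ∀ x ∈ M, ∀ y ∈ M, ‖f x - f y‖ ≤ N * ‖x - y‖ ^ α) : HB α N M f := by
  intro p hp q hq q' hq'
  have h1 := h q hq p hp
  have h2 := h q' hq' p hp
  rw [Real.norm_eq_abs] at h1 h2
  have e1 : f q + f q' - 2 * f p = (f q - f p) + (f q' - f p) := by ring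
  rw [e1]
  refine (abs_add_le _ _).trans ?_
  have h3 : 0 ≤ N * ‖q + q' - 2 * p‖ := by positivity
  linarith

lemma HB.mono {γ N N' : ℝ} {M : Set ℂ} {f : ℂ → ℝ} (h : HB γ N M f) (hN : N ≤ N') : HB γ N' M f := by
  intro p hp q hq q' hq'
  refine (h p hp q hq q' hq').trans ?_
  gcongr

/-- all the analytic bounds on the quadratic corrector -/
lemma kk_bounds (s1 s2 : ℝ) : ∃ K : ℝ, 0 < K ∧ (∀ z ∈ DD, |kk s1 s2 z| ≤ K) ∧
    ∀ z ∈ DD, ∀ w ∈ DD, |kk s1 s2 z - kk s1 s2 w| ≤ K * ‖z - w‖ := by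
  have hc : ContDiff ℝ 1 (kk s1 s2) := by
    have h1 : ContDiff ℝ 1 (fun z : ℂ => z.re) := reCLM.contDiff
    have h2 : ContDiff ℝ 1 (fun z : ℂ => z.im) := imCLM.contDiff
    unfold kk
    fun_prop
  obtain ⟨K1, h1⟩ := (isCompact_closedBall (0:ℂ) 1).exists_bound_of_continuousOn hc.continuous.continuousOn
  obtain ⟨K2, h2⟩ := (hc.contDiffOn (s := DD)).exists_lipschitzOnWith (by norm_num)
    (convex_closedBall _ _) (isCompact_closedBall (0:ℂ) 1)
  refine ⟨max 1 (max K1 K2), by positivity, fun z hz => ?_, fun z hz w hw => ?_⟩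
  · have := h1 z hz
    rw [Real.norm_eq_abs] at this
    exact this.trans ((le_max_left _ _).trans (le_max_right _ _))
  · have := h2.dist_le_mul z hz w hw
    rw [Real.dist_eq, dist_eq_norm] at this
    refine this.trans ?_
    gcongr
    exact (le_max_right _ _).trans (le_max_right _ _)

lemma lip_to_holder {α d : ℝ} (h1 : α ≤ 1) (hd0 : 0 ≤ d) (hd : d ≤ 2) (hα : 0 < α) :
    d ≤ 2 * d ^ α := by
  rcases hd0.eq_or_lt with h0 | h0
  · rw [← h0, Real.zero_rpow hα.ne', mul_zero]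
  · have e1 : (d / 2) ^ (1:ℝ) ≤ (d / 2) ^ α :=
      Real.rpow_le_rpow_of_exponent_ge (by positivity) (by linarith) h1
    rw [Real.rpow_one, Real.div_rpow h0.le (by norm_num)] at e1
    have e2 : (1:ℝ) ≤ 2 ^ α := Real.one_le_rpow (by norm_num) hα.le
    have e3 : d ^ α / 2 ^ α ≤ d ^ α := div_le_self (by positivity) e2
    linarith

variable {a b : ℝ}

/-- **Growth on ellipses.** Every `C^α` function on an elliptical domain can be perturbed by an
arbitrarily small amount in `C^α` so that all solutions starting from the perturbed vorticity have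
unbounded `C^α` norm. -/
theorem ellipse_growth (ha : 0 < a) (hb : 0 < b) {α : ℝ} (h0 : 0 < α) (h1 : α < 1) {f : ℂ → ℝ}
    (hf : hNorm α (ell a b) f < ⊤) {ε : ℝ} (hε : 0 < ε) :
    ∃ ω₀ : ℂ → ℝ, hNorm α (ell a b) (fun z => ω₀ z - f z) ≤ ENNReal.ofReal ε ∧
      ∀ ω ψ : ℝ → ℂ → ℝ, EulerSol 2 (ell a b) ω ψ → (∀ z ∈ ell a b, ω 0 z = ω₀ z) →
        Tendsto (fun t => hNorm α (ell a b) (ω t)) atTop (𝓝 ⊤) := by
  have ha' := ha.ne'
  have hb' := hb.ne'
  set s1 : ℝ := (a ^ 2)⁻¹ with hs1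
  set s2 : ℝ := (b ^ 2)⁻¹ with hs2
  have s1p : 0 < s1 := by positivity
  have s2p : 0 < s2 := by positivity
  have hκ : 0 < (a * b)⁻¹ := by positivity
  obtain ⟨K, hK0, hK1, hK2⟩ := kk_bounds s1 s2
  set m : ℝ := max a⁻¹ b⁻¹ with hm
  have hm0 : 0 < m := by positivity
  -- choice of the sizes
  set ε₁ : ℝ := ε / (2 * (1 + m ^ α)) with hε₁
  have hε₁0 : 0 < ε₁ := by positivity
  set r : ℝ := ε / (2 * (K + 2 * K * m ^ α)) with hr
  have hr0 : 0 < r := by positivity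
  set w : ℂ → ℝ := fun z => f (Sc a b z) with hw
  obtain ⟨h, hh1, hh2, c, hc, hR⟩ := rough_exists_alpha h0 h1 hε₁0 w
  have cw : ContinuousOn w DD :=
    (contOn_of_hNorm h0 hf).comp (Sc a b).continuous.continuousOn (fun z hz => Sc_mem ha' hb' hz)
  have ch : ContinuousOn h DD := by
    apply contOn_of_hNorm h0
    exact (hNorm_le h0 hε₁0.le hε₁0.le (fun x _ => hh1 x) (fun x _ y _ => hh2 x y)).trans_lt
      ENNReal.ofReal_lt_top
  have ciw : IntegrableOn (fun z => w z + h z) (ball 0 1) := intOn_of_contOn (cw.add ch)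
  obtain ⟨s, hs, hnd⟩ := exists_nondeg s1p s2p (fun z => w z + h z) ciw hr0
  have hR2 : Rough α (c / 2) (fun z => w z + h z + s * kk s1 s2 z) := by
    refine hR.add (by linarith) hc (k := fun z => s * kk s1 s2 z) (K := |s| * (24 * (s1 + s2))) ?_
    intro x v
    have e1 : sd (fun z => s * kk s1 s2 z) x v = s * sd (kk s1 s2) x v := by unfold sd; ring
    rw [e1, abs_mul, mul_assoc]
    gcongr
    exact sd_kk s1p.le s2p.le x v
  set W : ℂ → ℝ := fun z => w z + h z + s * kk s1 s2 z with hW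
  refine ⟨fun z => W (Sc a⁻¹ b⁻¹ z), ?_, ?_⟩
  · -- size of the perturbation
    have hdiff : ∀ z, W (Sc a⁻¹ b⁻¹ z) - f z = h (Sc a⁻¹ b⁻¹ z) + s * kk s1 s2 (Sc a⁻¹ b⁻¹ z) := by
      intro z
      simp only [hW, hw, Sc_inv ha' hb']
      ring
    have hmem : ∀ z ∈ ell a b, Sc a⁻¹ b⁻¹ z ∈ DD := by
      intro z hz
      rw [← ell_preimage ha' hb']
      show Sc a b (Sc a⁻¹ b⁻¹ z) ∈ ell a b
      rw [Sc_inv ha' hb']
      exact hz
    have b1 : ∀ z ∈ ell a b, ‖W (Sc a⁻¹ b⁻¹ z) - f z‖ ≤ ε₁ + r * K := by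
      intro z hz
      rw [hdiff, Real.norm_eq_abs]
      refine (abs_add_le _ _).trans ?_
      rw [abs_mul]
      gcongr
      · exact hh1 _
      · exact hK1 _ (hmem z hz)
    have b2 : ∀ x ∈ ell a b, ∀ y ∈ ell a b,
        ‖(W (Sc a⁻¹ b⁻¹ x) - f x) - (W (Sc a⁻¹ b⁻¹ y) - f y)‖ ≤
          (ε₁ * m ^ α + r * (2 * K * m ^ α)) * ‖x - y‖ ^ α := by
      intro x hx y hy
      rw [hdiff, hdiff, Real.norm_eq_abs]
      set X := Sc a⁻¹ b⁻¹ x
      set Y := Sc a⁻¹ b⁻¹ y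
      have hXD : X ∈ DD := hmem x hx
      have hYD : Y ∈ DD := hmem y hy
      have hXY : ‖X - Y‖ ≤ m * ‖x - y‖ := by
        have : X - Y = Sc a⁻¹ b⁻¹ (x - y) := by rw [map_sub]
        rw [this]
        exact norm_Sc_le (by positivity) (by positivity) _
      have hXYα : ‖X - Y‖ ^ α ≤ m ^ α * ‖x - y‖ ^ α := by
        rw [← Real.mul_rpow hm0.le (norm_nonneg _)]
        exact Real.rpow_le_rpow (norm_nonneg _) hXY h0.le
      have hX1 : ‖X‖ ≤ 1 := by simpa using hXD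
      have hY1 : ‖Y‖ ≤ 1 := by simpa using hYD
      have hd2 : ‖X - Y‖ ≤ 2 := (norm_sub_le _ _).trans (by linarith)
      have e1 : h X + s * kk s1 s2 X - (h Y + s * kk s1 s2 Y) =
          (h X - h Y) + s * (kk s1 s2 X - kk s1 s2 Y) := by ring
      rw [e1]
      refine (abs_add_le _ _).trans ?_
      rw [abs_mul]
      have e2 := hh2 X Y
      have e3 := hK2 X hXD Y hYD
      have e4 := lip_to_holder h1.le (norm_nonneg (X - Y)) hd2 h0
      calc |h X - h Y| + |s| * |kk s1 s2 X - kk s1 s2 Y|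
          ≤ ε₁ * ‖X - Y‖ ^ α + r * (K * (2 * ‖X - Y‖ ^ α)) := by
            gcongr
            exact e3.trans (by gcongr)
        _ = (ε₁ + r * (2 * K)) * ‖X - Y‖ ^ α := by ring
        _ ≤ (ε₁ + r * (2 * K)) * (m ^ α * ‖x - y‖ ^ α) := by gcongr
        _ = _ := by ring
    refine (hNorm_le h0 (by positivity) (by positivity) b1 b2).trans (le_of_eq ?_)
    congr 1
    have e1 : ε₁ + r * K + (ε₁ * m ^ α + r * (2 * K * m ^ α)) =
        ε₁ * (1 + m ^ α) + r * (K + 2 * K * m ^ α) := by ring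
    rw [e1, hε₁, hr]
    have p1 : (1 + m ^ α) ≠ 0 := by positivity
    have p2 : (K + 2 * K * m ^ α) ≠ 0 := by positivity
    field_simp
    ring
  · intro ω ψ hsol hini
    have hini' : ∀ z ∈ DD, vo s1 s2 (Hst a b ψ 0) z = W z := by
      intro z hz
      rw [vo, hsol.Lop_eq le_rfl ha' hb' le_rfl hz, hini _ (Sc_mem ha' hb' hz)]
      simp only
      rw [Sc_inv' ha' hb']
    rw [ENNReal.tendsto_nhds_top_iff_nnreal]
    intro x
    set mx : ℝ := (max a b) ^ α with hmx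
    have hmx0 : 0 < mx := by positivity
    obtain ⟨T₀, hT₀⟩ := disc_growth_alpha s1p s2p hκ (fun T hT => hsol.dsol le_rfl ha' hb' hT) h0 h1.le
      (half_pos hc) hini' hR2 hnd (N := x * mx + 1) (by positivity)
    filter_upwards [eventually_gt_atTop (max T₀ 0)] with t ht
    by_contra hcon
    push Not at hcon
    have ht0 : 0 ≤ t := ((le_max_right _ _).trans_lt ht).le
    have hcon' : hNorm α (ell a b) (ω t) ≤ ENNReal.ofReal (x : ℝ) := by
      rwa [ENNReal.ofReal_coe_nnreal]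
    obtain ⟨-, g2⟩ := of_hNorm_le h0 x.2 hcon'
    refine hT₀ t ((le_max_left _ _).trans_lt ht) (HB.mono (N := x * mx) ?_ (by linarith))
    apply HB_of_holder (by positivity)
    intro p hp q hq
    rw [vo, vo, hsol.Lop_eq le_rfl ha' hb' ht0 hp, hsol.Lop_eq le_rfl ha' hb' ht0 hq]
    refine (g2 _ (Sc_mem ha' hb' hp) _ (Sc_mem ha' hb' hq)).trans ?_
    have e1 : ‖Sc a b p - Sc a b q‖ ^ α ≤ mx * ‖p - q‖ ^ α := by
      rw [hmx, ← Real.mul_rpow (by positivity) (norm_nonneg _), ← map_sub]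
      exact Real.rpow_le_rpow (norm_nonneg _) (norm_Sc_le ha hb _) h0.le
    have hx0 : (0:ℝ) ≤ x := x.2
    calc (x:ℝ) * ‖Sc a b p - Sc a b q‖ ^ α ≤ x * (mx * ‖p - q‖ ^ α) :=
          mul_le_mul_of_nonneg_left e1 hx0
      _ = _ := by ring

end Run7.h148
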