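import Pool.Agent.Run7.h148.Flow3

set_option autoImplicit false

open Metric Set MeasureTheory Filter Topology Complex

namespace Run7.h148

/-- variation of a logarithm of the ratio of two Lipschitz curves -/
lemma logvar {Z p q : ℝ → ℂ} {C C' d m : ℝ} (hZ : ContinuousOn Z (Icc 0 1)) (hd : 0 < d)
    (hm : 0 < m) (hC : 0 ≤ C) (hC' : 0 ≤ C')
    (hp : ∀ s ∈ Icc (0:ℝ) 1, ∀ t ∈ Icc (0:ℝ) 1, ‖p s - p t‖ ≤ C * |s - t|)
    (hq : ∀ s ∈ Icc (0:ℝ) 1, ∀ t ∈ Icc (0:ℝ) 1, ‖q s - q t‖ ≤ C' * |s - t|)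
    (hpd : ∀ s ∈ Icc (0:ℝ) 1, d ≤ ‖p s‖) (hqm : ∀ s ∈ Icc (0:ℝ) 1, m ≤ ‖q s‖)
    (he : ∀ s ∈ Icc (0:ℝ) 1, q s = p s * Complex.exp (Z s)) :
    ‖Z 1 - Z 0‖ ≤ C / d + C' / m := by
  set M : ℝ := C / d + C' / m with hM
  have hM0 : 0 ≤ M := by positivity
  refine le_of_forall_pos_le_add fun η hη => ?_
  have key := image_norm_le_of_liminf_right_slope_norm_lt_deriv_boundary (a := 0) (b := 1)
    (f := fun s => Z s - Z 0) (f' := fun _ => M) (B := fun s => (M + η) * s)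
    (B' := fun _ => M + η) (hZ.sub continuousOn_const) ?_ (by simp)
    (by fun_prop) (fun x _ => by
      have := ((hasDerivAt_id x).const_mul (M + η)).hasDerivWithinAt (s := Ici x)
      simpa using this) (fun x _ _ => by linarith)
    (x := 1) ⟨zero_le_one, le_rfl⟩
  · simpa using key
  · intro x hx r hr
    apply Eventually.frequently
    have hxI : x ∈ Icc (0:ℝ) 1 := ⟨hx.1, hx.2.le⟩
    -- auxiliary function controlling the slope
    have hsub : 𝓝[>] x ≤ 𝓝[Icc 0 1] x := by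
      have h1 : Ico x 1 ⊆ Icc 0 1 := fun y hy => ⟨hx.1.trans hy.1, hy.2.le⟩
      have h2 : 𝓝[>] x ≤ 𝓝[Ico x 1] x := by
        rw [nhdsWithin_Ico_eq_nhdsGE hx.2]
        exact nhdsWithin_mono x Ioi_subset_Ici_self
      exact h2.trans (nhdsWithin_mono x h1)
    have hZx : Tendsto (fun z => ‖Z z - Z x‖) (𝓝[>] x) (𝓝 0) := by
      have h1 : Tendsto Z (𝓝[>] x) (𝓝 (Z x)) := (hZ x hxI).mono_left hsub
      have h2 := (h1.sub_const (Z x)).norm
      simpa using h2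
    have hzx : Tendsto (fun z : ℝ => z - x) (𝓝[>] x) (𝓝 0) := by
      have : Tendsto (fun z : ℝ => z - x) (𝓝 x) (𝓝 (x - x)) := (continuous_id.sub continuous_const).tendsto x
      rw [sub_self] at this
      exact this.mono_left nhdsWithin_le_nhds
    have hlim : Tendsto (fun z => (C / d * (1 + C' / m * (z - x)) + C' / m) / (1 - ‖Z z - Z x‖))
        (𝓝[>] x) (𝓝 M) := by
      have h1 : Tendsto (fun z => (C / d * (1 + C' / m * (z - x)) + C' / m) / (1 - ‖Z z - Z x‖))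
        (𝓝[>] x) (𝓝 ((C / d * (1 + C' / m * 0) + C' / m) / (1 - 0))) := by
        refine Tendsto.div ?_ (tendsto_const_nhds.sub hZx) (by norm_num)
        exact (tendsto_const_nhds.mul (tendsto_const_nhds.add (tendsto_const_nhds.mul hzx))).add
          tendsto_const_nhds
      simpa using h1
    filter_upwards [hlim.eventually (gt_mem_nhds hr), self_mem_nhdsWithin,
      (hZx.eventually (gt_mem_nhds one_pos)), hsub self_mem_nhdsWithin] with z hz1 hz2 hz3 hz4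
    have hzx0 : 0 < z - x := sub_pos.2 hz2
    have hpx := hpd x hxI
    have hpz := hpd z hz4
    have hqx := hqm x hxI
    have hqz := hqm z hz4
    have hpxn : p x ≠ 0 := norm_pos_iff.1 (lt_of_lt_of_le hd hpx)
    have hpzn : p z ≠ 0 := norm_pos_iff.1 (lt_of_lt_of_le hd hpz)
    have hqxn : q x ≠ 0 := norm_pos_iff.1 (lt_of_lt_of_le hm hqx)
    have hqzn : q z ≠ 0 := norm_pos_iff.1 (lt_of_lt_of_le hm hqz)
    have habs : |z - x| = z - x := abs_of_pos hzx0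
    have h1 := hp x hxI z hz4
    have h2 := hq z hz4 x hxI
    rw [abs_sub_comm, habs] at h1
    rw [habs] at h2
    have hexp : Complex.exp (Z z - Z x) - 1 =
        (q z / q x) * ((p x - p z) / p z) + (q z - q x) / q x := by
      rw [Complex.exp_sub]
      have e1 : Complex.exp (Z z) = q z / p z := by rw [he z hz4]; field_simp
      have e2 : Complex.exp (Z x) = q x / p x := by rw [he x hxI]; field_simp
      rw [e1, e2]
      field_simp
      ring
    have e3 : ‖(p x - p z) / p z‖ ≤ C / d * (z - x) := by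
      rw [norm_div, div_le_iff₀ (lt_of_lt_of_le hd hpz)]
      calc ‖p x - p z‖ ≤ C * (z - x) := h1
        _ = C / d * (z - x) * d := by field_simp
        _ ≤ C / d * (z - x) * ‖p z‖ := by gcongr
    have e4 : ‖(q z - q x) / q x‖ ≤ C' / m * (z - x) := by
      rw [norm_div, div_le_iff₀ (lt_of_lt_of_le hm hqx)]
      calc ‖q z - q x‖ ≤ C' * (z - x) := h2
        _ = C' / m * (z - x) * m := by field_simp
        _ ≤ C' / m * (z - x) * ‖q x‖ := by gcongr
    have e5 : ‖q z / q x‖ ≤ 1 + C' / m * (z - x) := by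
      have : q z / q x = 1 + (q z - q x) / q x := by field_simp; ring
      rw [this]
      refine (norm_add_le _ _).trans ?_
      rw [norm_one]; linarith
    have e6 : ‖Complex.exp (Z z - Z x) - 1‖ ≤
        (C / d * (1 + C' / m * (z - x)) + C' / m) * (z - x) := by
      rw [hexp]
      refine (norm_add_le _ _).trans ?_
      rw [norm_mul]
      calc ‖q z / q x‖ * ‖(p x - p z) / p z‖ + ‖(q z - q x) / q x‖
          ≤ (1 + C' / m * (z - x)) * (C / d * (z - x)) + C' / m * (z - x) := by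
            gcongr
        _ = _ := by ring
    have e7 : ‖Z z - Z x‖ * (1 - ‖Z z - Z x‖) ≤ ‖Complex.exp (Z z - Z x) - 1‖ := by
      have a1 := Complex.norm_exp_sub_one_sub_id_le hz3.le
      have a2 : ‖Z z - Z x‖ ≤ ‖Complex.exp (Z z - Z x) - 1‖ +
          ‖Complex.exp (Z z - Z x) - 1 - (Z z - Z x)‖ := by
        have := norm_sub_le (Complex.exp (Z z - Z x) - 1)
          (Complex.exp (Z z - Z x) - 1 - (Z z - Z x))
        rwa [sub_sub_cancel] at this
      nlinarith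
    have h1n : 0 < 1 - ‖Z z - Z x‖ := by linarith
    have e8 : ‖Z z - Z x‖ / (z - x) ≤
        (C / d * (1 + C' / m * (z - x)) + C' / m) / (1 - ‖Z z - Z x‖) := by
      rw [div_le_div_iff₀ hzx0 h1n]
      exact e7.trans e6
    have e9 : slope (norm ∘ fun s => Z s - Z 0) x z ≤ ‖Z z - Z x‖ / (z - x) := by
      rw [slope_def_field]
      simp only [Function.comp]
      gcongr
      have := norm_sub_norm_le (Z z - Z 0) (Z x - Z 0)
      rwa [sub_sub_sub_cancel_right] at this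
    exact (e9.trans e8).trans_lt hz1

variable {T : ℝ} {U : ℝ → ℂ → ℂ} {B : ℝ → ℂ → ℂ →L[ℝ] ℂ} {φ : ℝ → ℝ → ℂ → ℂ}

/-- relative velocity divided by relative position, of the particles starting at `x`, `y` -/
noncomputable def kz (T : ℝ) (U : ℝ → ℂ → ℂ) (φ : ℝ → ℝ → ℂ → ℂ) (s : ℝ) (x y : ℂ) : ℂ :=
  (ext T U s (φ 0 s y) - ext T U s (φ 0 s x)) / (φ 0 s y - φ 0 s x)

/-- logarithmic winding of the pair -/
noncomputable def ZZ (T : ℝ) (U : ℝ → ℂ → ℂ) (φ : ℝ → ℝ → ℂ → ℂ) (t : ℝ) (x y : ℂ) : ℂ :=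
  ∫ s in (0:ℝ)..t, kz T U φ s x y

lemma Flw.ne (hF : Flw T U φ) (h : Fld T U B) (s t : ℝ) {x y : ℂ} (hxy : x ≠ y) :
    φ s t y - φ s t x ≠ 0 := by
  intro hc
  have := congrArg (φ t s) (sub_eq_zero.1 hc)
  rw [hF.inv h, hF.inv h] at this
  exact hxy this.symm

lemma Flw.kz_cont (hF : Flw T U φ) (h : Fld T U B) :
    ContinuousOn (fun p : ℝ × ℂ × ℂ => kz T U φ p.1 p.2.1 p.2.2) {p | p.2.1 ≠ p.2.2} := by
  have c1 : Continuous (fun p : ℝ × ℂ × ℂ => φ 0 p.1 p.2.1) := by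
    have h2 : Continuous (fun p : ℝ × ℂ × ℂ => (p.1, p.2.1)) := by fun_prop
    exact (hF.cont h 0).comp h2
  have c2 : Continuous (fun p : ℝ × ℂ × ℂ => φ 0 p.1 p.2.2) := by
    have h2 : Continuous (fun p : ℝ × ℂ × ℂ => (p.1, p.2.2)) := by fun_prop
    exact (hF.cont h 0).comp h2
  have c3 : Continuous (fun p : ℝ × ℂ × ℂ => ext T U p.1 (φ 0 p.1 p.2.1)) :=
    h.cont.comp (continuous_fst.prodMk c1)
  have c4 : Continuous (fun p : ℝ × ℂ × ℂ => ext T U p.1 (φ 0 p.1 p.2.2)) :=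
    h.cont.comp (continuous_fst.prodMk c2)
  exact (c4.sub c3).continuousOn.div (c2.sub c1).continuousOn fun p hp => hF.ne h 0 p.1 hp

lemma Flw.kz_meas (hF : Flw T U φ) (h : Fld T U B) :
    Measurable (fun p : ℝ × ℂ × ℂ => kz T U φ p.1 p.2.1 p.2.2) := by
  have c1 : Continuous (fun p : ℝ × ℂ × ℂ => φ 0 p.1 p.2.1) := by
    have h2 : Continuous (fun p : ℝ × ℂ × ℂ => (p.1, p.2.1)) := by fun_prop
    exact (hF.cont h 0).comp h2
  have c2 : Continuous (fun p : ℝ × ℂ × ℂ => φ 0 p.1 p.2.2) := by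
    have h2 : Continuous (fun p : ℝ × ℂ × ℂ => (p.1, p.2.2)) := by fun_prop
    exact (hF.cont h 0).comp h2
  have c3 : Continuous (fun p : ℝ × ℂ × ℂ => ext T U p.1 (φ 0 p.1 p.2.1)) :=
    h.cont.comp (continuous_fst.prodMk c1)
  have c4 : Continuous (fun p : ℝ × ℂ × ℂ => ext T U p.1 (φ 0 p.1 p.2.2)) :=
    h.cont.comp (continuous_fst.prodMk c2)
  exact (c4.sub c3).measurable.div (c2.sub c1).measurable

lemma kz_bound (h : Fld T U B) {K : NNReal} (hK : ∀ t z, ‖extB T B t z‖ ≤ K) (s : ℝ) (x y : ℂ) :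
    ‖kz T U φ s x y‖ ≤ K := by
  unfold kz
  rw [norm_div]
  have h1 := (h.lip hK s).dist_le_mul (φ 0 s y) (φ 0 s x)
  rw [dist_eq_norm, dist_eq_norm] at h1
  rcases (norm_nonneg (φ 0 s y - φ 0 s x)).eq_or_lt with h2 | h2
  · rw [← h2, div_zero]; exact K.2
  · rwa [div_le_iff₀ h2]

lemma Flw.kz_cont_s (hF : Flw T U φ) (h : Fld T U B) {x y : ℂ} (hxy : x ≠ y) :
    Continuous (fun s => kz T U φ s x y) := by
  have h1 : ContinuousOn (fun s => kz T U φ s x y) univ :=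
    (hF.kz_cont h).comp (f := fun s : ℝ => (s, x, y)) (by fun_prop) (fun s _ => hxy)
  exact continuousOn_univ.1 h1

lemma Flw.ZZ_exp (hF : Flw T U φ) (h : Fld T U B) {x y : ℂ} (hxy : x ≠ y) (t : ℝ) :
    φ 0 t y - φ 0 t x = (y - x) * Complex.exp (ZZ T U φ t x y) := by
  have hk := hF.kz_cont_s h hxy
  have hZ : ∀ t, HasDerivAt (fun t => ZZ T U φ t x y) (kz T U φ t x y) t := fun t =>
    intervalIntegral.integral_hasDerivAt_right (hk.intervalIntegrable _ _)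
      (hk.stronglyMeasurableAtFilter _ _) hk.continuousAt
  have hd : ∀ t, HasDerivAt (fun t => (φ 0 t y - φ 0 t x) * Complex.exp (-ZZ T U φ t x y)) 0 t := by
    intro t
    have h1 := ((hF.der 0 y t).sub (hF.der 0 x t)).mul ((hZ t).neg.cexp)
    have h2 := hF.ne h 0 t hxy
    have h3 : (0:ℂ) = (ext T U t (φ 0 t y) - ext T U t (φ 0 t x)) * Complex.exp (-ZZ T U φ t x y) +
        (φ 0 t y - φ 0 t x) * (Complex.exp (-ZZ T U φ t x y) * (-kz T U φ t x y)) := by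
      have h4 : (φ 0 t y - φ 0 t x) * kz T U φ t x y = ext T U t (φ 0 t y) - ext T U t (φ 0 t x) := by
        rw [kz]; field_simp
      linear_combination (Complex.exp (-ZZ T U φ t x y)) * h4
    rw [h3]
    exact h1
  have h3 : ∀ t, (φ 0 t y - φ 0 t x) * Complex.exp (-ZZ T U φ t x y) = y - x := by
    intro t
    have h4 := is_const_of_deriv_eq_zero (fun t => (hd t).differentiableAt) (fun t => (hd t).deriv) t 0
    rw [h4, hF.init, hF.init]
    simp [ZZ]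
  have h5 := h3 t
  rw [← h5, mul_assoc, ← Complex.exp_add]
  simp

lemma Flw.ZZ_cont (hF : Flw T U φ) (h : Fld T U B) (t : ℝ) :
    ContinuousOn (fun p : ℂ × ℂ => ZZ T U φ t p.1 p.2) {p | p.1 ≠ p.2} := by
  obtain ⟨K, hK0, hK⟩ := h.bound
  have hopen : IsOpen {p : ℂ × ℂ | p.1 ≠ p.2} := isOpen_ne_fun continuous_fst continuous_snd
  intro p0 hp0
  apply ContinuousAt.continuousWithinAt
  apply intervalIntegral.continuousAt_of_dominated_interval (bound := fun _ => (K:ℝ))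
  · filter_upwards [hopen.mem_nhds hp0] with p hp
    exact (hF.kz_cont_s h hp).aestronglyMeasurable
  · exact Filter.Eventually.of_forall fun p => Filter.Eventually.of_forall fun s _ => kz_bound h hK s _ _
  · exact intervalIntegrable_const
  · refine Filter.Eventually.of_forall fun s _ => ?_
    have h1 : ContinuousOn (fun p : ℂ × ℂ => kz T U φ s p.1 p.2) {p | p.1 ≠ p.2} :=
      (hF.kz_cont h).comp (f := fun p : ℂ × ℂ => (s, p)) (by fun_prop) (fun p hp => hp)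
    exact h1.continuousAt (hopen.mem_nhds hp0)

/-- the winding along a path of pairs -/
lemma Flw.ZZ_path (hF : Flw T U φ) (h : Fld T U B) {t L d C : ℝ} (hd : 0 < d) (hL : 0 < L)
    (hC : 0 ≤ C)
    (hL1 : ∀ x ∈ DD, ∀ y ∈ DD, ‖φ 0 t x - φ 0 t y‖ ≤ L * ‖x - y‖)
    (hL2 : ∀ x ∈ DD, ∀ y ∈ DD, ‖x - y‖ ≤ L * ‖φ 0 t x - φ 0 t y‖)
    {a b : ℝ → ℂ} (ha : ContinuousOn a (Icc 0 1)) (hb : ContinuousOn b (Icc 0 1))
    (ha1 : ∀ s ∈ Icc (0:ℝ) 1, a s ∈ DD) (hb1 : ∀ s ∈ Icc (0:ℝ) 1, b s ∈ DD)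
    (hab : ∀ s ∈ Icc (0:ℝ) 1, d ≤ ‖b s - a s‖)
    (hlip : ∀ s ∈ Icc (0:ℝ) 1, ∀ r ∈ Icc (0:ℝ) 1, ‖a s - a r‖ + ‖b s - b r‖ ≤ C * |s - r|) :
    ‖ZZ T U φ t (a 1) (b 1) - ZZ T U φ t (a 0) (b 0)‖ ≤ (L ^ 2 + 1) * C / d := by
  have hne : ∀ s ∈ Icc (0:ℝ) 1, a s ≠ b s := by
    intro s hs hc
    have := hab s hs
    rw [hc, sub_self, norm_zero] at this
    linarith
  have hZc : ContinuousOn (fun s => ZZ T U φ t (a s) (b s)) (Icc 0 1) := by
    have := (hF.ZZ_cont h t).comp (ha.prodMk hb) (fun s hs => hne s hs)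
    exact this
  have he : ∀ s ∈ Icc (0:ℝ) 1, φ 0 t (b s) - φ 0 t (a s) =
      (b s - a s) * Complex.exp (ZZ T U φ t (a s) (b s)) :=
    fun s hs => hF.ZZ_exp h (hne s hs) t
  have hp : ∀ s ∈ Icc (0:ℝ) 1, ∀ r ∈ Icc (0:ℝ) 1, ‖(b s - a s) - (b r - a r)‖ ≤ C * |s - r| := by
    intro s hs r hr
    refine le_trans ?_ (hlip s hs r hr)
    have : b s - a s - (b r - a r) = (b s - b r) - (a s - a r) := by ring
    rw [this]
    refine (norm_sub_le _ _).trans ?_
    linarith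
  have hq : ∀ s ∈ Icc (0:ℝ) 1, ∀ r ∈ Icc (0:ℝ) 1,
      ‖(φ 0 t (b s) - φ 0 t (a s)) - (φ 0 t (b r) - φ 0 t (a r))‖ ≤ (L * C) * |s - r| := by
    intro s hs r hr
    have e1 := hL1 _ (ha1 s hs) _ (ha1 r hr)
    have e2 := hL1 _ (hb1 s hs) _ (hb1 r hr)
    have e3 := hlip s hs r hr
    have : φ 0 t (b s) - φ 0 t (a s) - (φ 0 t (b r) - φ 0 t (a r)) =
      (φ 0 t (b s) - φ 0 t (b r)) - (φ 0 t (a s) - φ 0 t (a r)) := by ring
    rw [this]
    refine (norm_sub_le _ _).trans ?_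
    calc ‖φ 0 t (b s) - φ 0 t (b r)‖ + ‖φ 0 t (a s) - φ 0 t (a r)‖
        ≤ L * ‖b s - b r‖ + L * ‖a s - a r‖ := by linarith
      _ = L * (‖a s - a r‖ + ‖b s - b r‖) := by ring
      _ ≤ L * (C * |s - r|) := by gcongr
      _ = _ := by ring
  have hqm : ∀ s ∈ Icc (0:ℝ) 1, d / L ≤ ‖φ 0 t (b s) - φ 0 t (a s)‖ := by
    intro s hs
    have e1 := hL2 _ (hb1 s hs) _ (ha1 s hs)
    rw [div_le_iff₀ hL]
    have e2 := hab s hs
    linarith
  have hLC : 0 ≤ L * C := by positivity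
  have hdL : 0 < d / L := by positivity
  have key := logvar hZc hd hdL hC hLC hp hq hab hqm he
  have e : C / d + L * C / (d / L) = (L ^ 2 + 1) * C / d := by
    field_simp
    ring
  rw [e] at key
  exact key

end Run7.h148
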