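import Pool.Agent.Run7.h148.Green

set_option autoImplicit false

open Metric Set MeasureTheory Filter Topology Complex
open scoped Pointwise

namespace Run7.h148

variable {ψ : ℂ → ℝ} {g : ℂ → ℂ} {H : ℂ → ℂ →L[ℝ] ℂ}

lemma sb_sub_sub (s1 s2 : ℝ) (g k : ℂ) :
    sb s1 s2 (g - k) (g - k) = sb s1 s2 g g - 2 * sb s1 s2 g k + sb s1 s2 k k := by
  simp only [sb, sub_re, sub_im]; ring

lemma sb_nonneg {s1 s2 : ℝ} (h1 : 0 < s1) (h2 : 0 < s2) (g : ℂ) : 0 ≤ sb s1 s2 g g := by
  unfold sb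
  have := mul_self_nonneg g.re
  have := mul_self_nonneg g.im
  positivity

lemma cont_sb {s1 s2 : ℝ} {X : Type*} [TopologicalSpace X] {S : Set X} {a b : X → ℂ}
    (ha : ContinuousOn a S) (hb : ContinuousOn b S) :
    ContinuousOn (fun z => sb s1 s2 (a z) (b z)) S := by
  unfold sb
  have a1 := Complex.continuous_re.comp_continuousOn ha
  have a2 := Complex.continuous_re.comp_continuousOn hb
  have a3 := Complex.continuous_im.comp_continuousOn ha
  have a4 := Complex.continuous_im.comp_continuousOn hb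
  exact ((a1.mul a2).const_smul s1).add ((a3.mul a4).const_smul s2)

lemma cont_Lop {s1 s2 : ℝ} {X : Type*} [TopologicalSpace X] {S : Set X} {K : X → ℂ →L[ℝ] ℂ}
    (hK : ContinuousOn K S) : ContinuousOn (fun z => Lop s1 s2 (K z)) S := by
  unfold Lop
  have cH1 : ContinuousOn (fun z => (K z 1).re) S :=
    Complex.continuous_re.comp_continuousOn (hK.clm_apply continuousOn_const)
  have cH2 : ContinuousOn (fun z => (K z I).im) S :=
    Complex.continuous_im.comp_continuousOn (hK.clm_apply continuousOn_const)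
  exact (cH1.const_smul s1).add (cH2.const_smul s2)

theorem C2.energy (h : C2 ψ g H) (s1 s2 : ℝ) :
    ∫ z in ball (0:ℂ) 1, sb s1 s2 (g z) (g z) = - ∫ z in ball (0:ℂ) 1, ψ z * Lop s1 s2 (H z) :=
  green h s1 s2 one_pos le_rfl h.hψ h.cg h.bd

/-- extension by zero -/
noncomputable def ez (ψ : ℂ → ℝ) (z : ℂ) : ℝ := if ‖z‖ < 1 then ψ z else 0

theorem C2.ez_lip (h : C2 ψ g H) : ∃ C : NNReal, LipschitzWith C (ez ψ) := by
  have hcont : ContinuousOn (fun z => dl (g z)) DD := continuous_dl.comp_continuousOn h.cg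
  obtain ⟨C, hC⟩ := (isCompact_closedBall (0:ℂ) 1).exists_bound_of_continuousOn hcont
  exact ⟨_, lip_zero_ext one_pos h.hψ h.bd hC⟩

theorem dilate (h : C2 ψ g H) {s1 s2 : ℝ} (h1 : 0 < s1) (h2 : 0 < s2) {δ : ℝ} (hδ : 0 < δ) :
    0 ≤ ∫ z in ball (0:ℂ) 1, (ez ψ ((1 + δ : ℝ) • z) - ψ z) * Lop s1 s2 (H z) := by
  set ρ : ℝ := (1 + δ)⁻¹ with hρdef
  have hρ : 0 < ρ := by positivity
  have hρ1 : ρ < 1 := inv_lt_one_of_one_lt₀ (by linarith)
  have hρi : ρ⁻¹ = 1 + δ := by rw [hρdef, inv_inv]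
  have hmaps : MapsTo (fun z : ℂ => ρ⁻¹ • z) (closedBall 0 ρ) DD := by
    intro z hz
    rw [mem_closedBall_zero_iff] at *
    rw [norm_smul, norm_inv, Real.norm_eq_abs, abs_of_pos hρ, inv_mul_le_iff₀ hρ, mul_one]
    exact hz
  set χ : ℂ → ℝ := fun z => ψ (ρ⁻¹ • z) with hχ
  set k : ℂ → ℂ := fun z => ρ⁻¹ • g (ρ⁻¹ • z) with hk
  have hχd : ∀ z ∈ closedBall (0:ℂ) ρ, HasFDerivWithinAt χ (dl (k z)) (closedBall 0 ρ) z := by
    intro z hz
    have e1 : HasFDerivWithinAt (fun z : ℂ => ρ⁻¹ • z) (ρ⁻¹ • ContinuousLinearMap.id ℝ ℂ)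
        (closedBall 0 ρ) z := ((hasFDerivAt_id z).const_smul ρ⁻¹).hasFDerivWithinAt
    have e2 := (h.hψ (ρ⁻¹ • z) (hmaps hz)).comp z e1 hmaps
    have e3 : dl (k z) = (dl (g (ρ⁻¹ • z))).comp (ρ⁻¹ • ContinuousLinearMap.id ℝ ℂ) := by
      ext v
      simp [hk]
      try ring
    rw [e3]
    exact e2
  have hck : ContinuousOn k (closedBall 0 ρ) := by
    have : ContinuousOn (fun z : ℂ => g (ρ⁻¹ • z)) (closedBall 0 ρ) :=
      h.cg.comp (by fun_prop) hmaps
    exact this.const_smul ρ⁻¹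
  have hχ0 : ∀ z : ℂ, ‖z‖ = ρ → χ z = 0 := by
    intro z hz
    apply h.bd
    rw [norm_smul, norm_inv, Real.norm_eq_abs, abs_of_pos hρ, hz, inv_mul_cancel₀ hρ.ne']
  have A := green h s1 s2 hρ hρ1.le hχd hck hχ0
  have Bq : ∫ z in ball (0:ℂ) ρ, sb s1 s2 (k z) (k z) = ∫ z in ball (0:ℂ) 1, sb s1 s2 (g z) (g z) := by
    have e1 := Measure.setIntegral_comp_smul_of_pos (volume : Measure ℂ)
      (fun z => sb s1 s2 (g z) (g z)) (ball (0:ℂ) ρ) (inv_pos.2 hρ)
    have e2 : (ρ⁻¹ : ℝ) • ball (0:ℂ) ρ = ball (0:ℂ) 1 := by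
      rw [_root_.smul_ball (inv_pos.2 hρ).ne', smul_zero, norm_inv, Real.norm_eq_abs, abs_of_pos hρ,
        inv_mul_cancel₀ hρ.ne']
    rw [e2, Complex.finrank_real_complex] at e1
    have e3 : ∀ z, sb s1 s2 (k z) (k z) = ρ⁻¹ ^ 2 * sb s1 s2 (g (ρ⁻¹ • z)) (g (ρ⁻¹ • z)) := by
      intro z
      simp only [hk, sb, Complex.smul_re, Complex.smul_im, smul_eq_mul]
      ring
    simp only [e3]
    rw [integral_const_mul, e1, smul_eq_mul]
    field_simp
  have Cq := h.energy s1 s2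
  have hsub : closedBall (0:ℂ) ρ ⊆ DD := closedBall_subset_closedBall hρ1.le
  have cg := h.cg.mono hsub
  have i1 : IntegrableOn (fun z => sb s1 s2 (g z) (g z)) (ball 0 ρ) := intOn_of_contOn (cont_sb cg cg)
  have i2 : IntegrableOn (fun z => sb s1 s2 (g z) (k z)) (ball 0 ρ) := intOn_of_contOn (cont_sb cg hck)
  have i3 : IntegrableOn (fun z => sb s1 s2 (k z) (k z)) (ball 0 ρ) := intOn_of_contOn (cont_sb hck hck)
  have i4 : IntegrableOn (fun z => sb s1 s2 (g z) (g z)) (ball 0 1) := intOn_of_contOn (cont_sb h.cg h.cg)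
  have D0 : 0 ≤ ∫ z in ball (0:ℂ) ρ, sb s1 s2 (g z - k z) (g z - k z) :=
    integral_nonneg fun z => sb_nonneg h1 h2 _
  have D1 : ∫ z in ball (0:ℂ) ρ, sb s1 s2 (g z - k z) (g z - k z) =
      (∫ z in ball (0:ℂ) ρ, sb s1 s2 (g z) (g z)) - 2 * (∫ z in ball (0:ℂ) ρ, sb s1 s2 (g z) (k z))
      + ∫ z in ball (0:ℂ) ρ, sb s1 s2 (k z) (k z) := by
    simp only [sb_sub_sub]
    have j1 : IntegrableOn (fun z => sb s1 s2 (g z) (g z) - 2 * sb s1 s2 (g z) (k z)) (ball 0 ρ) :=
      i1.sub (i2.const_mul 2)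
    rw [integral_add j1 i3, integral_sub i1 (i2.const_mul 2), integral_const_mul]
  have D2 : ∫ z in ball (0:ℂ) ρ, sb s1 s2 (g z) (g z) ≤ ∫ z in ball (0:ℂ) 1, sb s1 s2 (g z) (g z) :=
    setIntegral_mono_set i4 (Filter.Eventually.of_forall fun z => sb_nonneg h1 h2 _)
      (Filter.Eventually.of_forall (ball_subset_ball hρ1.le))
  rw [D1, A, Bq] at D0
  have E1 : ∫ z in ball (0:ℂ) ρ, χ z * Lop s1 s2 (H z) =
      ∫ z in ball (0:ℂ) 1, ez ψ ((1 + δ : ℝ) • z) * Lop s1 s2 (H z) := by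
    have e1 : ∀ z, (ball (0:ℂ) ρ).indicator (fun z => χ z * Lop s1 s2 (H z)) z =
        (ball (0:ℂ) 1).indicator (fun z => ez ψ ((1 + δ : ℝ) • z) * Lop s1 s2 (H z)) z := by
      intro z
      have hn : ‖(1 + δ : ℝ) • z‖ = (1 + δ) * ‖z‖ := by
        rw [norm_smul, Real.norm_eq_abs, abs_of_pos (by linarith)]
      by_cases hz : ‖z‖ < ρ
      · have hz1 : ‖(1 + δ : ℝ) • z‖ < 1 := by
          rw [hn, ← hρi, inv_mul_lt_iff₀ hρ, mul_one]; exact hz
        rw [indicator_of_mem (by simpa using hz), indicator_of_mem (by simpa using hz.trans hρ1)]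
        rw [ez, if_pos hz1, hχ, hρi]
      · rw [indicator_of_notMem (by simpa using hz)]
        by_cases hz2 : ‖z‖ < 1
        · rw [indicator_of_mem (by simpa using hz2), ez, if_neg, zero_mul]
          rw [hn, ← hρi, not_lt, le_inv_mul_iff₀ hρ, mul_one]
          exact not_lt.1 hz
        · rw [indicator_of_notMem (by simpa using hz2)]
    rw [← integral_indicator measurableSet_ball, ← integral_indicator measurableSet_ball]
    exact integral_congr_ae (Filter.Eventually.of_forall e1)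
  obtain ⟨C, hC⟩ := h.ez_lip
  have cL : ContinuousOn (fun z => Lop s1 s2 (H z)) DD := cont_Lop h.cH
  have i5 : IntegrableOn (fun z => ez ψ ((1 + δ : ℝ) • z) * Lop s1 s2 (H z)) (ball 0 1) := by
    apply intOn_of_contOn
    have : Continuous (fun z : ℂ => ez ψ ((1 + δ : ℝ) • z)) := hC.continuous.comp (by fun_prop)
    exact this.continuousOn.mul cL
  have i6 : IntegrableOn (fun z => ψ z * Lop s1 s2 (H z)) (ball 0 1) := intOn_of_contOn (h.cψ.mul cL)
  simp only [sub_mul]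
  rw [integral_sub i5 i6, ← E1]
  linarith

/-- Pohozaev inequality -/
theorem poho (h : C2 ψ g H) {s1 s2 : ℝ} (h1 : 0 < s1) (h2 : 0 < s2) :
    0 ≤ ∫ z in ball (0:ℂ) 1, dl (g z) z * Lop s1 s2 (H z) := by
  obtain ⟨C, hC⟩ := h.ez_lip
  have cL : ContinuousOn (fun z => Lop s1 s2 (H z)) DD := cont_Lop h.cH
  obtain ⟨C', hC'⟩ := (isCompact_closedBall (0:ℂ) 1).exists_bound_of_continuousOn cL
  let δ : ℕ → ℝ := fun n => 1 / ((n:ℝ) + 1)
  have hδ0 : ∀ n, 0 < δ n := fun n => by positivity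
  have hδ : Tendsto δ atTop (𝓝 0) := tendsto_one_div_add_atTop_nhds_zero_nat
  let F : ℕ → ℂ → ℝ := fun n z => (δ n)⁻¹ * ((ez ψ ((1 + δ n : ℝ) • z) - ψ z) * Lop s1 s2 (H z))
  have hlim : Tendsto (fun n => ∫ z in ball (0:ℂ) 1, F n z) atTop
      (𝓝 (∫ z in ball (0:ℂ) 1, dl (g z) z * Lop s1 s2 (H z))) := by
    apply tendsto_integral_of_dominated_convergence (fun _ => (C:ℝ) * C')
    · intro n
      have c1 : Continuous (fun z : ℂ => ez ψ ((1 + δ n : ℝ) • z)) := hC.continuous.comp (by fun_prop)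
      have c2 : ContinuousOn (F n) DD :=
        ((c1.continuousOn.sub h.cψ).mul cL).const_smul (δ n)⁻¹
      exact (intOn_of_contOn c2).aestronglyMeasurable
    · exact integrableOn_const (measure_ball_lt_top).ne
    · intro n
      filter_upwards [ae_restrict_mem measurableSet_ball] with z hz
      have hzn : ‖z‖ < 1 := by simpa using hz
      have e1 : ψ z = ez ψ z := by rw [ez, if_pos hzn]
      have e2 := hC.dist_le_mul ((1 + δ n : ℝ) • z) z
      rw [dist_eq_norm, dist_eq_norm] at e2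
      have e3 : (1 + δ n : ℝ) • z - z = δ n • z := by rw [add_smul, one_smul]; ring
      rw [e3, norm_smul, Real.norm_eq_abs (δ n), abs_of_pos (hδ0 n)] at e2
      simp only [F]
      rw [norm_mul, norm_mul, e1, norm_inv, Real.norm_eq_abs (δ n), abs_of_pos (hδ0 n)]
      have e4 := hC' z (ball_subset_closedBall hz)
      have e5 : (δ n)⁻¹ * ‖ez ψ ((1 + δ n : ℝ) • z) - ez ψ z‖ ≤ C := by
        rw [inv_mul_le_iff₀ (hδ0 n)]
        refine e2.trans ?_
        have hC0 : (0:ℝ) ≤ C := C.2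
        calc (C:ℝ) * (δ n * ‖z‖) ≤ C * (δ n * 1) := by
              gcongr
          _ = δ n * C := by ring
      rw [← mul_assoc]
      exact mul_le_mul e5 e4 (norm_nonneg _) C.2
    · filter_upwards [ae_restrict_mem measurableSet_ball] with z hz
      have hzn : ‖z‖ < 1 := by simpa using hz
      have e1 : HasFDerivAt ψ (dl (g z)) z :=
        (h.hψ z (ball_subset_closedBall hz)).hasFDerivAt (Filter.mem_of_superset
          (isOpen_ball.mem_nhds hz) ball_subset_closedBall)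
      have e1' : HasFDerivAt (ez ψ) (dl (g z)) z := by
        apply e1.congr_of_eventuallyEq
        filter_upwards [isOpen_ball.mem_nhds hz] with w hw
        rw [ez, if_pos (by simpa using hw)]
      have e2 : HasDerivAt (fun r : ℝ => ez ψ (z + r • z)) (dl (g z) z) 0 := e1'.hasLineDerivAt z
      have e3 := e2.tendsto_slope_zero_right
      have e4 : Tendsto δ atTop (𝓝[>] 0) := by
        rw [tendsto_nhdsWithin_iff]
        exact ⟨hδ, Filter.Eventually.of_forall fun n => hδ0 n⟩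
      have e5 := (e3.comp e4).mul_const (Lop s1 s2 (H z))
      refine e5.congr fun n => ?_
      simp only [Function.comp, F, smul_eq_mul, zero_add, zero_smul, add_zero]
      rw [ez, ez, if_pos hzn, ez]
      have e6 : z + δ n • z = (1 + δ n : ℝ) • z := by rw [add_smul, one_smul]
      rw [e6]; ring
  refine ge_of_tendsto' hlim fun n => ?_
  simp only [F]
  rw [integral_const_mul]
  exact mul_nonneg (inv_nonneg.2 (hδ0 n).le) (dilate h h1 h2 (hδ0 n))

end Run7.h148
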