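import Mathlib

set_option autoImplicit false

open Metric Set MeasureTheory Filter Topology Complex

namespace Run7.h148

/-- radial projection on the closed unit disc -/
noncomputable def pj (z : ℂ) : ℂ := (max 1 ‖z‖)⁻¹ • z

lemma pj_of_le {z : ℂ} (hz : ‖z‖ ≤ 1) : pj z = z := by
  simp [pj, max_eq_left hz]

lemma norm_pj_le (z : ℂ) : ‖pj z‖ ≤ 1 := by
  unfold pj
  rw [norm_smul, norm_inv, Real.norm_eq_abs, abs_of_pos (lt_of_lt_of_le one_pos (le_max_left _ _))]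
  rw [inv_mul_le_iff₀ (lt_of_lt_of_le one_pos (le_max_left _ _)), mul_one]
  exact le_max_right _ _

lemma pj_mem (z : ℂ) : pj z ∈ closedBall (0:ℂ) 1 := by
  simpa using norm_pj_le z

lemma pj_of_ge {z : ℂ} (hz : 1 ≤ ‖z‖) : pj z = (‖z‖)⁻¹ • z := by
  simp [pj, max_eq_right hz]

lemma norm_pj_of_ge {z : ℂ} (hz : 1 ≤ ‖z‖) : ‖pj z‖ = 1 := by
  rw [pj_of_ge hz, norm_smul, norm_inv, norm_norm, inv_mul_cancel₀]
  linarith

open scoped RealInnerProductSpace in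
lemma pj_obtuse (z w : ℂ) (hw : ‖w‖ ≤ 1) : 0 ≤ ⟪z - pj z, pj z - w⟫ := by
  have hm : (0:ℝ) < max 1 ‖z‖ := lt_of_lt_of_le one_pos (le_max_left _ _)
  have h1 : z = (max 1 ‖z‖) • pj z := by
    rw [pj, smul_smul, mul_inv_cancel₀ hm.ne', one_smul]
  have h2 : z - pj z = (max 1 ‖z‖ - 1) • pj z := by
    rw [sub_smul, one_smul, ← h1]
  rw [h2, real_inner_smul_left, inner_sub_right, real_inner_self_eq_norm_sq]
  rcases le_total ‖z‖ 1 with h | h
  · rw [max_eq_left h]; simp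
  · have h3 : ‖pj z‖ = 1 := norm_pj_of_ge h
    have h4 : ⟪pj z, w⟫ ≤ 1 := by
      calc ⟪pj z, w⟫ ≤ ‖pj z‖ * ‖w‖ := real_inner_le_norm _ _
        _ ≤ 1 := by rw [h3, one_mul]; exact hw
    rw [h3]
    apply mul_nonneg
    · have := le_max_left 1 ‖z‖; linarith
    · linarith

open scoped RealInnerProductSpace in
lemma pj_sub_le (z w : ℂ) : ‖pj z - pj w‖ ≤ ‖z - w‖ := by
  have h1 := pj_obtuse z (pj w) (norm_pj_le w)
  have h2 := pj_obtuse w (pj z) (norm_pj_le z)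
  have h3 : ‖pj z - pj w‖ ^ 2 ≤ ⟪z - w, pj z - pj w⟫ := by
    rw [← real_inner_self_eq_norm_sq]
    have e : ⟪z - w, pj z - pj w⟫ = ⟪z - pj z, pj z - pj w⟫ + ⟪w - pj w, pj w - pj z⟫
        + ⟪pj z - pj w, pj z - pj w⟫ := by
      simp only [inner_sub_left, inner_sub_right]
      ring
    rw [e]; linarith
  have h4 : ⟪z - w, pj z - pj w⟫ ≤ ‖z - w‖ * ‖pj z - pj w‖ := real_inner_le_norm _ _
  by_contra hcon
  push Not at hcon
  have h5 : 0 < ‖pj z - pj w‖ := lt_of_le_of_lt (norm_nonneg _) hcon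
  nlinarith

lemma pj_lip : LipschitzWith 1 pj := by
  apply LipschitzWith.of_dist_le_mul
  intro z w
  rw [dist_eq_norm, dist_eq_norm]
  simpa using pj_sub_le z w

lemma continuous_pj : Continuous pj := pj_lip.continuous

/-- clamp of time -/
noncomputable def cl (T t : ℝ) : ℝ := max 0 (min t T)

lemma cl_mem {T : ℝ} (hT : 0 ≤ T) (t : ℝ) : cl T t ∈ Icc 0 T :=
  ⟨le_max_left _ _, max_le hT (min_le_right _ _)⟩

lemma cl_of_mem {T t : ℝ} (ht : t ∈ Icc 0 T) : cl T t = t := by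
  simp [cl, ht.1, ht.2]

lemma continuous_cl (T : ℝ) : Continuous (cl T) := by
  unfold cl; fun_prop

end Run7.h148
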