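import Pool.Agent.Run7.h148.HSum

set_option autoImplicit false

open Metric Set Filter Topology

namespace Run7.h148

/-- second difference -/
def sd (f : ℂ → ℝ) (z v : ℂ) : ℝ := f (z + v) + f (z - v) - 2 * f z

/-- `f` is nowhere better than `C^γ`, in a strong directional sense -/
def Rough (γ c : ℝ) (f : ℂ → ℝ) : Prop :=
  ∀ x e : ℂ, ‖e‖ = 1 → ∀ η > 0, ∃ (z e' : ℂ) (r : ℝ), ‖z - x‖ < η ∧ ‖e' - e‖ < η ∧ ‖e'‖ = 1 ∧
    0 < r ∧ r < η ∧ c * r ^ γ ≤ |sd f z ((r : ℂ) * e')|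

lemma exists_seq : ∃ z e : ℕ → ℂ, (∀ n, ‖e n‖ = 1) ∧ ∀ x e' : ℂ, ‖e'‖ = 1 → ∀ η > 0, ∀ N : ℕ,
    ∃ n ≥ N, ‖z n - x‖ < η ∧ ‖e n - e'‖ < η := by
  let S := {p : ℂ × ℂ // ‖p.2‖ = 1}
  have : Nonempty S := ⟨⟨(0, 1), by simp⟩⟩
  let d := TopologicalSpace.denseSeq S
  refine ⟨fun n => (d (Nat.unpair n).1).1.1, fun n => (d (Nat.unpair n).1).1.2,
    fun n => (d (Nat.unpair n).1).2, ?_⟩
  intro x e' he η hη N
  obtain ⟨i, hi⟩ := (TopologicalSpace.denseRange_denseSeq S).exists_dist_lt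
    (⟨(x, e'), he⟩ : S) hη
  refine ⟨Nat.pair i N, Nat.right_le_pair _ _, ?_⟩
  simp only [Nat.unpair_pair]
  rw [Subtype.dist_eq, Prod.dist_eq, max_lt_iff] at hi
  obtain ⟨h1, h2⟩ := hi
  rw [dist_comm, dist_eq_norm] at h1 h2
  exact ⟨h1, h2⟩

/-- a fixed smooth bump -/
noncomputable def bb : ContDiffBump (0:ℂ) := ⟨1 / 2, 1, by norm_num, by norm_num⟩

lemma bb_zero : bb 0 = 1 := bb.one_of_mem_closedBall (by simp [bb])

lemma bb_out {w : ℂ} (hw : 1 ≤ ‖w‖) : bb w = 0 := by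
  apply bb.zero_of_le_dist
  rw [dist_zero_right]
  exact hw

lemma bb_bounds : ∃ K : ℝ, 1 ≤ K ∧ (∀ w, ‖fderiv ℝ bb w‖ ≤ K) ∧
    (∀ w w', |bb w - bb w'| ≤ K * ‖w - w'‖) ∧
    (∀ w w', ‖fderiv ℝ bb w - fderiv ℝ bb w'‖ ≤ K * ‖w - w'‖) := by
  have c1 : ContDiff ℝ 2 bb := bb.contDiff
  have c2 : ContDiff ℝ 1 (fderiv ℝ bb) := c1.fderiv_right (by norm_num)
  have s1 : HasCompactSupport bb := bb.hasCompactSupport
  obtain ⟨C, hC⟩ := (bb.contDiff (n := 1)).lipschitzWith_of_hasCompactSupport s1 (by norm_num)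
  obtain ⟨C', hC'⟩ := c2.lipschitzWith_of_hasCompactSupport (s1.fderiv (𝕜 := ℝ)) (by norm_num)
  refine ⟨max 1 (max C C'), le_max_left _ _, fun w => ?_, fun w w' => ?_, fun w w' => ?_⟩
  · exact (norm_fderiv_le_of_lipschitz ℝ hC).trans ((le_max_left _ _).trans (le_max_right _ _))
  · have := hC.dist_le_mul w w'
    rw [Real.dist_eq, dist_eq_norm] at this
    exact this.trans (by gcongr; exact (le_max_left _ _).trans (le_max_right _ _))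
  · have := hC'.dist_le_mul w w'
    rw [dist_eq_norm, dist_eq_norm] at this
    exact this.trans (by gcongr; exact (le_max_right _ _).trans (le_max_right _ _))

/-- the `n`-th bump, of height `3⁻ⁿ` and radius `ρⁿ` -/
noncomputable def bmp (ρ : ℝ) (z : ℕ → ℂ) (n : ℕ) (x : ℂ) : ℝ :=
  (1 / 3) ^ n * bb (((ρ ^ n)⁻¹ : ℝ) • (x - z n))

lemma bmp_nonneg (ρ : ℝ) (z : ℕ → ℂ) (n : ℕ) (x : ℂ) : 0 ≤ bmp ρ z n x := by
  unfold bmp
  have := bb.nonneg' (((ρ ^ n)⁻¹ : ℝ) • (x - z n))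
  positivity

lemma bmp_le (ρ : ℝ) (z : ℕ → ℂ) (n : ℕ) (x : ℂ) : bmp ρ z n x ≤ (1 / 3) ^ n := by
  unfold bmp
  have := bb.le_one (x := (((ρ ^ n)⁻¹ : ℝ) • (x - z n)))
  have h : (0:ℝ) ≤ (1 / 3) ^ n := by positivity
  nlinarith

lemma sd_bmp_le (ρ : ℝ) (z : ℕ → ℂ) (n : ℕ) (x v : ℂ) : |sd (bmp ρ z n) x v| ≤ 2 * (1 / 3) ^ n := by
  unfold sd
  have h1 := bmp_nonneg ρ z n (x + v)
  have h2 := bmp_nonneg ρ z n (x - v)
  have h3 := bmp_nonneg ρ z n x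
  have h4 := bmp_le ρ z n (x + v)
  have h5 := bmp_le ρ z n (x - v)
  have h6 := bmp_le ρ z n x
  rw [abs_le]
  constructor <;> linarith

lemma sd_bmp_self {ρ : ℝ} (hρ : 0 < ρ) (z e : ℕ → ℂ) (he : ∀ n, ‖e n‖ = 1) (n : ℕ) :
    sd (bmp ρ z n) (z n) (((ρ ^ n : ℝ) : ℂ) * e n) = - 2 * (1 / 3) ^ n := by
  have hn : 0 < ρ ^ n := by positivity
  have h1 : ((ρ ^ n)⁻¹ : ℝ) • (((ρ ^ n : ℝ) : ℂ) * e n) = e n := by
    rw [Complex.real_smul, ← mul_assoc, ← Complex.ofReal_mul, inv_mul_cancel₀ hn.ne',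
      Complex.ofReal_one, one_mul]
  unfold sd bmp
  have e1 : z n + ((ρ ^ n : ℝ) : ℂ) * e n - z n = ((ρ ^ n : ℝ) : ℂ) * e n := by ring
  have e2 : z n - ((ρ ^ n : ℝ) : ℂ) * e n - z n = -(((ρ ^ n : ℝ) : ℂ) * e n) := by ring
  rw [e1, e2, smul_neg, h1, sub_self, smul_zero, bb_zero, bb_out (he n).ge,
    bb_out (by rw [norm_neg]; exact (he n).ge)]
  ring

/-- sign selection -/
noncomputable def sgn' (a : ℝ) : ℝ := if 0 ≤ a then -1 else 1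

lemma abs_sgn' (a : ℝ) : |sgn' a| ≤ 1 := by
  unfold sgn'; split_ifs <;> simp

lemma sgn'_spec (a b : ℝ) (hb : 0 ≤ b) : b ≤ |a + sgn' a * (-b)| := by
  unfold sgn'
  split_ifs with h
  · rw [abs_of_nonneg] <;> nlinarith
  · push Not at h
    rw [abs_of_nonpos] <;> nlinarith

/-- partial sums with adaptive signs -/
noncomputable def SS (ρ ε : ℝ) (z e : ℕ → ℂ) (f : ℂ → ℝ) : ℕ → (ℂ → ℝ)
  | 0 => fun _ => 0
  | n + 1 => fun x => SS ρ ε z e f n x +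
      sgn' (sd (fun y => f y + ε * SS ρ ε z e f n y) (z n) (((ρ ^ n : ℝ) : ℂ) * e n)) * bmp ρ z n x

/-- the signs -/
noncomputable def sg (ρ ε : ℝ) (z e : ℕ → ℂ) (f : ℂ → ℝ) (n : ℕ) : ℝ :=
  sgn' (sd (fun y => f y + ε * SS ρ ε z e f n y) (z n) (((ρ ^ n : ℝ) : ℂ) * e n))

lemma SS_eq (ρ ε : ℝ) (z e : ℕ → ℂ) (f : ℂ → ℝ) (n : ℕ) (x : ℂ) :
    SS ρ ε z e f n x = ∑ i ∈ Finset.range n, sg ρ ε z e f i * bmp ρ z i x := by
  induction n with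
  | zero => simp [SS]
  | succ n ih =>
    rw [Finset.sum_range_succ, ← ih]
    rfl

lemma summable_bmp (ρ : ℝ) (z : ℕ → ℂ) {σ : ℕ → ℝ} (hσ : ∀ n, |σ n| ≤ 1) (x : ℂ) :
    Summable (fun i => σ i * bmp ρ z i x) := by
  refine Summable.of_norm_bounded (g := fun i => (1 / 3 : ℝ) ^ i)
    (summable_geometric_of_lt_one (by norm_num) (by norm_num)) fun i => ?_
  rw [norm_mul, Real.norm_eq_abs, Real.norm_eq_abs, abs_of_nonneg (bmp_nonneg _ _ _ _)]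
  calc |σ i| * bmp ρ z i x ≤ 1 * (1 / 3) ^ i :=
        mul_le_mul (hσ i) (bmp_le _ _ _ _) (bmp_nonneg _ _ _ _) zero_le_one
    _ = _ := one_mul _

theorem rough_series {ρ : ℝ} (hρ : 0 < ρ) {ε : ℝ} (hε : 0 < ε) (z e : ℕ → ℂ) (he : ∀ n, ‖e n‖ = 1)
    (f : ℂ → ℝ) : ∃ σ : ℕ → ℝ, (∀ n, |σ n| ≤ 1) ∧ ∀ n,
    ε * (1 / 3) ^ n ≤ |sd (fun x => f x + ε * ∑' i, σ i * bmp ρ z i x) (z n) (((ρ ^ n : ℝ) : ℂ) * e n)| := by
  refine ⟨sg ρ ε z e f, fun n => abs_sgn' _, fun n => ?_⟩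
  set σ := sg ρ ε z e f with hσ
  have hσ1 : ∀ n, |σ n| ≤ 1 := fun n => abs_sgn' _
  set p := z n
  set v := ((ρ ^ n : ℝ) : ℂ) * e n
  have hsplit : ∀ x, ∑' i, σ i * bmp ρ z i x = SS ρ ε z e f n x + σ n * bmp ρ z n x +
      ∑' i, σ (i + (n + 1)) * bmp ρ z (i + (n + 1)) x := by
    intro x
    rw [← (summable_bmp ρ z hσ1 x).sum_add_tsum_nat_add (n + 1), Finset.sum_range_succ, SS_eq]
  have hs : ∀ x, Summable (fun i => σ (i + (n + 1)) * bmp ρ z (i + (n + 1)) x) := fun x =>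
    (summable_nat_add_iff (n + 1)).2 (summable_bmp ρ z hσ1 x)
  have e1 : sd (fun x => f x + ε * ∑' i, σ i * bmp ρ z i x) p v =
      (sd (fun x => f x + ε * SS ρ ε z e f n x) p v + ε * (σ n * sd (bmp ρ z n) p v)) +
      ε * ∑' i, σ (i + (n + 1)) * sd (bmp ρ z (i + (n + 1))) p v := by
    have e2 : ∑' i, σ (i + (n + 1)) * sd (bmp ρ z (i + (n + 1))) p v =
        ∑' i, σ (i + (n + 1)) * bmp ρ z (i + (n + 1)) (p + v) +
        ∑' i, σ (i + (n + 1)) * bmp ρ z (i + (n + 1)) (p - v) -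
        2 * ∑' i, σ (i + (n + 1)) * bmp ρ z (i + (n + 1)) p := by
      rw [← Summable.tsum_add (hs _) (hs _), ← tsum_mul_left,
        ← Summable.tsum_sub ((hs _).add (hs _)) ((hs _).mul_left 2)]
      refine tsum_congr fun i => ?_
      unfold sd; ring
    rw [e2]
    simp only [sd, hsplit]
    ring
  have e3 : |∑' i, σ (i + (n + 1)) * sd (bmp ρ z (i + (n + 1))) p v| ≤ (1 / 3) ^ n := by
    have hgeo : HasSum (fun i : ℕ => 2 * (1 / 3 : ℝ) ^ (n + 1) * (1 / 3) ^ i)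
        (2 * (1 / 3 : ℝ) ^ (n + 1) * (1 - 1 / 3)⁻¹) :=
      (hasSum_geometric_of_lt_one (by norm_num) (by norm_num)).mul_left _
    have := tsum_of_norm_bounded (f := fun i => σ (i + (n + 1)) * sd (bmp ρ z (i + (n + 1))) p v)
      hgeo (fun i => by
        rw [norm_mul, Real.norm_eq_abs, Real.norm_eq_abs]
        calc |σ (i + (n + 1))| * |sd (bmp ρ z (i + (n + 1))) p v|
            ≤ 1 * (2 * (1 / 3) ^ (i + (n + 1))) :=
              mul_le_mul (hσ1 _) (sd_bmp_le _ _ _ _ _) (abs_nonneg _) zero_le_one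
          _ = _ := by rw [pow_add]; ring)
    rw [Real.norm_eq_abs] at this
    refine this.trans (le_of_eq ?_)
    rw [pow_succ]; ring
  have e4 := sgn'_spec (sd (fun x => f x + ε * SS ρ ε z e f n x) p v) (ε * (2 * (1 / 3) ^ n))
    (by positivity)
  have e5 : sd (fun x => f x + ε * SS ρ ε z e f n x) p v + ε * (σ n * sd (bmp ρ z n) p v) =
      sd (fun x => f x + ε * SS ρ ε z e f n x) p v +
      sgn' (sd (fun x => f x + ε * SS ρ ε z e f n x) p v) * (-(ε * (2 * (1 / 3) ^ n))) := by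
    have : σ n = sgn' (sd (fun x => f x + ε * SS ρ ε z e f n x) p v) := rfl
    rw [← this, sd_bmp_self hρ z e he n]
    ring
  rw [← e5] at e4
  rw [e1]
  set a := sd (fun x => f x + ε * SS ρ ε z e f n x) p v + ε * (σ n * sd (bmp ρ z n) p v)
  set b := ∑' i, σ (i + (n + 1)) * sd (bmp ρ z (i + (n + 1))) p v
  have e6 : |ε * b| ≤ ε * (1 / 3) ^ n := by
    rw [abs_mul, abs_of_pos hε]; gcongr
  have e7 : |a| - |ε * b| ≤ |a + ε * b| := by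
    have := abs_sub_abs_le_abs_sub a (-(ε * b))
    rwa [abs_neg, sub_neg_eq_add] at this
  linarith

end Run7.h148
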