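import Pool.Agent.Run7.h148.Kern

set_option autoImplicit false

open Metric Set MeasureTheory Filter Topology Complex

namespace Run7.h148

variable {ψ₀ : ℂ → ℝ} {g₀ : ℂ → ℂ} {H₀ : ℂ → ℂ →L[ℝ] ℂ}
variable {ψ₁ : ℂ → ℝ} {g₁ : ℂ → ℂ} {H₁ : ℂ → ℂ →L[ℝ] ℂ}

lemma dl_add (a b : ℂ) : dl (a + b) = dl a + dl b := by
  ext v
  simp
  ring

lemma dl_sub (a b : ℂ) : dl (a - b) = dl a - dl b := by
  ext v
  simp
  ring

lemma C2.add (h : C2 ψ₀ g₀ H₀) (k : C2 ψ₁ g₁ H₁) :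
    C2 (fun z => ψ₀ z + ψ₁ z) (fun z => g₀ z + g₁ z) (fun z => H₀ z + H₁ z) where
  hψ z hz := by rw [dl_add]; exact (h.hψ z hz).add (k.hψ z hz)
  hg z hz := (h.hg z hz).add (k.hg z hz)
  cH := h.cH.add k.cH
  bd z hz := by rw [h.bd z hz, k.bd z hz, add_zero]

lemma C2.sub (h : C2 ψ₀ g₀ H₀) (k : C2 ψ₁ g₁ H₁) :
    C2 (fun z => ψ₀ z - ψ₁ z) (fun z => g₀ z - g₁ z) (fun z => H₀ z - H₁ z) where
  hψ z hz := by rw [dl_sub]; exact (h.hψ z hz).sub (k.hψ z hz)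
  hg z hz := (h.hg z hz).sub (k.hg z hz)
  cH := h.cH.sub k.cH
  bd z hz := by rw [h.bd z hz, k.bd z hz, sub_zero]

lemma Lop_sub (s1 s2 : ℝ) (A B : ℂ →L[ℝ] ℂ) : Lop s1 s2 (A - B) = Lop s1 s2 A - Lop s1 s2 B := by
  simp only [Lop, sub_apply, Complex.sub_re, Complex.sub_im]; ring

lemma Lop_add (s1 s2 : ℝ) (A B : ℂ →L[ℝ] ℂ) : Lop s1 s2 (A + B) = Lop s1 s2 A + Lop s1 s2 B := by
  simp only [Lop, add_apply, Complex.add_re, Complex.add_im]; ring

/-- the quadratic `c (|z|² - 1)/2` -/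
lemma C2_quad (c : ℝ) : C2 (fun z => c * (‖z‖ ^ 2 - 1) / 2) (fun z => (c : ℂ) * z)
    (fun _ => (c : ℂ) • ContinuousLinearMap.id ℝ ℂ) where
  hψ z hz := by
    have e1 : (fun z : ℂ => c * (‖z‖ ^ 2 - 1) / 2) = fun z : ℂ => (c / 2) * (z.re * z.re + z.im * z.im) - c / 2 := by
      funext z
      rw [← Complex.normSq_apply, Complex.normSq_eq_norm_sq]; ring
    rw [e1]
    have h1 : HasFDerivAt (fun z : ℂ => z.re) reCLM z := reCLM.hasFDerivAt
    have h2 : HasFDerivAt (fun z : ℂ => z.im) imCLM z := imCLM.hasFDerivAt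
    have h3 := (((h1.mul h1).add (h2.mul h2)).const_mul (c / 2)).sub_const (c / 2)
    refine (h3.hasFDerivWithinAt).congr_fderiv ?_
    ext v
    simp
    ring
  hg z hz := ((hasFDerivAt_id z).const_mul (c : ℂ)).hasFDerivWithinAt
  cH := continuousOn_const
  bd z hz := by rw [hz]; simp

/-- conserved vorticity solution on the disc, in the coordinates in which the velocity is `κ i ∇ψ`
and the vorticity is `s₁ ψ_xx + s₂ ψ_yy` -/
structure DSol (s1 s2 κ T : ℝ) (ψ : ℝ → ℂ → ℝ) (g : ℝ → ℂ → ℂ) (H : ℝ → ℂ → ℂ →L[ℝ] ℂ) : Prop where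
  T0 : 0 ≤ T
  c2 : ∀ t ∈ Icc 0 T, C2 (ψ t) (g t) (H t)
  sym : ∀ t ∈ Icc 0 T, ∀ z ∈ ball (0:ℂ) 1, (H t z 1).im = (H t z I).re
  cg : ContinuousOn (fun p : ℝ × ℂ => g p.1 p.2) (Icc 0 T ×ˢ DD)
  cH : ContinuousOn (fun p : ℝ × ℂ => H p.1 p.2) (Icc 0 T ×ˢ DD)
  tr : ∀ φ, Flw T (fun t z => (κ : ℂ) * I * g t z) φ → ∀ t ∈ Icc 0 T, ∀ x ∈ DD,
    Lop s1 s2 (H t (φ 0 t x)) = Lop s1 s2 (H 0 x)

variable {s1 s2 κ T : ℝ} {ψ : ℝ → ℂ → ℝ} {g : ℝ → ℂ → ℂ} {H : ℝ → ℂ → ℂ →L[ℝ] ℂ}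

lemma C2.tang (h : C2 ψ₀ g₀ H₀) {z : ℂ} (hz : ‖z‖ = 1) : dl (g₀ z) (I * z) = 0 := by
  have hcur : HasDerivAt (fun r : ℝ => z * Complex.exp ((r : ℂ) * I)) (I * z) 0 := by
    have h1 : HasDerivAt (fun r : ℝ => (r : ℂ) * I) I 0 := by
      have := (Complex.ofRealCLM.hasDerivAt (x := (0:ℝ))).mul_const I
      simpa using this
    have h2 := (h1.cexp).const_mul z
    simpa [mul_comm] using h2
  have h0 : z * Complex.exp (((0:ℝ) : ℂ) * I) = z := by simp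
  have hmem : ∀ r : ℝ, ‖z * Complex.exp ((r : ℂ) * I)‖ = 1 := by
    intro r; rw [norm_mul, hz, Complex.norm_exp_ofReal_mul_I, one_mul]
  have h1 : HasFDerivWithinAt ψ₀ (dl (g₀ z)) DD (z * Complex.exp (((0:ℝ) : ℂ) * I)) := by
    rw [h0]; exact h.hψ z (by simp [hz])
  have h2 := h1.comp_hasDerivWithinAt (0:ℝ) (s := univ) hcur.hasDerivWithinAt
    (fun r _ => by rw [mem_closedBall_zero_iff]; exact (hmem r).le)
  have h3 : (ψ₀ ∘ fun r : ℝ => z * Complex.exp ((r : ℂ) * I)) = fun _ => 0 := by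
    funext r; exact h.bd _ (hmem r)
  rw [h3, hasDerivWithinAt_univ] at h2
  exact h2.unique (hasDerivAt_const _ _)

theorem fld_of (hT0 : 0 ≤ T) (hc2 : ∀ t ∈ Icc 0 T, C2 (ψ t) (g t) (H t))
    (hsym : ∀ t ∈ Icc 0 T, ∀ z ∈ ball (0:ℂ) 1, (H t z 1).im = (H t z I).re)
    (hcg : ContinuousOn (fun p : ℝ × ℂ => g p.1 p.2) (Icc 0 T ×ˢ DD))
    (hcH : ContinuousOn (fun p : ℝ × ℂ => H p.1 p.2) (Icc 0 T ×ˢ DD)) (κ : ℝ) :
    Fld T (fun t z => (κ : ℂ) * I * g t z) (fun t z => ((κ : ℂ) * I) • H t z) where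
  T0 := hT0
  cU := continuousOn_const.mul hcg
  cB := hcH.fun_const_smul ((κ : ℂ) * I)
  hd t ht z hz := ((hc2 t ht).hg z hz).const_mul _
  tan t ht z hz := by
    have h1 := (hc2 t ht).tang hz
    rw [dl_apply] at h1
    simp only [Complex.mul_re, Complex.mul_im, Complex.conj_re, Complex.conj_im, Complex.I_re,
      Complex.I_im, Complex.ofReal_re, Complex.ofReal_im] at h1 ⊢
    linear_combination (-κ) * h1
  tr t ht z hz := by
    have h1 := hsym t ht z hz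
    simp only [smul_apply, smul_eq_mul, Complex.mul_re, Complex.mul_im,
      Complex.I_re, Complex.I_im, Complex.ofReal_re, Complex.ofReal_im]
    linear_combination (-κ) * h1

theorem DSol.fld (h : DSol s1 s2 κ T ψ g H) :
    Fld T (fun t z => (κ : ℂ) * I * g t z) (fun t z => ((κ : ℂ) * I) • H t z) :=
  fld_of h.T0 h.c2 h.sym h.cg h.cH κ

lemma dl_rot (a : ℂ) (κ : ℝ) : dl a ((κ : ℂ) * I * a) = 0 := by
  rw [dl_apply]
  simp only [Complex.mul_re, Complex.mul_im, Complex.I_re, Complex.I_im, Complex.ofReal_re,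
    Complex.ofReal_im]
  ring

lemma norm_dl_le (a v : ℂ) : |dl a v| ≤ ‖a‖ * ‖v‖ := by
  have h1 : dl a v = (starRingEnd ℂ a * v).re := by
    rw [dl_apply, Complex.mul_re, Complex.conj_re, Complex.conj_im]; ring
  rw [h1]
  refine (Complex.abs_re_le_norm _).trans ?_
  rw [norm_mul, Complex.norm_conj]

/-- integral of the energy -/
noncomputable def En (s1 s2 : ℝ) (g : ℂ → ℂ) : ℝ := ∫ z, sb s1 s2 (g z) (g z) ∂mu

/-- the vorticity -/
noncomputable def vo (s1 s2 : ℝ) (H : ℂ → ℂ →L[ℝ] ℂ) (z : ℂ) : ℝ := Lop s1 s2 (H z)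

lemma DSol.cvo (h : DSol s1 s2 κ T ψ g H) {t : ℝ} (ht : t ∈ Icc 0 T) :
    ContinuousOn (vo s1 s2 (H t)) DD := cont_Lop (h.c2 t ht).cH

variable {φ : ℝ → ℝ → ℂ → ℂ}

/-- change of variables by the flow -/
lemma Flw.integral_comp' {U : ℝ → ℂ → ℂ} {B : ℝ → ℂ → ℂ →L[ℝ] ℂ} (hF : Flw T U φ) (h : Fld T U B)
    {t : ℝ} (ht : t ∈ Icc 0 T) (f : ℂ → ℝ) : ∫ x, f (φ 0 t x) ∂mu = ∫ x, f x ∂mu := by
  have hinj : Function.Injective (φ 0 t) := by
    intro x y hxy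
    have := congrArg (φ t 0) hxy
    rwa [hF.inv h, hF.inv h] at this
  exact (hF.mp h ht).integral_comp ((hF.cont1 h 0 t).measurableEmbedding hinj) f

theorem DSol.energy_step (h : DSol s1 s2 κ T ψ g H)
    (hF : Flw T (fun t z => (κ : ℂ) * I * g t z) φ) {ε : ℝ} (hε : 0 < ε) :
    ∃ δ > 0, ∀ s ∈ Icc 0 T, ∀ t ∈ Icc 0 T, s ≤ t → t - s < δ →
      |En s1 s2 (g t) - En s1 s2 (g s)| ≤ ε * (t - s) := by
  have hfld := h.fld
  have hK : IsCompact (Icc 0 T ×ˢ DD) := isCompact_Icc.prod (isCompact_closedBall _ _)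
  obtain ⟨G, hG⟩ := hK.exists_bound_of_continuousOn h.cg
  obtain ⟨W, hW⟩ := (isCompact_closedBall (0:ℂ) 1).exists_bound_of_continuousOn
    (h.cvo ⟨le_rfl, h.T0⟩)
  have hG0 : 0 ≤ G := (norm_nonneg _).trans (hG (0, 0) ⟨⟨le_rfl, h.T0⟩, by simp⟩)
  have hW0 : 0 ≤ W := (norm_nonneg _).trans (hW 0 (by simp))
  have huc := hK.uniformContinuousOn_of_continuous h.cg
  set ε' : ℝ := ε / (2 * (|κ| * G + 1) * (W + 1) * Real.pi) with hε'
  have hε'0 : 0 < ε' := by positivity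
  obtain ⟨δ, hδ, hδ'⟩ := Metric.uniformContinuousOn_iff.1 huc ε' hε'0
  refine ⟨δ, hδ, fun s hs t ht hst hlt => ?_⟩
  have cs := h.c2 s hs
  have ct := h.c2 t ht
  -- step 1 : Green
  have e1 : En s1 s2 (g t) - En s1 s2 (g s) =
      - ∫ z, (ψ t z + ψ s z) * (vo s1 s2 (H t) z - vo s1 s2 (H s) z) ∂mu := by
    have a1 := green (ct.sub cs) s1 s2 one_pos le_rfl (χ := fun z => ψ t z + ψ s z)
      (k := fun z => g t z + g s z) (ct.add cs).hψ (ct.add cs).cg (ct.add cs).bd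
    simp only [Lop_sub] at a1
    unfold vo
    rw [← a1]
    unfold En
    rw [← integral_sub (intOn_of_contOn (cont_sb ct.cg ct.cg)) (intOn_of_contOn (cont_sb cs.cg cs.cg))]
    refine integral_congr_ae (Filter.Eventually.of_forall fun z => ?_)
    simp only [sb, Complex.sub_re, Complex.sub_im, Complex.add_re, Complex.add_im]
    ring
  -- step 2 : transport
  have cχ : ContinuousOn (fun z => ψ t z + ψ s z) DD := ct.cψ.add cs.cψ
  have cvt := h.cvo ht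
  have cvs := h.cvo hs
  have cv0 := h.cvo (⟨le_rfl, h.T0⟩ : (0:ℝ) ∈ Icc 0 T)
  have tr1 : ∀ r ∈ Icc 0 T, ∫ z, (ψ t z + ψ s z) * vo s1 s2 (H r) z ∂mu =
      ∫ x, (ψ t (φ 0 r x) + ψ s (φ 0 r x)) * vo s1 s2 (H 0) x ∂mu := by
    intro r hr
    rw [← hF.integral_comp' hfld hr]
    refine setIntegral_congr_fun measurableSet_ball fun x hx => ?_
    have := h.tr φ hF r hr x (ball_subset_closedBall hx)
    simp only [vo]
    rw [this]
  have cφ : ∀ r, ContinuousOn (fun x => ψ t (φ 0 r x) + ψ s (φ 0 r x)) DD := fun r =>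
    cχ.comp (hF.cont1 hfld 0 r).continuousOn (fun x hx => hF.mem_DD hfld 0 r hx)
  have e2 : ∫ z, (ψ t z + ψ s z) * (vo s1 s2 (H t) z - vo s1 s2 (H s) z) ∂mu =
      ∫ x, ((ψ t (φ 0 t x) + ψ s (φ 0 t x)) - (ψ t (φ 0 s x) + ψ s (φ 0 s x))) * vo s1 s2 (H 0) x ∂mu := by
    simp only [mul_sub, sub_mul]
    have i1 : IntegrableOn (fun z => (ψ t z + ψ s z) * vo s1 s2 (H t) z) (ball 0 1) :=
      intOn_of_contOn (cχ.mul cvt)
    have i2 : IntegrableOn (fun z => (ψ t z + ψ s z) * vo s1 s2 (H s) z) (ball 0 1) :=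
      intOn_of_contOn (cχ.mul cvs)
    have i3 : IntegrableOn (fun x => (ψ t (φ 0 t x) + ψ s (φ 0 t x)) * vo s1 s2 (H 0) x) (ball 0 1) :=
      intOn_of_contOn ((cφ t).mul cv0)
    have i4 : IntegrableOn (fun x => (ψ t (φ 0 s x) + ψ s (φ 0 s x)) * vo s1 s2 (H 0) x) (ball 0 1) :=
      intOn_of_contOn ((cφ s).mul cv0)
    rw [integral_sub i1 i2, tr1 t ht, tr1 s hs, integral_sub i3 i4]
  -- step 3 : mean value inequality
  have e3 : ∀ x ∈ ball (0:ℂ) 1,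
      |(ψ t (φ 0 t x) + ψ s (φ 0 t x)) - (ψ t (φ 0 s x) + ψ s (φ 0 s x))| ≤
        (2 * ε' * (|κ| * G)) * (t - s) := by
    intro x hx
    have hd : ∀ r ∈ Icc s t, HasDerivWithinAt (fun r => ψ t (φ 0 r x) + ψ s (φ 0 r x))
        (dl (g t (φ 0 r x) + g s (φ 0 r x)) ((κ : ℂ) * I * g r (φ 0 r x))) (Icc s t) r := by
      intro r hr
      have hrT : r ∈ Icc 0 T := ⟨hs.1.trans hr.1, hr.2.trans ht.2⟩
      have hb := hF.mem_ball hfld 0 r hx
      have a1 : HasFDerivAt (fun z => ψ t z + ψ s z) (dl (g t (φ 0 r x) + g s (φ 0 r x))) (φ 0 r x) :=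
        ((ct.add cs).hψ _ (ball_subset_closedBall hb)).hasFDerivAt (Filter.mem_of_superset
          (isOpen_ball.mem_nhds hb) ball_subset_closedBall)
      have a2 := hF.der 0 x r
      rw [ext_eq hrT (ball_subset_closedBall hb)] at a2
      exact (a1.comp_hasDerivAt r a2).hasDerivWithinAt
    have hb : ∀ r ∈ Icc s t, ‖dl (g t (φ 0 r x) + g s (φ 0 r x)) ((κ : ℂ) * I * g r (φ 0 r x))‖ ≤
        2 * ε' * (|κ| * G) := by
      intro r hr
      have hrT : r ∈ Icc 0 T := ⟨hs.1.trans hr.1, hr.2.trans ht.2⟩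
      have hbD := hF.mem_DD hfld 0 r (ball_subset_closedBall hx)
      have b1 : dl (g t (φ 0 r x) + g s (φ 0 r x)) ((κ : ℂ) * I * g r (φ 0 r x)) =
          dl ((g t (φ 0 r x) - g r (φ 0 r x)) + (g s (φ 0 r x) - g r (φ 0 r x)))
            ((κ : ℂ) * I * g r (φ 0 r x)) := by
        have h0 := dl_rot (g r (φ 0 r x)) κ
        rw [dl_add, dl_add, dl_sub, dl_sub]
        simp only [add_apply, sub_apply, h0, sub_zero]
      rw [b1, Real.norm_eq_abs]
      refine (norm_dl_le _ _).trans ?_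
      have b2 : ‖g t (φ 0 r x) - g r (φ 0 r x)‖ ≤ ε' := by
        have := hδ' (t, φ 0 r x) ⟨ht, hbD⟩ (r, φ 0 r x) ⟨hrT, hbD⟩ (by
          rw [Prod.dist_eq, dist_self, max_eq_left dist_nonneg, Real.dist_eq,
            abs_of_nonneg (by linarith [hr.2])]
          linarith [hr.1])
        rw [dist_eq_norm] at this
        exact this.le
      have b3 : ‖g s (φ 0 r x) - g r (φ 0 r x)‖ ≤ ε' := by
        have := hδ' (s, φ 0 r x) ⟨hs, hbD⟩ (r, φ 0 r x) ⟨hrT, hbD⟩ (by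
          rw [Prod.dist_eq, dist_self, max_eq_left dist_nonneg, Real.dist_eq,
            abs_of_nonpos (by linarith [hr.1])]
          linarith [hr.2])
        rw [dist_eq_norm] at this
        exact this.le
      have b4 : ‖(κ : ℂ) * I * g r (φ 0 r x)‖ ≤ |κ| * G := by
        rw [norm_mul, norm_mul, Complex.norm_real, Complex.norm_I, mul_one, Real.norm_eq_abs]
        have := hG (r, φ 0 r x) ⟨hrT, hbD⟩
        gcongr
      have b5 := (norm_add_le (g t (φ 0 r x) - g r (φ 0 r x)) (g s (φ 0 r x) - g r (φ 0 r x)))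
      calc _ ≤ (2 * ε') * (|κ| * G) := by gcongr; linarith
        _ = _ := by ring
    have := Convex.norm_image_sub_le_of_norm_hasDerivWithin_le hd hb (convex_Icc s t)
      (left_mem_Icc.2 hst) (right_mem_Icc.2 hst)
    rwa [Real.norm_eq_abs, Real.norm_eq_abs, abs_of_nonneg (sub_nonneg.2 hst)] at this
  rw [e1, e2, abs_neg]
  have e4 := norm_integral_le_of_norm_le_const (μ := mu)
    (f := fun x => ((ψ t (φ 0 t x) + ψ s (φ 0 t x)) - (ψ t (φ 0 s x) + ψ s (φ 0 s x))) * vo s1 s2 (H 0) x)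
    (C := (2 * ε' * (|κ| * G)) * (t - s) * W) (by
      filter_upwards [ae_restrict_mem measurableSet_ball] with x hx
      rw [norm_mul]
      have := hW x (ball_subset_closedBall hx)
      have hts : 0 ≤ t - s := by linarith
      exact mul_le_mul (e3 x hx) this (norm_nonneg _) (by positivity))
  rw [Real.norm_eq_abs] at e4
  refine e4.trans ?_
  have hmu : mu.real univ = Real.pi := by
    rw [Measure.real, Measure.restrict_apply_univ, Complex.volume_ball]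
    simp
  rw [hmu]
  have hts : 0 ≤ t - s := by linarith
  calc 2 * ε' * (|κ| * G) * (t - s) * W * Real.pi
      ≤ 2 * ε' * (|κ| * G + 1) * (t - s) * (W + 1) * Real.pi := by gcongr <;> linarith
    _ = (ε' * (2 * (|κ| * G + 1) * (W + 1) * Real.pi)) * (t - s) := by ring
    _ = ε * (t - s) := by
      rw [hε', div_mul_cancel₀]
      positivity

theorem DSol.energy_const (h : DSol s1 s2 κ T ψ g H) {t : ℝ} (ht : t ∈ Icc 0 T) :
    En s1 s2 (g t) = En s1 s2 (g 0) := by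
  obtain ⟨φ, hF⟩ := h.fld.exists_flow
  have hd : ∀ x ∈ Icc 0 T, HasDerivWithinAt (fun t => En s1 s2 (g t)) 0 (Icc 0 T) x := by
    intro x hx
    rw [hasDerivWithinAt_iff_isLittleO, Asymptotics.isLittleO_iff]
    intro ε hε
    obtain ⟨δ, hδ, h1⟩ := h.energy_step hF hε
    have h2 : ball x δ ∈ 𝓝 x := ball_mem_nhds x hδ
    filter_upwards [mem_nhdsWithin_of_mem_nhds h2, self_mem_nhdsWithin] with y hy hyT
    rw [mem_ball, Real.dist_eq] at hy
    simp only [smul_zero, sub_zero]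
    rw [Real.norm_eq_abs, Real.norm_eq_abs]
    rcases le_total x y with hxy | hxy
    · rw [abs_of_nonneg (sub_nonneg.2 hxy)] at hy ⊢
      exact h1 x hx y hyT hxy hy
    · rw [abs_of_nonpos (sub_nonpos.2 hxy)] at hy ⊢
      have := h1 y hyT x hx hxy (by linarith)
      rw [abs_sub_comm]
      linarith
  have := Convex.norm_image_sub_le_of_norm_hasDerivWithin_le (C := 0) hd (by simp) (convex_Icc 0 T)
      (⟨le_rfl, h.T0⟩ : (0:ℝ) ∈ Icc 0 T) ht
  rw [zero_mul, norm_le_zero_iff, sub_eq_zero] at this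
  exact this

end Run7.h148
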