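import Pool.Agent.Run7.h148.Pair
import Mathlib.Analysis.SpecialFunctions.Pow.Integral

set_option autoImplicit false

open Metric Set MeasureTheory Filter Topology Complex

namespace Run7.h148

variable {T : ℝ} {U : ℝ → ℂ → ℂ} {B : ℝ → ℂ → ℂ →L[ℝ] ℂ} {φ : ℝ → ℝ → ℂ → ℂ}

lemma exp_rot_lip (θ a b : ℝ) :
    ‖Complex.exp (I * ((a * θ : ℝ) : ℂ)) - Complex.exp (I * ((b * θ : ℝ) : ℂ))‖ ≤ |θ| * |a - b| := by
  have h1 : Complex.exp (I * ((a * θ : ℝ) : ℂ)) - Complex.exp (I * ((b * θ : ℝ) : ℂ)) =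
      Complex.exp (I * ((b * θ : ℝ) : ℂ)) * (Complex.exp (I * (((a - b) * θ : ℝ) : ℂ)) - 1) := by
    rw [mul_sub, ← Complex.exp_add, mul_one]
    congr 2
    push_cast; ring
  rw [h1, norm_mul, mul_comm I ((b * θ : ℝ) : ℂ), Complex.norm_exp_ofReal_mul_I, one_mul]
  refine (Real.norm_exp_I_mul_ofReal_sub_one_le).trans ?_
  rw [Real.norm_eq_abs, abs_mul, mul_comm]

theorem Flw.ZZ_bound (hF : Flw T U φ) (h : Fld T U B) {t L : ℝ} (hL : 0 < L)
    (hL1 : ∀ x ∈ DD, ∀ y ∈ DD, ‖φ 0 t x - φ 0 t y‖ ≤ L * ‖x - y‖)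
    (hL2 : ∀ x ∈ DD, ∀ y ∈ DD, ‖x - y‖ ≤ L * ‖φ 0 t x - φ 0 t y‖)
    {x y : ℂ} (hx : x ∈ DD) (hy : y ∈ DD) (hxy : x ≠ y) :
    ‖ZZ T U φ t x y - ZZ T U φ t (-1) 1‖ ≤ (L ^ 2 + 1) * (Real.pi + 4 * (1 / ‖y - x‖)) := by
  have hd : 0 < ‖y - x‖ := norm_pos_iff.2 (sub_ne_zero.2 hxy.symm)
  have hx1 : ‖x‖ ≤ 1 := by simpa using hx
  have hy1 : ‖y‖ ≤ 1 := by simpa using hy
  have hd2 : ‖y - x‖ ≤ 2 := (norm_sub_le _ _).trans (by linarith)
  set e : ℂ := ((‖y - x‖⁻¹ : ℝ) : ℂ) * (y - x) with he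
  have hen : ‖e‖ = 1 := by
    rw [he, norm_mul, Complex.norm_real, norm_inv, norm_norm, inv_mul_cancel₀ hd.ne']
  have hye : y - x = ((‖y - x‖ : ℝ) : ℂ) * e := by
    rw [he, ← mul_assoc, ← ofReal_mul, mul_inv_cancel₀ hd.ne', ofReal_one, one_mul]
  have cvx : Convex ℝ DD := convex_closedBall _ _
  -- first path
  have P1 : ‖ZZ T U φ t (-e) e - ZZ T U φ t x y‖ ≤ (L ^ 2 + 1) * 4 / ‖y - x‖ := by
    have key := hF.ZZ_path h (t := t) (C := 4) hd hL (by norm_num) hL1 hL2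
      (a := fun s : ℝ => (1 - s) • x + s • (-e)) (b := fun s : ℝ => (1 - s) • y + s • e)
      (by fun_prop) (by fun_prop) ?_ ?_ ?_ ?_
    · simpa using key
    · intro s hs
      exact cvx hx (by simp [hen]) (by linarith [hs.2]) hs.1 (by ring)
    · intro s hs
      exact cvx hy (by simp [hen]) (by linarith [hs.2]) hs.1 (by ring)
    · intro s hs
      have e1 : (1 - s) • y + s • e - ((1 - s) • x + s • (-e)) =
          (((1 - s) * ‖y - x‖ + 2 * s : ℝ) : ℂ) * e := by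
        have : (1 - s) • y + s • e - ((1 - s) • x + s • (-e)) =
          ((1 - s : ℝ) : ℂ) * (y - x) + ((2 * s : ℝ) : ℂ) * e := by
          simp only [Complex.real_smul]; push_cast; ring
        rw [this]
        conv_lhs => rw [hye]
        push_cast; ring
      rw [e1, norm_mul, hen, mul_one, Complex.norm_real, Real.norm_eq_abs]
      refine le_trans ?_ (le_abs_self _)
      nlinarith [hs.1, hs.2]
    · intro s hs r hr
      have e1 : (1 - s) • x + s • (-e) - ((1 - r) • x + r • (-e)) = ((s - r : ℝ) : ℂ) * (-e - x) := by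
        simp only [Complex.real_smul]; push_cast; ring
      have e2 : (1 - s) • y + s • e - ((1 - r) • y + r • e) = ((s - r : ℝ) : ℂ) * (e - y) := by
        simp only [Complex.real_smul]; push_cast; ring
      rw [e1, e2, norm_mul, norm_mul, Complex.norm_real, Real.norm_eq_abs]
      have e3 : ‖-e - x‖ ≤ 2 := (norm_sub_le _ _).trans (by rw [norm_neg, hen]; linarith)
      have e4 : ‖e - y‖ ≤ 2 := (norm_sub_le _ _).trans (by rw [hen]; linarith)
      nlinarith [abs_nonneg (s - r)]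
  -- second path
  have P2 : ‖ZZ T U φ t (-1) 1 - ZZ T U φ t (-e) e‖ ≤ (L ^ 2 + 1) * (2 * Real.pi) / 2 := by
    set θ := Complex.arg e with hθ
    have hexp : Complex.exp (I * ((1 * θ : ℝ) : ℂ)) = e := by
      rw [one_mul, mul_comm]
      have := Complex.norm_mul_exp_arg_mul_I e
      rw [hen, ofReal_one, one_mul] at this
      exact this
    have hθp : |θ| ≤ Real.pi := Complex.abs_arg_le_pi e
    have hn : ∀ r : ℝ, ‖Complex.exp (I * (r : ℂ))‖ = 1 := by
      intro r; rw [mul_comm]; exact Complex.norm_exp_ofReal_mul_I r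
    have key := hF.ZZ_path h (t := t) (C := 2 * Real.pi) two_pos hL (by positivity) hL1 hL2
      (a := fun s : ℝ => -Complex.exp (I * (((1 - s) * θ : ℝ) : ℂ)))
      (b := fun s : ℝ => Complex.exp (I * (((1 - s) * θ : ℝ) : ℂ)))
      (by fun_prop) (by fun_prop) ?_ ?_ ?_ ?_
    · rw [sub_self, sub_zero, hexp] at key
      simpa using key
    · intro s hs
      rw [mem_closedBall_zero_iff, norm_neg, hn]
    · intro s hs
      rw [mem_closedBall_zero_iff, hn]
    · intro s hs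
      have : Complex.exp (I * (((1 - s) * θ : ℝ) : ℂ)) - -Complex.exp (I * (((1 - s) * θ : ℝ) : ℂ)) =
        2 * Complex.exp (I * (((1 - s) * θ : ℝ) : ℂ)) := by ring
      rw [this, norm_mul, hn]; simp
    · intro s hs r hr
      have e1 := exp_rot_lip θ (1 - s) (1 - r)
      have e2 : |1 - s - (1 - r)| = |s - r| := by rw [abs_sub_comm s r]; congr 1; ring
      rw [e2] at e1
      have e3 : ‖-Complex.exp (I * (((1 - s) * θ : ℝ) : ℂ)) - -Complex.exp (I * (((1 - r) * θ : ℝ) : ℂ))‖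
        = ‖Complex.exp (I * (((1 - s) * θ : ℝ) : ℂ)) - Complex.exp (I * (((1 - r) * θ : ℝ) : ℂ))‖ := by
        rw [← norm_neg]; congr 1; ring
      rw [e3]
      have e4 : |θ| * |s - r| ≤ Real.pi * |s - r| := by gcongr
      linarith
  have h3 : ZZ T U φ t x y - ZZ T U φ t (-1) 1 =
      -(ZZ T U φ t (-e) e - ZZ T U φ t x y) - (ZZ T U φ t (-1) 1 - ZZ T U φ t (-e) e) := by ring
  rw [h3]
  refine (norm_sub_le _ _).trans ?_
  rw [norm_neg]
  calc _ ≤ (L ^ 2 + 1) * 4 / ‖y - x‖ + (L ^ 2 + 1) * (2 * Real.pi) / 2 := add_le_add P1 P2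
    _ = _ := by ring

lemma exists_sing_bound : ∃ C : ℝ, 0 < C ∧ ∀ x ∈ DD, Integrable (fun y => 1 / ‖y - x‖) mu ∧
    ∫ y, 1 / ‖y - x‖ ∂mu ≤ C := by
  have h1 : IntegrableOn (fun w : ℂ => 1 / ‖w‖) (ball 0 2) := by
    refine integrableOn_ball_of_norm_le_rpow (C := 1) (α := 1) ?_ ?_ ?_ ?_
    · rw [Complex.finrank_real_complex]; norm_num
    · rw [Complex.finrank_real_complex]; norm_num
    · refine Filter.Eventually.of_forall fun w => ?_
      rw [Real.rpow_neg (norm_nonneg _), Real.rpow_one, one_mul, one_div, norm_inv, norm_norm]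
    · exact (measurable_norm.const_div 1).aestronglyMeasurable
  set G : ℂ → ℝ := (ball (0:ℂ) 2).indicator (fun w => 1 / ‖w‖) with hG
  have hGi : Integrable G := (integrable_indicator_iff measurableSet_ball).2 h1
  have hG0 : ∀ w, 0 ≤ G w := fun w => indicator_nonneg (fun w _ => by positivity) w
  refine ⟨(∫ w, G w) + 1, ?_, fun x hx => ?_⟩
  · have : 0 ≤ ∫ w, G w := integral_nonneg hG0
    linarith
  · have hx1 : ‖x‖ ≤ 1 := by simpa using hx
    have h2 : ∀ y ∈ ball (0:ℂ) 1, 1 / ‖y - x‖ = G (y - x) := by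
      intro y hy
      have hy1 : ‖y‖ < 1 := by simpa using hy
      rw [hG, indicator_of_mem]
      rw [mem_ball_zero_iff]
      refine (norm_sub_le _ _).trans_lt (by linarith)
    have h3 : Integrable (fun y => G (y - x)) := hGi.comp_sub_right x
    constructor
    · exact (h3.integrableOn (s := ball (0:ℂ) 1)).congr_fun (fun y hy => (h2 y hy).symm) measurableSet_ball
    · have h4 : ∫ y in ball (0:ℂ) 1, 1 / ‖y - x‖ = ∫ y in ball (0:ℂ) 1, G (y - x) :=
        setIntegral_congr_fun measurableSet_ball h2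
      have h5 : ∫ y in ball (0:ℂ) 1, G (y - x) ≤ ∫ y, G (y - x) :=
        setIntegral_le_integral h3 (Filter.Eventually.of_forall fun y => hG0 _)
      have h6 : ∫ y, G (y - x) = ∫ w, G w := integral_sub_right_eq_self G x
      rw [h4]
      linarith

end Run7.h148
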